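import Pool.Agent.N465.L2.Stm

/-!
# L2/AVG (helper335): averaging over all seven-tuples of vertices
-/

set_option autoImplicit false
set_option maxRecDepth 100000

open Finset

namespace Pool.Agent.N465.L2

namespace AVG

section
variable {V : Type} [Fintype V]

theorem psum7 (F : V → V → V → V → V → V → V → ℤ) (g : Fin 7 → Fin 7) (hg : Function.Bijective g) :
    ∑ x : Fin 7 → V, F (x (g 0)) (x (g 1)) (x (g 2)) (x (g 3)) (x (g 4)) (x (g 5)) (x (g 6))
      = ∑ x : Fin 7 → V, F (x 0) (x 1) (x 2) (x 3) (x 4) (x 5) (x 6) := by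
  have h := Equiv.sum_comp (Equiv.arrowCongr (Equiv.ofBijective g hg).symm (Equiv.refl V))
    (fun x => F (x 0) (x 1) (x 2) (x 3) (x 4) (x 5) (x 6))
  rw [← h]
  rfl

def e7 (V : Type) : (Fin 7 → V) ≃ V × V × V × V × V × V × V where
  toFun x := (x 0, x 1, x 2, x 3, x 4, x 5, x 6)
  invFun p := ![p.1, p.2.1, p.2.2.1, p.2.2.2.1, p.2.2.2.2.1, p.2.2.2.2.2.1, p.2.2.2.2.2.2]
  left_inv x := by funext i; fin_cases i <;> rfl
  right_inv p := rfl

theorem conv7 (F : V → V → V → V → V → V → V → ℤ) :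
    ∑ x : Fin 7 → V, F (x 0) (x 1) (x 2) (x 3) (x 4) (x 5) (x 6)
      = ∑ a, ∑ b, ∑ c, ∑ d, ∑ e, ∑ f, ∑ g, F a b c d e f g := by
  rw [← Equiv.sum_comp (e7 V).symm]
  simp only [Fintype.sum_prod_type]
  rfl

theorem sum21 (E : V → V → V → V → ℕ) (ψ : ℕ → ℕ → ℕ → ℤ) : ∑ x : Fin 7 → V, L7f E ψ x =
    21 * ∑ x : Fin 7 → V, Psi E ψ (x 0) (x 1) (x 2) (x 3) (x 4) (x 5) (x 6) := by
  have f7 : ∀ i0 i1 i2 i3 i4 i5 i6 : Fin 7, Function.Injective ![i0, i1, i2, i3, i4, i5, i6] →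
      ∑ x : Fin 7 → V, Psi E ψ (x i0) (x i1) (x i2) (x i3) (x i4) (x i5) (x i6)
        = ∑ x : Fin 7 → V, Psi E ψ (x 0) (x 1) (x 2) (x 3) (x 4) (x 5) (x 6) :=
    fun i0 i1 i2 i3 i4 i5 i6 hg =>
      psum7 (Psi E ψ) ![i0, i1, i2, i3, i4, i5, i6] (Finite.injective_iff_bijective.mp hg)
  unfold L7f L7
  simp only [sum_add_distrib]
  rw [f7 2 3 4 5 6 0 1 (by decide +kernel), f7 1 3 4 5 6 0 2 (by decide +kernel),
    f7 1 2 4 5 6 0 3 (by decide +kernel), f7 1 2 3 5 6 0 4 (by decide +kernel),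
    f7 1 2 3 4 6 0 5 (by decide +kernel), f7 1 2 3 4 5 0 6 (by decide +kernel),
    f7 0 3 4 5 6 1 2 (by decide +kernel), f7 0 2 4 5 6 1 3 (by decide +kernel),
    f7 0 2 3 5 6 1 4 (by decide +kernel), f7 0 2 3 4 6 1 5 (by decide +kernel),
    f7 0 2 3 4 5 1 6 (by decide +kernel), f7 0 1 4 5 6 2 3 (by decide +kernel),
    f7 0 1 3 5 6 2 4 (by decide +kernel), f7 0 1 3 4 6 2 5 (by decide +kernel),
    f7 0 1 3 4 5 2 6 (by decide +kernel), f7 0 1 2 5 6 3 4 (by decide +kernel),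
    f7 0 1 2 4 6 3 5 (by decide +kernel), f7 0 1 2 4 5 3 6 (by decide +kernel),
    f7 0 1 2 3 6 4 5 (by decide +kernel), f7 0 1 2 3 5 4 6 (by decide +kernel)]
  ring

end

theorem bit {V : Type} {E : V → V → V → V → ℕ} (hE : Sy4 E) (a b c d : V) : E a b c d < 2 := by
  rcases hE.b a b c d with h | h <;> omega

theorem lC_lt {V : Type} {E : V → V → V → V → ℕ} (hE : Sy4 E) (a b c d e x : V) :
    lC E a b c d e x < 1024 := by
  unfold lC cl
  have h1 := bit hE c d e x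
  have h2 := bit hE b d e x
  have h3 := bit hE b c e x
  have h4 := bit hE b c d x
  have h5 := bit hE a d e x
  have h6 := bit hE a c e x
  have h7 := bit hE a c d x
  have h8 := bit hE a b e x
  have h9 := bit hE a b d x
  have h10 := bit hE a b c x
  omega

end AVG

open AVG in
theorem goal_AVG : Goal_AVG := by
  intro ψ hψ V _ _ E hE hpos
  have h1 : 0 ≤ ∑ x : Fin 7 → V, L7f E ψ x := sum_nonneg fun x _ => hpos x
  rw [sum21, conv7] at h1
  have h2 : ∑ a : V, ∑ b : V, ∑ c : V, ∑ d : V, ∑ e : V, ∑ f : V, ∑ g : V,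
      Psi E ψ a b c d e f g ≤ ∑ a : V, ∑ b : V, ∑ c : V, ∑ d : V, ∑ e : V,
        2000000 * ck (kC5 E a b c d e) * (Fintype.card V : ℤ) ^ 2 := by
    refine sum_le_sum fun a _ => sum_le_sum fun b _ => sum_le_sum fun c _ =>
      sum_le_sum fun d _ => sum_le_sum fun e _ => ?_
    exact hψ.psd (E b c d e) (E a c d e) (E a b d e) (E a b c e) (E a b c d)
      (bit hE _ _ _ _) (bit hE _ _ _ _) (bit hE _ _ _ _) (bit hE _ _ _ _) (bit hE _ _ _ _)
      V (lC E a b c d e) (lC_lt hE a b c d e)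
  have h3 : ∑ a : V, ∑ b : V, ∑ c : V, ∑ d : V, ∑ e : V,
        2000000 * ck (kC5 E a b c d e) * (Fintype.card V : ℤ) ^ 2 =
      2000000 * (Fintype.card V : ℤ) ^ 2 *
        ∑ t : V × V × V × V × V, ck (kC5 E t.1 t.2.1 t.2.2.1 t.2.2.2.1 t.2.2.2.2) := by
    simp only [Fintype.sum_prod_type, mul_sum]
    refine sum_congr rfl fun a _ => sum_congr rfl fun b _ => sum_congr rfl fun c _ =>
      sum_congr rfl fun d _ => sum_congr rfl fun e _ => ?_
    ring
  have h4 : ∑ t : V × V × V × V × V, ck (kC5 E t.1 t.2.1 t.2.2.1 t.2.2.2.1 t.2.2.2.2) =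
      ∑ k ∈ range 6, (p5 E k : ℤ) * ck k := by
    have h5 : ∀ t ∈ (univ : Finset (V × V × V × V × V)),
        kC5 E t.1 t.2.1 t.2.2.1 t.2.2.2.1 t.2.2.2.2 ∈ range 6 := by
      rintro ⟨a, b, c, d, e⟩ _
      rw [mem_range]
      unfold kC5
      have h1 := bit hE b c d e
      have h2 := bit hE a c d e
      have h3 := bit hE a b d e
      have h4 := bit hE a b c e
      have h5 := bit hE a b c d
      simp only
      omega
    rw [← sum_fiberwise_of_maps_to h5]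
    refine sum_congr rfl fun k _ => ?_
    have h6 : ∀ t ∈ (univ : Finset (V × V × V × V × V)).filter
        (fun t => kC5 E t.1 t.2.1 t.2.2.1 t.2.2.2.1 t.2.2.2.2 = k),
        ck (kC5 E t.1 t.2.1 t.2.2.1 t.2.2.2.1 t.2.2.2.2) = ck k := by
      intro t ht
      rw [(mem_filter.1 ht).2]
    rw [sum_congr rfl h6, sum_const, nsmul_eq_mul]
    rfl
  rw [h3, h4] at h2
  simp only [sum_range_succ, range_zero, sum_empty, ck] at h2
  rcases Nat.eq_zero_or_pos (Fintype.card V) with h0 | h0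
  · have hV : IsEmpty V := Fintype.card_eq_zero_iff.1 h0
    have h7 : ∀ k, p5 E k = 0 := by
      intro k
      unfold p5
      rw [card_eq_zero, filter_eq_empty_iff]
      intro t _
      exact (hV.false t.1).elim
    simp [h7]
  · have hc : 0 < 2000000 * (Fintype.card V : ℤ) ^ 2 := by positivity
    have h8 : 0 ≤ 2000000 * (Fintype.card V : ℤ) ^ 2 *
        (0 + (p5 E 0 : ℤ) * 0 + (p5 E 1 : ℤ) * -65 + (p5 E 2 : ℤ) * 95 + (p5 E 3 : ℤ) * 223 +
          (p5 E 4 : ℤ) * 319 + (p5 E 5 : ℤ) * 255) := by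
      refine le_trans ?_ h2
      linarith
    have h9 := nonneg_of_mul_nonneg_right h8 hc
    linarith

end Pool.Agent.N465.L2
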