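import Pool.Agent.N465.L2.CRTa

/-! Kernel checks of the invariance of the tabulated certificate (helper137). -/

set_option autoImplicit false
set_option maxRecDepth 100000

namespace Pool.Agent.N465.L2.CRT

theorem k2 : ckA P2 0 32 sm2 sl2 = true := by decide +kernel

theorem k3 : ckA P3 0 32 sm3 sl3 = true := by decide +kernel

end Pool.Agent.N465.L2.CRT
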