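import Pool.Agent.N465.L2.CRTa

/-! Symmetry and positivity of the tabulated certificate (helper137). -/

set_option autoImplicit false
set_option maxRecDepth 100000

open Finset

namespace Pool.Agent.N465.L2

/-- the certificate, restricted to the range of the codes -/
def psi' (m l l' : ℕ) : ℤ := if m < 32 ∧ l < 1024 ∧ l' < 1024 then psi m l l' else 0

namespace CRT

theorem psi_eq (h : Goal_DOT) {m l l' : ℕ} (hm : m < 32) (hl : l < 1024) (hl' : l' < 1024) :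
    psi m l l' = ((cc m : ℤ) - 34359738368) -
      ∑ j ∈ range 24, (wt m j : ℤ) * av m l j * av m l' j := by
  unfold psi
  rw [h m hm l hl l' hl']
  exact sub_add_eq_sub_sub _ _ _

theorem sym' (h : Goal_DOT) (m l l' : ℕ) : psi' m l l' = psi' m l' l := by
  unfold psi'
  by_cases hc : m < 32 ∧ l < 1024 ∧ l' < 1024
  · rw [if_pos hc, if_pos ⟨hc.1, hc.2.2, hc.2.1⟩, psi_eq h hc.1 hc.2.1 hc.2.2,
      psi_eq h hc.1 hc.2.2 hc.2.1]
    refine congrArg (fun x : ℤ => ((cc m : ℤ) - 34359738368) - x) ?_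
    refine Finset.sum_congr rfl fun j _ => ?_
    rw [mul_assoc, mul_comm (av m l j), ← mul_assoc]
  · rw [if_neg hc, if_neg fun hc' => hc ⟨hc'.1, hc'.2.2, hc'.2.1⟩]

theorem bt_lt (k c : ℕ) : bt k c < 2 := Nat.mod_lt _ (by norm_num)

theorem bt_eq (k c : ℕ) : bt k c = c / 2 ^ k % 2 := by
  change (c >>> k) % 2 = _
  rw [Nat.shiftRight_eq_div_pow]

theorem bt_cm {b0 b1 b2 b3 b4 : ℕ} (h0 : b0 < 2) (h1 : b1 < 2) (h2 : b2 < 2) (h3 : b3 < 2)
    (h4 : b4 < 2) : bt 0 (cm b0 b1 b2 b3 b4) = b0 ∧ bt 1 (cm b0 b1 b2 b3 b4) = b1 ∧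
      bt 2 (cm b0 b1 b2 b3 b4) = b2 ∧ bt 3 (cm b0 b1 b2 b3 b4) = b3 ∧
      bt 4 (cm b0 b1 b2 b3 b4) = b4 := by
  simp only [bt_eq, cm]
  norm_num
  refine ⟨?_, ?_, ?_, ?_, ?_⟩ <;> omega

theorem bt_cl {e0 e1 e2 e3 e4 e5 e6 e7 e8 e9 : ℕ} (h0 : e0 < 2) (h1 : e1 < 2) (h2 : e2 < 2)
    (h3 : e3 < 2) (h4 : e4 < 2) (h5 : e5 < 2) (h6 : e6 < 2) (h7 : e7 < 2) (h8 : e8 < 2)
    (h9 : e9 < 2) : bt 0 (cl e0 e1 e2 e3 e4 e5 e6 e7 e8 e9) = e0 ∧
      bt 1 (cl e0 e1 e2 e3 e4 e5 e6 e7 e8 e9) = e1 ∧ bt 2 (cl e0 e1 e2 e3 e4 e5 e6 e7 e8 e9) = e2 ∧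
      bt 3 (cl e0 e1 e2 e3 e4 e5 e6 e7 e8 e9) = e3 ∧ bt 4 (cl e0 e1 e2 e3 e4 e5 e6 e7 e8 e9) = e4 ∧
      bt 5 (cl e0 e1 e2 e3 e4 e5 e6 e7 e8 e9) = e5 ∧ bt 6 (cl e0 e1 e2 e3 e4 e5 e6 e7 e8 e9) = e6 ∧
      bt 7 (cl e0 e1 e2 e3 e4 e5 e6 e7 e8 e9) = e7 ∧ bt 8 (cl e0 e1 e2 e3 e4 e5 e6 e7 e8 e9) = e8 ∧
      bt 9 (cl e0 e1 e2 e3 e4 e5 e6 e7 e8 e9) = e9 := by
  simp only [bt_eq, cl]
  norm_num
  refine ⟨?_, ?_, ?_, ?_, ?_, ?_, ?_, ?_, ?_, ?_⟩ <;> omega

theorem cm_lt {b0 b1 b2 b3 b4 : ℕ} (h0 : b0 < 2) (h1 : b1 < 2) (h2 : b2 < 2) (h3 : b3 < 2)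
    (h4 : b4 < 2) : cm b0 b1 b2 b3 b4 < 32 := by
  unfold cm
  omega

theorem cl_lt {e0 e1 e2 e3 e4 e5 e6 e7 e8 e9 : ℕ} (h0 : e0 < 2) (h1 : e1 < 2) (h2 : e2 < 2)
    (h3 : e3 < 2) (h4 : e4 < 2) (h5 : e5 < 2) (h6 : e6 < 2) (h7 : e7 < 2) (h8 : e8 < 2)
    (h9 : e9 < 2) : cl e0 e1 e2 e3 e4 e5 e6 e7 e8 e9 < 1024 := by
  unfold cl
  omega

/-- the constants -/
theorem cc_val : ∀ m < 32, ((cc m : ℤ) - 34359738368) ≤ 2000000 * ck (oneM m) := by
  have h : al 32 (fun m => decide (((cc m : ℤ) - 34359738368) ≤ 2000000 * ck (oneM m))) = true := by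
    decide +kernel
  intro m hm
  have := al_true h m hm
  simpa using this

theorem oneM_cm {b0 b1 b2 b3 b4 : ℕ} (h0 : b0 < 2) (h1 : b1 < 2) (h2 : b2 < 2) (h3 : b3 < 2)
    (h4 : b4 < 2) : oneM (cm b0 b1 b2 b3 b4) = b0 + b1 + b2 + b3 + b4 := by
  obtain ⟨e0, e1, e2, e3, e4⟩ := bt_cm h0 h1 h2 h3 h4
  unfold oneM
  rw [e0, e1, e2, e3, e4]

theorem psd' (h : Goal_DOT) {b0 b1 b2 b3 b4 : ℕ} (h0 : b0 < 2) (h1 : b1 < 2) (h2 : b2 < 2)
    (h3 : b3 < 2) (h4 : b4 < 2) (V : Type) [Fintype V] (l : V → ℕ) (hl : ∀ v, l v < 1024) :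
    ∑ y, ∑ z, psi' (cm b0 b1 b2 b3 b4) (l y) (l z)
        ≤ 2000000 * ck (b0 + b1 + b2 + b3 + b4) * (Fintype.card V : ℤ) ^ 2 := by
  have hm := cm_lt h0 h1 h2 h3 h4
  set m := cm b0 b1 b2 b3 b4 with hmd
  have e1 : ∀ y z, psi' m (l y) (l z) = ((cc m : ℤ) - 34359738368) -
      ∑ j ∈ range 24, (wt m j : ℤ) * av m (l y) j * av m (l z) j := by
    intro y z
    unfold psi'
    rw [if_pos ⟨hm, hl y, hl z⟩, psi_eq h hm (hl y) (hl z)]
  have e2 : ∑ y, ∑ z, psi' m (l y) (l z) = ((cc m : ℤ) - 34359738368) * (Fintype.card V : ℤ) ^ 2 -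
      ∑ j ∈ range 24, (wt m j : ℤ) * (∑ y, av m (l y) j) ^ 2 := by
    have e5 : ∑ y, ∑ z, ∑ j ∈ range 24, (wt m j : ℤ) * av m (l y) j * av m (l z) j =
        ∑ j ∈ range 24, (wt m j : ℤ) * (∑ y, av m (l y) j) ^ 2 := by
      calc ∑ y, ∑ z, ∑ j ∈ range 24, (wt m j : ℤ) * av m (l y) j * av m (l z) j
          = ∑ y, ∑ j ∈ range 24, ∑ z, (wt m j : ℤ) * av m (l y) j * av m (l z) j :=
            Finset.sum_congr rfl fun y _ => Finset.sum_comm
        _ = ∑ j ∈ range 24, ∑ y, ∑ z, (wt m j : ℤ) * av m (l y) j * av m (l z) j :=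
            Finset.sum_comm
        _ = _ := by
            refine Finset.sum_congr rfl fun j _ => ?_
            rw [sq, Finset.sum_mul_sum, Finset.mul_sum]
            refine Finset.sum_congr rfl fun y _ => ?_
            rw [Finset.mul_sum]
            exact Finset.sum_congr rfl fun z _ => mul_assoc _ _ _
    rw [← e5]
    have e6 : ((cc m : ℤ) - 34359738368) * (Fintype.card V : ℤ) ^ 2 =
        ∑ _y : V, ∑ _z : V, ((cc m : ℤ) - 34359738368) := by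
      rw [Finset.sum_const, Finset.sum_const, Finset.card_univ, nsmul_eq_mul, nsmul_eq_mul, sq,
        mul_comm, mul_assoc]
    rw [e6, ← Finset.sum_sub_distrib]
    refine Finset.sum_congr rfl fun y _ => ?_
    rw [← Finset.sum_sub_distrib]
    exact Finset.sum_congr rfl fun z _ => e1 y z
  rw [e2]
  have e3 : (0 : ℤ) ≤ ∑ j ∈ range 24, (wt m j : ℤ) * (∑ y, av m (l y) j) ^ 2 :=
    Finset.sum_nonneg fun j _ => mul_nonneg (Int.natCast_nonneg _) (sq_nonneg _)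
  have e4 := cc_val m hm
  rw [hmd, oneM_cm h0 h1 h2 h3 h4, ← hmd] at e4
  have e5 : (0 : ℤ) ≤ (Fintype.card V : ℤ) ^ 2 := sq_nonneg _
  have e6 := mul_le_mul_of_nonneg_right e4 e5
  linarith

/-- the constant vector -/
theorem lk_even {m l : ℕ} (hm : m < 32) (he : Nat.beq (bt m om) 1 = false) (j : ℕ) (hj : j < 24) :
    dg j (lkA (m + 32 * l)) = 34359738368 := by
  have h1 : Nat.mod (m + 32 * l) 32 = m := by
    change (m + 32 * l) % 32 = m
    omega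
  unfold lkA
  rw [h1, st_eq, he]
  have h2 : al 24 (fun j => Nat.beq (dg j 123003155723136208567847447683223664415731869180715065944930703618254955521953492303010368693540149343822709050322214299552689203876695953600699775494388206142090885899729347827083318884583758435450548517566916626912548274908112766882031433928533568160966639616) 34359738368) = true := by
    decide +kernel
  exact Nat.eq_of_beq_eq_true (al_true h2 j hj)

theorem pm_perm {P : ℕ} (hP : al 24 (fun j => cnd (Nat.ble (Nat.succ (pm P j)) 24)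
    (Nat.beq (pm P (pm P j)) j) false) = true) (f : ℕ → ℤ) :
    ∑ j ∈ range 24, f (pm P j) = ∑ j ∈ range 24, f j := by
  have h1 : ∀ j < 24, pm P j < 24 ∧ pm P (pm P j) = j := by
    intro j hj
    obtain ⟨h2, h3⟩ := cnd_false (al_true hP j hj)
    exact ⟨Nat.le_of_ble_eq_true h2, Nat.eq_of_beq_eq_true h3⟩
  refine Finset.sum_nbij' (pm P) (pm P) ?_ ?_ ?_ ?_ ?_
  · intro j hj
    exact Finset.mem_range.2 (h1 j (Finset.mem_range.1 hj)).1
  · intro j hj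
    exact Finset.mem_range.2 (h1 j (Finset.mem_range.1 hj)).1
  · intro j hj
    exact (h1 j (Finset.mem_range.1 hj)).2
  · intro j hj
    exact (h1 j (Finset.mem_range.1 hj)).2
  · intro j _
    rfl

/-- the properties of a swap on the root codes -/
structure SM (P : ℕ) (sm : ℕ → ℕ) : Prop where
  lt : ∀ m < 32, sm m < 32
  odd : ∀ m < 32, bt (sm m) om = bt m om
  ccE : ∀ m < 32, cc (sm m) = cc m
  wtE : ∀ m < 32, ∀ j < 24, wt (sm m) j = wt m (pm P j)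

theorem SM.of {P : ℕ} {sm : ℕ → ℕ} (h : al 32 (fun m => cnd (Nat.ble (Nat.succ (sm m)) 32)
    (cnd (Nat.beq (bt (sm m) om) (bt m om)) (cnd (Nat.beq (cc (sm m)) (cc m))
      (al 24 (fun j => Nat.beq (wt (sm m) j) (wt m (pm P j)))) false) false) false) = true) :
    SM P sm := by
  constructor
  · intro m hm
    exact Nat.le_of_ble_eq_true (cnd_false (al_true h m hm)).1
  · intro m hm
    exact Nat.eq_of_beq_eq_true (cnd_false (cnd_false (al_true h m hm)).2).1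
  · intro m hm
    exact Nat.eq_of_beq_eq_true (cnd_false (cnd_false (cnd_false (al_true h m hm)).2).2).1
  · intro m hm j hj
    exact Nat.eq_of_beq_eq_true
      (al_true (cnd_false (cnd_false (cnd_false (al_true h m hm)).2).2).2 j hj)

theorem cnd_tt {α : Type} (x y : α) : cnd true x y = x := rfl

theorem ckA_spec {P n m : ℕ} {sm sl : ℕ → ℕ} (h : ckA P 0 n sm sl = true) (hm : m < n)
    (ho : Nat.beq (bt m om) 1 = true) : ckM P m (sm m) sl = true := by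
  unfold ckA at h
  have h1 := al_true h m hm
  beta_reduce at h1
  rw [show Nat.add 0 m = m from Nat.zero_add m, st_eq] at h1
  rw [ho, cnd_tt, st_eq] at h1
  exact h1

theorem ckM_spec {P m m' l : ℕ} {sl : ℕ → ℕ} (h : ckM P m m' sl = true) (hl : l < 1024) :
    cmpD P (lkA (m + 32 * l)) (lkA (m' + 32 * sl l)) = true := by
  unfold ckM at h
  have h1 := al_true h l hl
  beta_reduce at h1
  rw [st_eq] at h1
  unfold ck1 at h1
  rw [st_eq, st_eq] at h1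
  exact h1

/-- the invariance under a swap -/
theorem inv_core (h : Goal_DOT) {P : ℕ} {sm sl : ℕ → ℕ} (hs : SM P sm) (hsl : ∀ l, sl l < 1024)
    (hP : al 24 (fun j => cnd (Nat.ble (Nat.succ (pm P j)) 24)
      (Nat.beq (pm P (pm P j)) j) false) = true) (hk : ckA P 0 32 sm sl = true) {m l l' : ℕ}
    (hm : m < 32) (hl : l < 1024) (hl' : l' < 1024) :
    psi' (sm m) (sl l) (sl l') = psi' m l l' := by
  have hdg : ∀ l < 1024, ∀ j < 24, dg j (lkA (sm m + 32 * sl l)) = dg (pm P j) (lkA (m + 32 * l)) := by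
    intro l hl j hj
    by_cases ho : Nat.beq (bt m om) 1 = true
    · have h1 := ckM_spec (ckA_spec hk hm ho) hl
      unfold cmpD at h1
      exact Nat.eq_of_beq_eq_true (al_true h1 j hj)
    · rw [Bool.not_eq_true] at ho
      have ho' : Nat.beq (bt (sm m) om) 1 = false := by rw [hs.odd m hm, ho]
      have h3 : pm P j < 24 := Nat.le_of_ble_eq_true (cnd_false (al_true hP j hj)).1
      rw [lk_even (hs.lt m hm) ho' j hj, lk_even hm ho _ h3]
  have hav : ∀ l < 1024, ∀ j < 24, av (sm m) (sl l) j = av m l (pm P j) := by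
    intro l hl j hj
    unfold av
    rw [hdg l hl j hj]
  unfold psi'
  rw [if_pos ⟨hs.lt m hm, hsl l, hsl l'⟩, if_pos ⟨hm, hl, hl'⟩,
    psi_eq h (hs.lt m hm) (hsl l) (hsl l'), psi_eq h hm hl hl', hs.ccE m hm]
  refine congrArg (fun x : ℤ => ((cc m : ℤ) - 34359738368) - x) ?_
  rw [← pm_perm hP fun j => (wt m j : ℤ) * av m l j * av m l' j]
  refine Finset.sum_congr rfl fun j hj => ?_
  rw [Finset.mem_range] at hj
  rw [hs.wtE m hm j hj, hav l hl j hj, hav l' hl' j hj]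

end CRT

end Pool.Agent.N465.L2
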