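import Pool.Agent.N465.L2.CRTb
import Pool.Agent.N465.L2.CRTc
import Pool.Agent.N465.L2.CRTd

/-! The certificate properties of the tabulated certificate (helper137). -/

set_option autoImplicit false
set_option maxRecDepth 100000

open Finset

namespace Pool.Agent.N465.L2

namespace CRT

theorem sl0_lt (l : ℕ) : sl0 l < 1024 :=
  cl_lt (bt_lt _ _) (bt_lt _ _) (bt_lt _ _) (bt_lt _ _) (bt_lt _ _) (bt_lt _ _) (bt_lt _ _)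
    (bt_lt _ _) (bt_lt _ _) (bt_lt _ _)

theorem sl1_lt (l : ℕ) : sl1 l < 1024 :=
  cl_lt (bt_lt _ _) (bt_lt _ _) (bt_lt _ _) (bt_lt _ _) (bt_lt _ _) (bt_lt _ _) (bt_lt _ _)
    (bt_lt _ _) (bt_lt _ _) (bt_lt _ _)

theorem sl2_lt (l : ℕ) : sl2 l < 1024 :=
  cl_lt (bt_lt _ _) (bt_lt _ _) (bt_lt _ _) (bt_lt _ _) (bt_lt _ _) (bt_lt _ _) (bt_lt _ _)
    (bt_lt _ _) (bt_lt _ _) (bt_lt _ _)

theorem sl3_lt (l : ℕ) : sl3 l < 1024 :=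
  cl_lt (bt_lt _ _) (bt_lt _ _) (bt_lt _ _) (bt_lt _ _) (bt_lt _ _) (bt_lt _ _) (bt_lt _ _)
    (bt_lt _ _) (bt_lt _ _) (bt_lt _ _)

theorem SM0 : SM P0 sm0 := SM.of (by decide +kernel)
theorem SM1 : SM P1 sm1 := SM.of (by decide +kernel)
theorem SM2 : SM P2 sm2 := SM.of (by decide +kernel)
theorem SM3 : SM P3 sm3 := SM.of (by decide +kernel)

theorem PP0 : al 24 (fun j => cnd (Nat.ble (Nat.succ (pm P0 j)) 24)
    (Nat.beq (pm P0 (pm P0 j)) j) false) = true := by decide +kernel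
theorem PP1 : al 24 (fun j => cnd (Nat.ble (Nat.succ (pm P1 j)) 24)
    (Nat.beq (pm P1 (pm P1 j)) j) false) = true := by decide +kernel
theorem PP2 : al 24 (fun j => cnd (Nat.ble (Nat.succ (pm P2 j)) 24)
    (Nat.beq (pm P2 (pm P2 j)) j) false) = true := by decide +kernel
theorem PP3 : al 24 (fun j => cnd (Nat.ble (Nat.succ (pm P3 j)) 24)
    (Nat.beq (pm P3 (pm P3 j)) j) false) = true := by decide +kernel

theorem sm0_cm {b0 b1 b2 b3 b4 : ℕ} (h0 : b0 < 2) (h1 : b1 < 2) (h2 : b2 < 2) (h3 : b3 < 2)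
    (h4 : b4 < 2) : sm0 (cm b0 b1 b2 b3 b4) = cm b1 b0 b2 b3 b4 := by
  obtain ⟨e0, e1, e2, e3, e4⟩ := bt_cm h0 h1 h2 h3 h4
  unfold sm0
  rw [e0, e1, e2, e3, e4]

theorem sm1_cm {b0 b1 b2 b3 b4 : ℕ} (h0 : b0 < 2) (h1 : b1 < 2) (h2 : b2 < 2) (h3 : b3 < 2)
    (h4 : b4 < 2) : sm1 (cm b0 b1 b2 b3 b4) = cm b0 b2 b1 b3 b4 := by
  obtain ⟨e0, e1, e2, e3, e4⟩ := bt_cm h0 h1 h2 h3 h4
  unfold sm1
  rw [e0, e1, e2, e3, e4]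

theorem sm2_cm {b0 b1 b2 b3 b4 : ℕ} (h0 : b0 < 2) (h1 : b1 < 2) (h2 : b2 < 2) (h3 : b3 < 2)
    (h4 : b4 < 2) : sm2 (cm b0 b1 b2 b3 b4) = cm b0 b1 b3 b2 b4 := by
  obtain ⟨e0, e1, e2, e3, e4⟩ := bt_cm h0 h1 h2 h3 h4
  unfold sm2
  rw [e0, e1, e2, e3, e4]

theorem sm3_cm {b0 b1 b2 b3 b4 : ℕ} (h0 : b0 < 2) (h1 : b1 < 2) (h2 : b2 < 2) (h3 : b3 < 2)
    (h4 : b4 < 2) : sm3 (cm b0 b1 b2 b3 b4) = cm b0 b1 b2 b4 b3 := by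
  obtain ⟨e0, e1, e2, e3, e4⟩ := bt_cm h0 h1 h2 h3 h4
  unfold sm3
  rw [e0, e1, e2, e3, e4]

section

variable {e01 e02 e03 e04 e12 e13 e14 e23 e24 e34 : ℕ}

theorem sl0_cl (h01 : e01 < 2) (h02 : e02 < 2) (h03 : e03 < 2) (h04 : e04 < 2) (h12 : e12 < 2)
    (h13 : e13 < 2) (h14 : e14 < 2) (h23 : e23 < 2) (h24 : e24 < 2) (h34 : e34 < 2) :
    sl0 (cl e01 e02 e03 e04 e12 e13 e14 e23 e24 e34) =
      cl e01 e12 e13 e14 e02 e03 e04 e23 e24 e34 := by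
  obtain ⟨f0, f1, f2, f3, f4, f5, f6, f7, f8, f9⟩ := bt_cl h01 h02 h03 h04 h12 h13 h14 h23 h24 h34
  unfold sl0
  rw [f0, f1, f2, f3, f4, f5, f6, f7, f8, f9]

theorem sl1_cl (h01 : e01 < 2) (h02 : e02 < 2) (h03 : e03 < 2) (h04 : e04 < 2) (h12 : e12 < 2)
    (h13 : e13 < 2) (h14 : e14 < 2) (h23 : e23 < 2) (h24 : e24 < 2) (h34 : e34 < 2) :
    sl1 (cl e01 e02 e03 e04 e12 e13 e14 e23 e24 e34) =
      cl e02 e01 e03 e04 e12 e23 e24 e13 e14 e34 := by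
  obtain ⟨f0, f1, f2, f3, f4, f5, f6, f7, f8, f9⟩ := bt_cl h01 h02 h03 h04 h12 h13 h14 h23 h24 h34
  unfold sl1
  rw [f0, f1, f2, f3, f4, f5, f6, f7, f8, f9]

theorem sl2_cl (h01 : e01 < 2) (h02 : e02 < 2) (h03 : e03 < 2) (h04 : e04 < 2) (h12 : e12 < 2)
    (h13 : e13 < 2) (h14 : e14 < 2) (h23 : e23 < 2) (h24 : e24 < 2) (h34 : e34 < 2) :
    sl2 (cl e01 e02 e03 e04 e12 e13 e14 e23 e24 e34) =
      cl e01 e03 e02 e04 e13 e12 e14 e23 e34 e24 := by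
  obtain ⟨f0, f1, f2, f3, f4, f5, f6, f7, f8, f9⟩ := bt_cl h01 h02 h03 h04 h12 h13 h14 h23 h24 h34
  unfold sl2
  rw [f0, f1, f2, f3, f4, f5, f6, f7, f8, f9]

theorem sl3_cl (h01 : e01 < 2) (h02 : e02 < 2) (h03 : e03 < 2) (h04 : e04 < 2) (h12 : e12 < 2)
    (h13 : e13 < 2) (h14 : e14 < 2) (h23 : e23 < 2) (h24 : e24 < 2) (h34 : e34 < 2) :
    sl3 (cl e01 e02 e03 e04 e12 e13 e14 e23 e24 e34) =
      cl e01 e02 e04 e03 e12 e14 e13 e24 e23 e34 := by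
  obtain ⟨f0, f1, f2, f3, f4, f5, f6, f7, f8, f9⟩ := bt_cl h01 h02 h03 h04 h12 h13 h14 h23 h24 h34
  unfold sl3
  rw [f0, f1, f2, f3, f4, f5, f6, f7, f8, f9]

end

end CRT

open CRT

/-- in the range of the codes the two functions agree -/
theorem psi'_eq {m l l' : ℕ} (hm : m < 32) (hl : l < 1024) (hl' : l' < 1024) :
    psi' m l l' = psi m l l' := if_pos ⟨hm, hl, hl'⟩

/-- the certificate properties -/
theorem goal_CRT' : Goal_DOT → Cert psi' := by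
  intro h
  constructor
  · exact sym' h
  · intro b0 b1 b2 b3 b4 e01 e02 e03 e04 e12 e13 e14 e23 e24 e34 f01 f02 f03 f04 f12 f13 f14 f23
      f24 f34 h0 h1 h2 h3 h4 g01 g02 g03 g04 g12 g13 g14 g23 g24 g34 k01 k02 k03 k04 k12 k13 k14
      k23 k24 k34
    have := inv_core h SM0 sl0_lt PP0 k0 (cm_lt h0 h1 h2 h3 h4)
      (cl_lt g01 g02 g03 g04 g12 g13 g14 g23 g24 g34) (cl_lt k01 k02 k03 k04 k12 k13 k14 k23 k24 k34)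
    rwa [sm0_cm h0 h1 h2 h3 h4, sl0_cl g01 g02 g03 g04 g12 g13 g14 g23 g24 g34,
      sl0_cl k01 k02 k03 k04 k12 k13 k14 k23 k24 k34] at this
  · intro b0 b1 b2 b3 b4 e01 e02 e03 e04 e12 e13 e14 e23 e24 e34 f01 f02 f03 f04 f12 f13 f14 f23
      f24 f34 h0 h1 h2 h3 h4 g01 g02 g03 g04 g12 g13 g14 g23 g24 g34 k01 k02 k03 k04 k12 k13 k14
      k23 k24 k34
    have := inv_core h SM1 sl1_lt PP1 k1 (cm_lt h0 h1 h2 h3 h4)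
      (cl_lt g01 g02 g03 g04 g12 g13 g14 g23 g24 g34) (cl_lt k01 k02 k03 k04 k12 k13 k14 k23 k24 k34)
    rwa [sm1_cm h0 h1 h2 h3 h4, sl1_cl g01 g02 g03 g04 g12 g13 g14 g23 g24 g34,
      sl1_cl k01 k02 k03 k04 k12 k13 k14 k23 k24 k34] at this
  · intro b0 b1 b2 b3 b4 e01 e02 e03 e04 e12 e13 e14 e23 e24 e34 f01 f02 f03 f04 f12 f13 f14 f23
      f24 f34 h0 h1 h2 h3 h4 g01 g02 g03 g04 g12 g13 g14 g23 g24 g34 k01 k02 k03 k04 k12 k13 k14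
      k23 k24 k34
    have := inv_core h SM2 sl2_lt PP2 k2 (cm_lt h0 h1 h2 h3 h4)
      (cl_lt g01 g02 g03 g04 g12 g13 g14 g23 g24 g34) (cl_lt k01 k02 k03 k04 k12 k13 k14 k23 k24 k34)
    rwa [sm2_cm h0 h1 h2 h3 h4, sl2_cl g01 g02 g03 g04 g12 g13 g14 g23 g24 g34,
      sl2_cl k01 k02 k03 k04 k12 k13 k14 k23 k24 k34] at this
  · intro b0 b1 b2 b3 b4 e01 e02 e03 e04 e12 e13 e14 e23 e24 e34 f01 f02 f03 f04 f12 f13 f14 f23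
      f24 f34 h0 h1 h2 h3 h4 g01 g02 g03 g04 g12 g13 g14 g23 g24 g34 k01 k02 k03 k04 k12 k13 k14
      k23 k24 k34
    have := inv_core h SM3 sl3_lt PP3 k3 (cm_lt h0 h1 h2 h3 h4)
      (cl_lt g01 g02 g03 g04 g12 g13 g14 g23 g24 g34) (cl_lt k01 k02 k03 k04 k12 k13 k14 k23 k24 k34)
    rwa [sm3_cm h0 h1 h2 h3 h4, sl3_cl g01 g02 g03 g04 g12 g13 g14 g23 g24 g34,
      sl3_cl k01 k02 k03 k04 k12 k13 k14 k23 k24 k34] at this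
  · intro b0 b1 b2 b3 b4 h0 h1 h2 h3 h4 V _ l hl
    exact psd' h h0 h1 h2 h3 h4 V l hl

end Pool.Agent.N465.L2
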