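import Pool.Agent.N465.L2.DOTa

/-! Kernel checks of the packed vectors, part 2 (helper93). -/

set_option autoImplicit false
set_option maxRecDepth 100000

namespace Pool.Agent.N465.L2

theorem dcm_8 : dcm 8 0 1024 = true := by decide +kernel
theorem dcm_11 : dcm 11 0 1024 = true := by decide +kernel
theorem dcm_13 : dcm 13 0 1024 = true := by decide +kernel
theorem dcm_14 : dcm 14 0 1024 = true := by decide +kernel

end Pool.Agent.N465.L2
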