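import Pool.Agent.N465.L2.DOTa

/-! Kernel checks of the packed vectors, part 3 (helper93). -/

set_option autoImplicit false
set_option maxRecDepth 100000

namespace Pool.Agent.N465.L2

theorem dcm_16 : dcm 16 0 1024 = true := by decide +kernel
theorem dcm_19 : dcm 19 0 1024 = true := by decide +kernel
theorem dcm_21 : dcm 21 0 1024 = true := by decide +kernel
theorem dcm_22 : dcm 22 0 1024 = true := by decide +kernel

end Pool.Agent.N465.L2
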