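import Pool.Agent.N465.L2.DOTb1
import Pool.Agent.N465.L2.DOTb2
import Pool.Agent.N465.L2.DOTb3
import Pool.Agent.N465.L2.DOTb4

/-! The packed product computes the weighted scalar product (helper93). -/

set_option autoImplicit false
set_option maxRecDepth 100000

open Finset

namespace Pool.Agent.N465.L2

/-! ### the digits -/

theorem dot_expand (N n : ℕ) :
    N = ∑ j ∈ range n, (N / 2 ^ (36 * j) % 68719476736) * 2 ^ (36 * j) +
      2 ^ (36 * n) * (N / 2 ^ (36 * n)) := by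
  induction n with
  | zero => simp
  | succ n ih =>
    rw [sum_range_succ]
    have h1 : N / 2 ^ (36 * (n + 1)) = N / 2 ^ (36 * n) / 68719476736 := by
      rw [Nat.div_div_eq_div_mul, show 36 * (n + 1) = 36 * n + 36 by ring, pow_add]
      norm_num
    have h2 : (2 : ℕ) ^ (36 * (n + 1)) = 2 ^ (36 * n) * 68719476736 := by
      rw [show 36 * (n + 1) = 36 * n + 36 by ring, pow_add]
      norm_num
    have h3 := Nat.mod_add_div (N / 2 ^ (36 * n)) 68719476736
    rw [h1, h2]
    calc N = ∑ j ∈ range n, (N / 2 ^ (36 * j) % 68719476736) * 2 ^ (36 * j) +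
        2 ^ (36 * n) * (N / 2 ^ (36 * n)) := ih
      _ = _ := by
        conv_lhs => rw [← h3]
        ring

theorem dot_Q24 : Q24 = ∑ j ∈ range 24, 34359738368 * 2 ^ (36 * j) := by decide +kernel

theorem dot_qq : qq = ∑ j ∈ range 23, 34359738368 * 2 ^ (36 * j) + 34359738368 * 2 ^ 828 := by
  decide +kernel

theorem dot_bnd : (∑ i ∈ range 24, ∑ k ∈ range 24,
      if i + k < 23 then dMA i * dMB (23 - k) * 2 ^ (36 * (i + k)) else 0) ≤
      ∑ j ∈ range 23, 34359738368 * 2 ^ (36 * j) ∧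
    (∑ i ∈ range 24, ∑ k ∈ range 24,
      if i + k < 23 then dMA i * dMB (23 - k) * 2 ^ (36 * (i + k)) else 0) +
      ∑ j ∈ range 23, 34359738368 * 2 ^ (36 * j) < 2 ^ 828 := by
  decide +kernel

theorem dot_bnd2 : ∑ j ∈ range 24, dMA j * dMB j < 34359738368 := by decide +kernel

theorem dg_eq (j A : ℕ) : dg j A = (A + Q24) / 2 ^ (36 * j) % 68719476736 := by
  show (A + Q24) >>> (36 * j) % 68719476736 = _
  rw [Nat.shiftRight_eq_div_pow]

theorem dot_pw (j : ℕ) : (2 : ℤ) ^ (36 * j) = 68719476736 ^ j := by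
  rw [pow_mul]
  norm_num

/-- the value of a packed vector -/
theorem dot_val {A : ℕ} (h : (A + Q24) / 2 ^ 864 = 1) :
    (A : ℤ) = ∑ j ∈ range 24, ((dg j A : ℤ) - 34359738368) * 68719476736 ^ j +
      ((2 ^ 864 : ℕ) : ℤ) := by
  have h1 := dot_expand (A + Q24) 24
  rw [show 36 * 24 = 864 by norm_num, h, mul_one] at h1
  simp only [← dg_eq] at h1
  generalize (2 : ℕ) ^ 864 = Z at *
  have h2 : (A : ℤ) + Q24 = ∑ j ∈ range 24, (dg j A : ℤ) * 2 ^ (36 * j) + Z := by
    exact_mod_cast h1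
  have h3 : (Q24 : ℤ) = ∑ j ∈ range 24, 34359738368 * 2 ^ (36 * j) := by
    exact_mod_cast dot_Q24
  have h4 : ∑ j ∈ range 24, ((dg j A : ℤ) - 34359738368) * 68719476736 ^ j =
      ∑ j ∈ range 24, (dg j A : ℤ) * 2 ^ (36 * j) - ∑ j ∈ range 24, 34359738368 * 2 ^ (36 * j) := by
    rw [← sum_sub_distrib]
    refine sum_congr rfl fun j _ => ?_
    rw [dot_pw]
    ring
  rw [h4, ← h3]
  linarith

/-! ### the product -/

theorem dot_conv (a b : ℕ → ℤ) (X : ℤ) :
    (∑ i ∈ range 24, a i * X ^ i) * (∑ k ∈ range 24, b k * X ^ k) =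
      (∑ i ∈ range 24, ∑ k ∈ range 24, if i + k < 23 then a i * b k * X ^ (i + k) else 0) +
      (∑ j ∈ range 24, a j * b (23 - j)) * X ^ 23 +
      X ^ 24 * (∑ i ∈ range 24, ∑ k ∈ range 24,
        if 23 < i + k then a i * b k * X ^ (i + k - 24) else 0) := by
  have h1 : (∑ j ∈ range 24, a j * b (23 - j)) * X ^ 23 =
      ∑ i ∈ range 24, ∑ k ∈ range 24, if k = 23 - i then a i * b k * X ^ 23 else 0 := by
    rw [sum_mul]
    refine sum_congr rfl fun i hi => ?_
    rw [sum_ite_eq', if_pos (by rw [mem_range]; omega)]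
  rw [h1, sum_mul_sum, mul_sum, ← sum_add_distrib, ← sum_add_distrib]
  refine sum_congr rfl fun i hi => ?_
  rw [mul_sum, ← sum_add_distrib, ← sum_add_distrib]
  refine sum_congr rfl fun k hk => ?_
  rw [mem_range] at hi hk
  rcases lt_trichotomy (i + k) 23 with h | h | h
  · rw [if_pos h, if_neg (by omega), if_neg (by omega), pow_add]
    ring
  · rw [if_neg (by omega), if_pos (by omega), if_neg (by omega), ← h, pow_add]
    ring
  · rw [if_neg (by omega), if_neg (by omega), if_pos h]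
    obtain ⟨r, hr⟩ : ∃ r, i + k = 24 + r := ⟨i + k - 24, by omega⟩
    rw [hr, Nat.add_sub_cancel_left]
    have : X ^ i * X ^ k = X ^ 24 * X ^ r := by rw [← pow_add, ← pow_add, hr]
    linear_combination (a i * b k) * this

/-- the bound for the lower part -/
theorem dot_low (a b : ℕ → ℤ) (ha : ∀ i < 24, |a i| ≤ dMA i) (hb : ∀ k < 24, |b k| ≤ dMB (23 - k)) :
    |∑ i ∈ range 24, ∑ k ∈ range 24, if i + k < 23 then a i * b k * 68719476736 ^ (i + k) else 0| ≤
      ((∑ i ∈ range 24, ∑ k ∈ range 24,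
        if i + k < 23 then dMA i * dMB (23 - k) * 2 ^ (36 * (i + k)) else 0 : ℕ) : ℤ) := by
  push_cast
  refine (abs_sum_le_sum_abs _ _).trans (sum_le_sum fun i hi => ?_)
  refine (abs_sum_le_sum_abs _ _).trans (sum_le_sum fun k hk => ?_)
  rw [mem_range] at hi hk
  split_ifs with h
  · rw [abs_mul, abs_mul, dot_pw,
      abs_of_nonneg (by positivity : (0 : ℤ) ≤ 68719476736 ^ (i + k))]
    have := mul_le_mul (ha i hi) (hb k hk) (abs_nonneg _) (by positivity)
    exact mul_le_mul_of_nonneg_right this (by positivity)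
  · rw [abs_zero]

theorem dot_mid (a b : ℕ → ℤ) (ha : ∀ i < 24, |a i| ≤ dMA i) (hb : ∀ k < 24, |b k| ≤ dMB (23 - k)) :
    |∑ j ∈ range 24, a j * b (23 - j)| < 34359738368 := by
  have h1 : |∑ j ∈ range 24, a j * b (23 - j)| ≤ ((∑ j ∈ range 24, dMA j * dMB j : ℕ) : ℤ) := by
    push_cast
    refine (abs_sum_le_sum_abs _ _).trans (sum_le_sum fun j hj => ?_)
    rw [mem_range] at hj
    rw [abs_mul]
    have h2 := hb (23 - j) (by omega)
    rw [show 23 - (23 - j) = j by omega] at h2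
    exact mul_le_mul (ha j hj) h2 (abs_nonneg _) (by positivity)
  have h2 : ((∑ j ∈ range 24, dMA j * dMB j : ℕ) : ℤ) < 34359738368 := by
    exact_mod_cast dot_bnd2
  linarith

theorem dot_eq (a b q k X : ℕ) :
    Nat.mod (Nat.shiftRight (Nat.add (Nat.mul a b) q) k) X = (a * b + q) / 2 ^ k % X := by
  show (a * b + q) >>> k % X = _
  rw [Nat.shiftRight_eq_div_pow]

theorem dot_864 : (2 : ℕ) ^ 864 = 68719476736 * 2 ^ 828 := by decide +kernel

theorem dot_828 : (2 : ℕ) ^ 828 = 68719476736 ^ 23 := by decide +kernel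

theorem dot_main {A B : ℕ} (a b : ℕ → ℤ) (ha : ∀ i < 24, |a i| ≤ dMA i)
    (hb : ∀ k < 24, |b k| ≤ dMB (23 - k))
    (hA : (A : ℤ) = ∑ j ∈ range 24, a j * 68719476736 ^ j + ((2 ^ 864 : ℕ) : ℤ))
    (hB : (B : ℤ) = ∑ j ∈ range 24, b j * 68719476736 ^ j + ((2 ^ 864 : ℕ) : ℤ)) :
    (dot A B : ℤ) = 34359738368 + ∑ j ∈ range 24, a j * b (23 - j) := by
  have hd : dot A B = (A * B + qq) / 2 ^ 828 % 68719476736 := dot_eq A B qq 828 68719476736
  have hlow := dot_low a b ha hb
  have hmid := dot_mid a b ha hb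
  have hbnd := dot_bnd
  have hqq := dot_qq
  generalize (∑ i ∈ range 24, ∑ k ∈ range 24,
      if i + k < 23 then dMA i * dMB (23 - k) * 2 ^ (36 * (i + k)) else 0 : ℕ) = LL at hlow hbnd
  generalize (∑ j ∈ range 23, 34359738368 * 2 ^ (36 * j) : ℕ) = S at hbnd hqq
  have hconv := dot_conv a b 68719476736
  obtain ⟨L, hL⟩ : ∃ L : ℤ, L = ∑ i ∈ range 24, ∑ k ∈ range 24,
    if i + k < 23 then a i * b k * 68719476736 ^ (i + k) else 0 := ⟨_, rfl⟩
  obtain ⟨M, hM⟩ : ∃ M : ℤ, M = ∑ j ∈ range 24, a j * b (23 - j) := ⟨_, rfl⟩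
  obtain ⟨R, hR⟩ : ∃ R : ℤ, R = ∑ i ∈ range 24, ∑ k ∈ range 24,
    if 23 < i + k then a i * b k * 68719476736 ^ (i + k - 24) else 0 := ⟨_, rfl⟩
  obtain ⟨SA, hSA⟩ : ∃ SA : ℤ, SA = ∑ j ∈ range 24, a j * 68719476736 ^ j := ⟨_, rfl⟩
  obtain ⟨SB, hSB⟩ : ∃ SB : ℤ, SB = ∑ j ∈ range 24, b j * 68719476736 ^ j := ⟨_, rfl⟩
  rw [← hL] at hlow
  rw [← hM] at hmid ⊢
  rw [← hL, ← hM, ← hR, ← hSA, ← hSB] at hconv
  rw [← hSA] at hA
  rw [← hSB] at hB
  rw [dot_864] at hA hB
  have h2 : (68719476736 : ℤ) ^ 23 = ((2 ^ 828 : ℕ) : ℤ) := by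
    rw [dot_828, Nat.cast_pow]
    rfl
  rw [show (24 : ℕ) = 23 + 1 from rfl, pow_succ (68719476736 : ℤ) 23, h2] at hconv
  rw [hd]
  clear h2 hd hL hM hR hSA hSB ha hb
  have hY : 0 < (2 : ℕ) ^ 828 := Nat.pow_pos (by norm_num)
  generalize (2 : ℕ) ^ 828 = Y at *
  have hY' : (0 : ℤ) < Y := by exact_mod_cast hY
  push_cast at hA hB ⊢
  have e1 : (A : ℤ) * B + qq = (L + S) + Y * ((M + 34359738368) + 68719476736 *
      (R + SA + SB + 68719476736 * Y)) := by
    rw [hA, hB]
    have h1 : (qq : ℤ) = S + 34359738368 * Y := by exact_mod_cast hqq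
    rw [h1]
    linear_combination hconv
  have h5 : 0 ≤ L + S := by
    have := neg_abs_le L
    have h6 : (LL : ℤ) ≤ S := by exact_mod_cast hbnd.1
    linarith
  have h6 : L + S < Y := by
    have := le_abs_self L
    have h6 : (LL : ℤ) + S < Y := by exact_mod_cast hbnd.2
    linarith
  rw [e1, Int.add_mul_ediv_left _ _ hY'.ne', Int.ediv_eq_zero_of_lt h5 h6, zero_add,
    Int.add_mul_emod_self_left]
  rw [abs_lt] at hmid
  rw [Int.emod_eq_of_lt (by linarith) (by linarith)]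
  ring

/-! ### from the checks -/

/-- the properties of the packed vectors of a code -/
structure DVc (m A B : ℕ) : Prop where
  ha : (A + Q24) / 2 ^ 864 = 1
  hb : (B + Q24) / 2 ^ 864 = 1
  bdA : ∀ j < 24, |(dg j A : ℤ) - 34359738368| ≤ dMA j
  bdB : ∀ j < 24, |(dg (23 - j) B : ℤ) - 34359738368| ≤ dMB j
  rel : ∀ j < 24, (dg (23 - j) B : ℤ) - 34359738368 = wt m j * ((dg j A : ℤ) - 34359738368)

theorem wt_dwo : ∀ m < 32, ∀ j < 24, (oneM m = 1 ∨ oneM m = 3 ∨ oneM m = 5) →
    wt m j = dwo (oneM m) j := by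
  decide +kernel

theorem dck_spec {m A B j : ℕ} (hw : wt m j = dwo (oneM m) j)
    (h : dck (oneM m) (Nat.add A Q24) (Nat.add B Q24) j = true) :
    |(dg j A : ℤ) - 34359738368| ≤ dMA j ∧ |(dg (23 - j) B : ℤ) - 34359738368| ≤ dMB j ∧
    (dg (23 - j) B : ℤ) - 34359738368 = wt m j * ((dg j A : ℤ) - 34359738368) := by
  unfold dck at h
  simp only [st_eq] at h
  change cnd (Nat.ble 34359738368 (Nat.add (dg j A) (dMA j)))
    (cnd (Nat.ble (dg j A) (Nat.add 34359738368 (dMA j)))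
    (cnd (Nat.ble 34359738368 (Nat.add (dg (23 - j) B) (dMB j)))
    (cnd (Nat.ble (dg (23 - j) B) (Nat.add 34359738368 (dMB j)))
      (Nat.beq (Nat.add (dg (23 - j) B) (Nat.mul (dwo (oneM m) j) 34359738368))
        (Nat.add (Nat.mul (dwo (oneM m) j) (dg j A)) 34359738368))
      false) false) false) false = true at h
  obtain ⟨h1, h⟩ := cnd_false h
  obtain ⟨h2, h⟩ := cnd_false h
  obtain ⟨h3, h⟩ := cnd_false h
  obtain ⟨h4, h5⟩ := cnd_false h
  have h1' : 34359738368 ≤ dg j A + dMA j := Nat.le_of_ble_eq_true h1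
  have h2' : dg j A ≤ 34359738368 + dMA j := Nat.le_of_ble_eq_true h2
  have h3' : 34359738368 ≤ dg (23 - j) B + dMB j := Nat.le_of_ble_eq_true h3
  have h4' : dg (23 - j) B ≤ 34359738368 + dMB j := Nat.le_of_ble_eq_true h4
  have h5' : dg (23 - j) B + dwo (oneM m) j * 34359738368 =
      dwo (oneM m) j * dg j A + 34359738368 := Nat.eq_of_beq_eq_true h5
  rw [← hw] at h5'
  refine ⟨?_, ?_, ?_⟩
  · rw [abs_le]
    constructor
    · have : (34359738368 : ℤ) ≤ dg j A + dMA j := by exact_mod_cast h1'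
      linarith
    · have : (dg j A : ℤ) ≤ 34359738368 + dMA j := by exact_mod_cast h2'
      linarith
  · rw [abs_le]
    constructor
    · have : (34359738368 : ℤ) ≤ dg (23 - j) B + dMB j := by exact_mod_cast h3'
      linarith
    · have : (dg (23 - j) B : ℤ) ≤ 34359738368 + dMB j := by exact_mod_cast h4'
      linarith
  · have : (dg (23 - j) B : ℤ) + wt m j * 34359738368 = wt m j * dg j A + 34359738368 := by
      exact_mod_cast h5'
    linarith

theorem dcl_spec {m l : ℕ} (hw : ∀ j < 24, wt m j = dwo (oneM m) j)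
    (h : dcl (oneM m) m l = true) : DVc m (lkA (m + 32 * l)) (lkB (m + 32 * l)) := by
  unfold dcl at h
  simp only [st_eq] at h
  obtain ⟨h1, h⟩ := cnd_false h
  obtain ⟨h2, h⟩ := cnd_false h
  have h3 := al_true h
  have h1' := Nat.eq_of_beq_eq_true h1
  have h2' := Nat.eq_of_beq_eq_true h2
  change (lkA (m + 32 * l) + Q24) >>> 864 = 1 at h1'
  change (lkB (m + 32 * l) + Q24) >>> 864 = 1 at h2'
  rw [Nat.shiftRight_eq_div_pow] at h1' h2'
  have h4 : ∀ j < 24, _ := fun j hj => dck_spec (hw j hj) (h3 j hj)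
  exact ⟨h1', h2', fun j hj => (h4 j hj).1, fun j hj => (h4 j hj).2.1, fun j hj => (h4 j hj).2.2⟩

theorem dcm_spec {m : ℕ} (hw : ∀ j < 24, wt m j = dwo (oneM m) j)
    (h : dcm m 0 1024 = true) : ∀ l < 1024, DVc m (lkA (m + 32 * l)) (lkB (m + 32 * l)) := by
  intro l hl
  unfold dcm at h
  rw [st_eq] at h
  have h1 := al_true h l hl
  rw [show Nat.add 0 l = l from Nat.zero_add l] at h1
  exact dcl_spec hw h1

theorem dot_const : ∀ j < 24, dg j (2 ^ 864) = 34359738368 := by decide +kernel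

theorem dot_c1 : (2 ^ 864 + Q24) / 2 ^ 864 = 1 := by decide +kernel

theorem dvc_const (m : ℕ) : DVc m (2 ^ 864) (2 ^ 864) where
  ha := dot_c1
  hb := dot_c1
  bdA j hj := by
    rw [dot_const j hj]
    simp
  bdB j hj := by
    rw [dot_const (23 - j) (by omega)]
    simp
  rel j hj := by
    rw [dot_const j hj, dot_const (23 - j) (by omega)]
    simp

theorem dot_lit : 123003155723136208567847447683223664415731869180715065944930703618254955521953492303010368693540149343822709050322214299552689203876695953600699775494388206142090885899729347827083318884583758435450548517566916626912548274908112766882031433928533568160966639616 = 2 ^ 864 := by decide +kernel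

theorem lk_even {m : ℕ} (hm : m < 32) (h : Nat.beq (bt m om) 1 = false) (l : ℕ) :
    lkA (m + 32 * l) = 2 ^ 864 ∧ lkB (m + 32 * l) = 2 ^ 864 := by
  have h1 : Nat.mod (m + 32 * l) 32 = m := by
    show (m + 32 * l) % 32 = m
    omega
  unfold lkA lkB
  simp only [st_eq]
  rw [h1, h]
  exact ⟨dot_lit, dot_lit⟩

theorem dvc_even {m : ℕ} (hm : m < 32) (h : Nat.beq (bt m om) 1 = false) (l : ℕ) :
    DVc m (lkA (m + 32 * l)) (lkB (m + 32 * l)) := by
  rw [(lk_even hm h l).1, (lk_even hm h l).2]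
  exact dvc_const m

theorem dvc_all : ∀ m < 32, ∀ l < 1024, DVc m (lkA (m + 32 * l)) (lkB (m + 32 * l)) := by
  intro m hm l hl
  have key : Nat.beq (bt m om) 1 = false ∨ ((oneM m = 1 ∨ oneM m = 3 ∨ oneM m = 5) ∧
      dcm m 0 1024 = true) := by
    interval_cases m
    · exact Or.inl (by decide +kernel)
    · exact Or.inr ⟨by decide +kernel, dcm_1⟩
    · exact Or.inr ⟨by decide +kernel, dcm_2⟩
    · exact Or.inl (by decide +kernel)
    · exact Or.inr ⟨by decide +kernel, dcm_4⟩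
    · exact Or.inl (by decide +kernel)
    · exact Or.inl (by decide +kernel)
    · exact Or.inr ⟨by decide +kernel, dcm_7⟩
    · exact Or.inr ⟨by decide +kernel, dcm_8⟩
    · exact Or.inl (by decide +kernel)
    · exact Or.inl (by decide +kernel)
    · exact Or.inr ⟨by decide +kernel, dcm_11⟩
    · exact Or.inl (by decide +kernel)
    · exact Or.inr ⟨by decide +kernel, dcm_13⟩
    · exact Or.inr ⟨by decide +kernel, dcm_14⟩
    · exact Or.inl (by decide +kernel)
    · exact Or.inr ⟨by decide +kernel, dcm_16⟩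
    · exact Or.inl (by decide +kernel)
    · exact Or.inl (by decide +kernel)
    · exact Or.inr ⟨by decide +kernel, dcm_19⟩
    · exact Or.inl (by decide +kernel)
    · exact Or.inr ⟨by decide +kernel, dcm_21⟩
    · exact Or.inr ⟨by decide +kernel, dcm_22⟩
    · exact Or.inl (by decide +kernel)
    · exact Or.inl (by decide +kernel)
    · exact Or.inr ⟨by decide +kernel, dcm_25⟩
    · exact Or.inr ⟨by decide +kernel, dcm_26⟩
    · exact Or.inl (by decide +kernel)
    · exact Or.inr ⟨by decide +kernel, dcm_28⟩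
    · exact Or.inl (by decide +kernel)
    · exact Or.inl (by decide +kernel)
    · exact Or.inr ⟨by decide +kernel, dcm_31⟩
  rcases key with h | ⟨ho, h⟩
  · exact dvc_even hm h l
  · exact dcm_spec (fun j hj => wt_dwo m hm j hj ho) h l hl

/-- **DOT** -/
theorem goal_DOT : Goal_DOT := by
  intro m hm l hl l' hl'
  have h1 := dvc_all m hm l hl
  have h2 := dvc_all m hm l' hl'
  have h3 := dot_main (A := lkA (m + 32 * l)) (B := lkB (m + 32 * l'))
    (fun j => (dg j (lkA (m + 32 * l)) : ℤ) - 34359738368)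
    (fun k => (dg k (lkB (m + 32 * l')) : ℤ) - 34359738368) h1.bdA
    (fun k hk => by
      have := h2.bdB (23 - k) (by omega)
      rwa [show 23 - (23 - k) = k by omega] at this)
    (dot_val h1.ha) (dot_val h2.hb)
  unfold dt
  rw [h3]
  refine congrArg₂ (· + ·) rfl (sum_congr rfl fun j hj => ?_)
  rw [mem_range] at hj
  show ((dg j (lkA (m + 32 * l)) : ℤ) - 34359738368) *
    ((dg (23 - j) (lkB (m + 32 * l')) : ℤ) - 34359738368) = _
  rw [h2.rel j hj]
  unfold av
  ring

end Pool.Agent.N465.L2
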