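import Pool.Agent.N465.L2.Stm

/-!
L2/INV (helper530): invariance of the sum over the 21 pairs under the permutations of the vertices.
-/

set_option autoImplicit false

namespace Pool.Agent.N465.L2

namespace INVaux

variable {V : Type} {E : V → V → V → V → ℕ} {ψ : ℕ → ℕ → ℕ → ℤ}

theorem hb (hE : Sy4 E) (a b c d : V) : E a b c d < 2 := by
  rcases hE.b a b c d with h | h <;> omega

theorem sy (hC : Cert ψ) (a b c d e y z : V) : Psi E ψ a b c d e z y = Psi E ψ a b c d e y z :=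
  hC.sym _ _ _

theorem sw0 (hC : Cert ψ) (hE : Sy4 E) (a b c d e y z : V) :
    Psi E ψ b a c d e y z = Psi E ψ a b c d e y z := by
  unfold Psi mC lC
  rw [hE.s0 a b d e, hE.s0 a b c e, hE.s0 a b c d, hE.s0 a b e y, hE.s0 a b d y, hE.s0 a b c y,
    hE.s0 a b e z, hE.s0 a b d z, hE.s0 a b c z]
  apply hC.inv0 <;> exact hb hE _ _ _ _

theorem sw1 (hC : Cert ψ) (hE : Sy4 E) (a b c d e y z : V) :
    Psi E ψ a c b d e y z = Psi E ψ a b c d e y z := by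
  unfold Psi mC lC
  rw [hE.s0 b c d e, hE.s1 a b c e, hE.s1 a b c d, hE.s0 b c e y, hE.s0 b c d y, hE.s1 a b c y,
    hE.s0 b c e z, hE.s0 b c d z, hE.s1 a b c z]
  apply hC.inv1 <;> exact hb hE _ _ _ _

theorem sw2 (hC : Cert ψ) (hE : Sy4 E) (a b c d e y z : V) :
    Psi E ψ a b d c e y z = Psi E ψ a b c d e y z := by
  unfold Psi mC lC
  rw [hE.s1 b c d e, hE.s1 a c d e, hE.s2 a b c d, hE.s0 c d e y, hE.s1 b c d y, hE.s1 a c d y,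
    hE.s0 c d e z, hE.s1 b c d z, hE.s1 a c d z]
  apply hC.inv2 <;> exact hb hE _ _ _ _

theorem sw3 (hC : Cert ψ) (hE : Sy4 E) (a b c d e y z : V) :
    Psi E ψ a b c e d y z = Psi E ψ a b c d e y z := by
  unfold Psi mC lC
  rw [hE.s2 b c d e, hE.s2 a c d e, hE.s2 a b d e, hE.s1 c d e y, hE.s1 b d e y, hE.s1 a d e y,
    hE.s1 c d e z, hE.s1 b d e z, hE.s1 a d e z]
  apply hC.inv3 <;> exact hb hE _ _ _ _

section
variable (hC : Cert ψ) (hE : Sy4 E) (x0 x1 x2 x3 x4 x5 x6 : V)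
include hC hE

theorem L7_0 : L7 E ψ x1 x0 x2 x3 x4 x5 x6 = L7 E ψ x0 x1 x2 x3 x4 x5 x6 := by
  unfold L7
  simp only [sw0 hC hE x0 x1, sy hC x2 x3 x4 x5 x6 x0 x1]
  ring

theorem L7_1 : L7 E ψ x0 x2 x1 x3 x4 x5 x6 = L7 E ψ x0 x1 x2 x3 x4 x5 x6 := by
  unfold L7
  simp only [sw0 hC hE x1 x2, sw1 hC hE x0 x1 x2, sy hC x0 x3 x4 x5 x6 x1 x2]
  ring

theorem L7_2 : L7 E ψ x0 x1 x3 x2 x4 x5 x6 = L7 E ψ x0 x1 x2 x3 x4 x5 x6 := by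
  unfold L7
  simp only [sw0 hC hE x2 x3, sw1 hC hE x0 x2 x3, sw1 hC hE x1 x2 x3, sw2 hC hE x0 x1 x2 x3,
    sy hC x0 x1 x4 x5 x6 x2 x3]
  ring

theorem L7_3 : L7 E ψ x0 x1 x2 x4 x3 x5 x6 = L7 E ψ x0 x1 x2 x3 x4 x5 x6 := by
  unfold L7
  simp only [sw1 hC hE x2 x3 x4, sw1 hC hE x1 x3 x4, sw1 hC hE x0 x3 x4,
    sw2 hC hE x0 x1 x3 x4, sw2 hC hE x0 x2 x3 x4, sw2 hC hE x1 x2 x3 x4, sw3 hC hE x0 x1 x2 x3 x4,
    sy hC x0 x1 x2 x5 x6 x3 x4]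
  ring

theorem L7_4 : L7 E ψ x0 x1 x2 x3 x5 x4 x6 = L7 E ψ x0 x1 x2 x3 x4 x5 x6 := by
  unfold L7
  simp only [sw2 hC hE x2 x3 x4 x5, sw2 hC hE x1 x3 x4 x5, sw2 hC hE x1 x2 x4 x5,
    sw2 hC hE x0 x3 x4 x5, sw2 hC hE x0 x2 x4 x5, sw2 hC hE x0 x1 x4 x5,
    sw3 hC hE x1 x2 x3 x4 x5, sw3 hC hE x0 x2 x3 x4 x5, sw3 hC hE x0 x1 x3 x4 x5,
    sw3 hC hE x0 x1 x2 x4 x5, sy hC x0 x1 x2 x3 x6 x4 x5]
  ring

theorem L7_5 : L7 E ψ x0 x1 x2 x3 x4 x6 x5 = L7 E ψ x0 x1 x2 x3 x4 x5 x6 := by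
  unfold L7
  simp only [sw3 hC hE x2 x3 x4 x5 x6, sw3 hC hE x1 x3 x4 x5 x6, sw3 hC hE x1 x2 x4 x5 x6,
    sw3 hC hE x1 x2 x3 x5 x6, sw3 hC hE x0 x3 x4 x5 x6, sw3 hC hE x0 x2 x4 x5 x6,
    sw3 hC hE x0 x2 x3 x5 x6, sw3 hC hE x0 x1 x4 x5 x6, sw3 hC hE x0 x1 x3 x5 x6,
    sw3 hC hE x0 x1 x2 x5 x6, sy hC x0 x1 x2 x3 x4 x5 x6]
  ring

end

end INVaux

open INVaux in
theorem goal_INV : Goal_INV := by
  intro ψ hC V E hE x σ
  have key : ∀ σ : Equiv.Perm (Fin 7), ∀ x : Fin 7 → V,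
      L7f E ψ (fun i => x (σ i)) = L7f E ψ x := by
    intro σ
    have hσ : σ ∈ Submonoid.closure (Set.range fun i : Fin 6 =>
        Equiv.swap i.castSucc i.succ) := by
      rw [Equiv.Perm.mclosure_swap_castSucc_succ]
      trivial
    induction hσ using Submonoid.closure_induction with
    | mem τ hτ =>
      obtain ⟨i, rfl⟩ := hτ
      intro x
      fin_cases i
      · exact L7_0 hC hE (x 0) (x 1) (x 2) (x 3) (x 4) (x 5) (x 6)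
      · exact L7_1 hC hE (x 0) (x 1) (x 2) (x 3) (x 4) (x 5) (x 6)
      · exact L7_2 hC hE (x 0) (x 1) (x 2) (x 3) (x 4) (x 5) (x 6)
      · exact L7_3 hC hE (x 0) (x 1) (x 2) (x 3) (x 4) (x 5) (x 6)
      · exact L7_4 hC hE (x 0) (x 1) (x 2) (x 3) (x 4) (x 5) (x 6)
      · exact L7_5 hC hE (x 0) (x 1) (x 2) (x 3) (x 4) (x 5) (x 6)
    | one => intro x; rfl
    | mul τ τ' _ _ h h' =>
      intro x
      have e : (fun i => x ((τ * τ') i)) = fun i => (fun j => x (τ j)) (τ' i) := rfl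
      rw [e, h' (fun j => x (τ j)), h x]
  exact key σ x

end Pool.Agent.N465.L2
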