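import Pool.Agent.N465.L2.Leaf1

/-! The seven-vertex inequality from the checks. -/

set_option autoImplicit false
set_option maxRecDepth 100000

open Finset

namespace Pool.Agent.N465.L2

variable {V : Type} {E : V → V → V → V → ℕ}

theorem srt1 (hS : Sy4 E) (a b c d : V) : E a b d c = E a b c d := hS.s2 a b c d
theorem srt2 (hS : Sy4 E) (a b c d : V) : E a c d b = E a b c d := by rw [hS.s2 a c b d, hS.s1 a b c d]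
theorem srt3 (hS : Sy4 E) (a b c d : V) : E b c d a = E a b c d := by
  rw [hS.s2 b c a d, hS.s1 b a c d, hS.s0 a b c d]

theorem Psi_01 (ψ : ℕ → ℕ → ℕ → ℤ) (hS : Sy4 E) (x0 x1 x2 x3 x4 x5 x6 : V) :
    Psi E ψ x2 x3 x4 x5 x6 x0 x1 = ψ (cm (E x3 x4 x5 x6) (E x2 x4 x5 x6) (E x2 x3 x5 x6) (E x2 x3 x4 x6) (E x2 x3 x4 x5)) (cl (E x0 x4 x5 x6) (E x0 x3 x5 x6) (E x0 x3 x4 x6) (E x0 x3 x4 x5) (E x0 x2 x5 x6) (E x0 x2 x4 x6) (E x0 x2 x4 x5) (E x0 x2 x3 x6) (E x0 x2 x3 x5) (E x0 x2 x3 x4)) (cl (E x1 x4 x5 x6) (E x1 x3 x5 x6) (E x1 x3 x4 x6) (E x1 x3 x4 x5) (E x1 x2 x5 x6) (E x1 x2 x4 x6) (E x1 x2 x4 x5) (E x1 x2 x3 x6) (E x1 x2 x3 x5) (E x1 x2 x3 x4)) := by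
  unfold Psi mC lC
  rw [srt3 hS x0 x2 x3 x4, srt3 hS x0 x2 x3 x5, srt3 hS x0 x2 x3 x6, srt3 hS x0 x2 x4 x5, srt3 hS x0 x2 x4 x6, srt3 hS x0 x2 x5 x6, srt3 hS x0 x3 x4 x5, srt3 hS x0 x3 x4 x6, srt3 hS x0 x3 x5 x6, srt3 hS x0 x4 x5 x6, srt3 hS x1 x2 x3 x4, srt3 hS x1 x2 x3 x5, srt3 hS x1 x2 x3 x6, srt3 hS x1 x2 x4 x5, srt3 hS x1 x2 x4 x6, srt3 hS x1 x2 x5 x6, srt3 hS x1 x3 x4 x5, srt3 hS x1 x3 x4 x6, srt3 hS x1 x3 x5 x6, srt3 hS x1 x4 x5 x6]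

theorem Psi_02 (ψ : ℕ → ℕ → ℕ → ℤ) (hS : Sy4 E) (x0 x1 x2 x3 x4 x5 x6 : V) :
    Psi E ψ x1 x3 x4 x5 x6 x0 x2 = ψ (cm (E x3 x4 x5 x6) (E x1 x4 x5 x6) (E x1 x3 x5 x6) (E x1 x3 x4 x6) (E x1 x3 x4 x5)) (cl (E x0 x4 x5 x6) (E x0 x3 x5 x6) (E x0 x3 x4 x6) (E x0 x3 x4 x5) (E x0 x1 x5 x6) (E x0 x1 x4 x6) (E x0 x1 x4 x5) (E x0 x1 x3 x6) (E x0 x1 x3 x5) (E x0 x1 x3 x4)) (cl (E x2 x4 x5 x6) (E x2 x3 x5 x6) (E x2 x3 x4 x6) (E x2 x3 x4 x5) (E x1 x2 x5 x6) (E x1 x2 x4 x6) (E x1 x2 x4 x5) (E x1 x2 x3 x6) (E x1 x2 x3 x5) (E x1 x2 x3 x4)) := by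
  unfold Psi mC lC
  rw [srt3 hS x0 x1 x3 x4, srt3 hS x0 x1 x3 x5, srt3 hS x0 x1 x3 x6, srt3 hS x0 x1 x4 x5, srt3 hS x0 x1 x4 x6, srt3 hS x0 x1 x5 x6, srt3 hS x0 x3 x4 x5, srt3 hS x0 x3 x4 x6, srt3 hS x0 x3 x5 x6, srt3 hS x0 x4 x5 x6, srt2 hS x1 x2 x3 x4, srt2 hS x1 x2 x3 x5, srt2 hS x1 x2 x3 x6, srt2 hS x1 x2 x4 x5, srt2 hS x1 x2 x4 x6, srt2 hS x1 x2 x5 x6, srt3 hS x2 x3 x4 x5, srt3 hS x2 x3 x4 x6, srt3 hS x2 x3 x5 x6, srt3 hS x2 x4 x5 x6]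

theorem Psi_03 (ψ : ℕ → ℕ → ℕ → ℤ) (hS : Sy4 E) (x0 x1 x2 x3 x4 x5 x6 : V) :
    Psi E ψ x1 x2 x4 x5 x6 x0 x3 = ψ (cm (E x2 x4 x5 x6) (E x1 x4 x5 x6) (E x1 x2 x5 x6) (E x1 x2 x4 x6) (E x1 x2 x4 x5)) (cl (E x0 x4 x5 x6) (E x0 x2 x5 x6) (E x0 x2 x4 x6) (E x0 x2 x4 x5) (E x0 x1 x5 x6) (E x0 x1 x4 x6) (E x0 x1 x4 x5) (E x0 x1 x2 x6) (E x0 x1 x2 x5) (E x0 x1 x2 x4)) (cl (E x3 x4 x5 x6) (E x2 x3 x5 x6) (E x2 x3 x4 x6) (E x2 x3 x4 x5) (E x1 x3 x5 x6) (E x1 x3 x4 x6) (E x1 x3 x4 x5) (E x1 x2 x3 x6) (E x1 x2 x3 x5) (E x1 x2 x3 x4)) := by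
  unfold Psi mC lC
  rw [srt3 hS x0 x1 x2 x4, srt3 hS x0 x1 x2 x5, srt3 hS x0 x1 x2 x6, srt3 hS x0 x1 x4 x5, srt3 hS x0 x1 x4 x6, srt3 hS x0 x1 x5 x6, srt3 hS x0 x2 x4 x5, srt3 hS x0 x2 x4 x6, srt3 hS x0 x2 x5 x6, srt3 hS x0 x4 x5 x6, srt1 hS x1 x2 x3 x4, srt1 hS x1 x2 x3 x5, srt1 hS x1 x2 x3 x6, srt2 hS x1 x3 x4 x5, srt2 hS x1 x3 x4 x6, srt2 hS x1 x3 x5 x6, srt2 hS x2 x3 x4 x5, srt2 hS x2 x3 x4 x6, srt2 hS x2 x3 x5 x6, srt3 hS x3 x4 x5 x6]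

theorem Psi_04 (ψ : ℕ → ℕ → ℕ → ℤ) (hS : Sy4 E) (x0 x1 x2 x3 x4 x5 x6 : V) :
    Psi E ψ x1 x2 x3 x5 x6 x0 x4 = ψ (cm (E x2 x3 x5 x6) (E x1 x3 x5 x6) (E x1 x2 x5 x6) (E x1 x2 x3 x6) (E x1 x2 x3 x5)) (cl (E x0 x3 x5 x6) (E x0 x2 x5 x6) (E x0 x2 x3 x6) (E x0 x2 x3 x5) (E x0 x1 x5 x6) (E x0 x1 x3 x6) (E x0 x1 x3 x5) (E x0 x1 x2 x6) (E x0 x1 x2 x5) (E x0 x1 x2 x3)) (cl (E x3 x4 x5 x6) (E x2 x4 x5 x6) (E x2 x3 x4 x6) (E x2 x3 x4 x5) (E x1 x4 x5 x6) (E x1 x3 x4 x6) (E x1 x3 x4 x5) (E x1 x2 x4 x6) (E x1 x2 x4 x5) (E x1 x2 x3 x4)) := by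
  unfold Psi mC lC
  rw [srt3 hS x0 x1 x2 x3, srt3 hS x0 x1 x2 x5, srt3 hS x0 x1 x2 x6, srt3 hS x0 x1 x3 x5, srt3 hS x0 x1 x3 x6, srt3 hS x0 x1 x5 x6, srt3 hS x0 x2 x3 x5, srt3 hS x0 x2 x3 x6, srt3 hS x0 x2 x5 x6, srt3 hS x0 x3 x5 x6, srt1 hS x1 x2 x4 x5, srt1 hS x1 x2 x4 x6, srt1 hS x1 x3 x4 x5, srt1 hS x1 x3 x4 x6, srt2 hS x1 x4 x5 x6, srt1 hS x2 x3 x4 x5, srt1 hS x2 x3 x4 x6, srt2 hS x2 x4 x5 x6, srt2 hS x3 x4 x5 x6]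

theorem Psi_05 (ψ : ℕ → ℕ → ℕ → ℤ) (hS : Sy4 E) (x0 x1 x2 x3 x4 x5 x6 : V) :
    Psi E ψ x1 x2 x3 x4 x6 x0 x5 = ψ (cm (E x2 x3 x4 x6) (E x1 x3 x4 x6) (E x1 x2 x4 x6) (E x1 x2 x3 x6) (E x1 x2 x3 x4)) (cl (E x0 x3 x4 x6) (E x0 x2 x4 x6) (E x0 x2 x3 x6) (E x0 x2 x3 x4) (E x0 x1 x4 x6) (E x0 x1 x3 x6) (E x0 x1 x3 x4) (E x0 x1 x2 x6) (E x0 x1 x2 x4) (E x0 x1 x2 x3)) (cl (E x3 x4 x5 x6) (E x2 x4 x5 x6) (E x2 x3 x5 x6) (E x2 x3 x4 x5) (E x1 x4 x5 x6) (E x1 x3 x5 x6) (E x1 x3 x4 x5) (E x1 x2 x5 x6) (E x1 x2 x4 x5) (E x1 x2 x3 x5)) := by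
  unfold Psi mC lC
  rw [srt3 hS x0 x1 x2 x3, srt3 hS x0 x1 x2 x4, srt3 hS x0 x1 x2 x6, srt3 hS x0 x1 x3 x4, srt3 hS x0 x1 x3 x6, srt3 hS x0 x1 x4 x6, srt3 hS x0 x2 x3 x4, srt3 hS x0 x2 x3 x6, srt3 hS x0 x2 x4 x6, srt3 hS x0 x3 x4 x6, srt1 hS x1 x2 x5 x6, srt1 hS x1 x3 x5 x6, srt1 hS x1 x4 x5 x6, srt1 hS x2 x3 x5 x6, srt1 hS x2 x4 x5 x6, srt1 hS x3 x4 x5 x6]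

theorem Psi_06 (ψ : ℕ → ℕ → ℕ → ℤ) (hS : Sy4 E) (x0 x1 x2 x3 x4 x5 x6 : V) :
    Psi E ψ x1 x2 x3 x4 x5 x0 x6 = ψ (cm (E x2 x3 x4 x5) (E x1 x3 x4 x5) (E x1 x2 x4 x5) (E x1 x2 x3 x5) (E x1 x2 x3 x4)) (cl (E x0 x3 x4 x5) (E x0 x2 x4 x5) (E x0 x2 x3 x5) (E x0 x2 x3 x4) (E x0 x1 x4 x5) (E x0 x1 x3 x5) (E x0 x1 x3 x4) (E x0 x1 x2 x5) (E x0 x1 x2 x4) (E x0 x1 x2 x3)) (cl (E x3 x4 x5 x6) (E x2 x4 x5 x6) (E x2 x3 x5 x6) (E x2 x3 x4 x6) (E x1 x4 x5 x6) (E x1 x3 x5 x6) (E x1 x3 x4 x6) (E x1 x2 x5 x6) (E x1 x2 x4 x6) (E x1 x2 x3 x6)) := by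
  unfold Psi mC lC
  rw [srt3 hS x0 x1 x2 x3, srt3 hS x0 x1 x2 x4, srt3 hS x0 x1 x2 x5, srt3 hS x0 x1 x3 x4, srt3 hS x0 x1 x3 x5, srt3 hS x0 x1 x4 x5, srt3 hS x0 x2 x3 x4, srt3 hS x0 x2 x3 x5, srt3 hS x0 x2 x4 x5, srt3 hS x0 x3 x4 x5]

theorem Psi_12 (ψ : ℕ → ℕ → ℕ → ℤ) (hS : Sy4 E) (x0 x1 x2 x3 x4 x5 x6 : V) :
    Psi E ψ x0 x3 x4 x5 x6 x1 x2 = ψ (cm (E x3 x4 x5 x6) (E x0 x4 x5 x6) (E x0 x3 x5 x6) (E x0 x3 x4 x6) (E x0 x3 x4 x5)) (cl (E x1 x4 x5 x6) (E x1 x3 x5 x6) (E x1 x3 x4 x6) (E x1 x3 x4 x5) (E x0 x1 x5 x6) (E x0 x1 x4 x6) (E x0 x1 x4 x5) (E x0 x1 x3 x6) (E x0 x1 x3 x5) (E x0 x1 x3 x4)) (cl (E x2 x4 x5 x6) (E x2 x3 x5 x6) (E x2 x3 x4 x6) (E x2 x3 x4 x5) (E x0 x2 x5 x6) (E x0 x2 x4 x6) (E x0 x2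 x4 x5) (E x0 x2 x3 x6) (E x0 x2 x3 x5) (E x0 x2 x3 x4)) := by
  unfold Psi mC lC
  rw [srt2 hS x0 x1 x3 x4, srt2 hS x0 x1 x3 x5, srt2 hS x0 x1 x3 x6, srt2 hS x0 x1 x4 x5, srt2 hS x0 x1 x4 x6, srt2 hS x0 x1 x5 x6, srt3 hS x1 x3 x4 x5, srt3 hS x1 x3 x4 x6, srt3 hS x1 x3 x5 x6, srt3 hS x1 x4 x5 x6, srt2 hS x0 x2 x3 x4, srt2 hS x0 x2 x3 x5, srt2 hS x0 x2 x3 x6, srt2 hS x0 x2 x4 x5, srt2 hS x0 x2 x4 x6, srt2 hS x0 x2 x5 x6, srt3 hS x2 x3 x4 x5, srt3 hS x2 x3 x4 x6, srt3 hS x2 x3 x5 x6, srt3 hS x2 x4 x5 x6]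

theorem Psi_13 (ψ : ℕ → ℕ → ℕ → ℤ) (hS : Sy4 E) (x0 x1 x2 x3 x4 x5 x6 : V) :
    Psi E ψ x0 x2 x4 x5 x6 x1 x3 = ψ (cm (E x2 x4 x5 x6) (E x0 x4 x5 x6) (E x0 x2 x5 x6) (E x0 x2 x4 x6) (E x0 x2 x4 x5)) (cl (E x1 x4 x5 x6) (E x1 x2 x5 x6) (E x1 x2 x4 x6) (E x1 x2 x4 x5) (E x0 x1 x5 x6) (E x0 x1 x4 x6) (E x0 x1 x4 x5) (E x0 x1 x2 x6) (E x0 x1 x2 x5) (E x0 x1 x2 x4)) (cl (E x3 x4 x5 x6) (E x2 x3 x5 x6) (E x2 x3 x4 x6) (E x2 x3 x4 x5) (E x0 x3 x5 x6) (E x0 x3 x4 x6) (E x0 x3 x4 x5) (E x0 x2 x3 x6) (E x0 x2 x3 x5) (E x0 x2 x3 x4)) := by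
  unfold Psi mC lC
  rw [srt2 hS x0 x1 x2 x4, srt2 hS x0 x1 x2 x5, srt2 hS x0 x1 x2 x6, srt2 hS x0 x1 x4 x5, srt2 hS x0 x1 x4 x6, srt2 hS x0 x1 x5 x6, srt3 hS x1 x2 x4 x5, srt3 hS x1 x2 x4 x6, srt3 hS x1 x2 x5 x6, srt3 hS x1 x4 x5 x6, srt1 hS x0 x2 x3 x4, srt1 hS x0 x2 x3 x5, srt1 hS x0 x2 x3 x6, srt2 hS x0 x3 x4 x5, srt2 hS x0 x3 x4 x6, srt2 hS x0 x3 x5 x6, srt2 hS x2 x3 x4 x5, srt2 hS x2 x3 x4 x6, srt2 hS x2 x3 x5 x6, srt3 hS x3 x4 x5 x6]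

theorem Psi_14 (ψ : ℕ → ℕ → ℕ → ℤ) (hS : Sy4 E) (x0 x1 x2 x3 x4 x5 x6 : V) :
    Psi E ψ x0 x2 x3 x5 x6 x1 x4 = ψ (cm (E x2 x3 x5 x6) (E x0 x3 x5 x6) (E x0 x2 x5 x6) (E x0 x2 x3 x6) (E x0 x2 x3 x5)) (cl (E x1 x3 x5 x6) (E x1 x2 x5 x6) (E x1 x2 x3 x6) (E x1 x2 x3 x5) (E x0 x1 x5 x6) (E x0 x1 x3 x6) (E x0 x1 x3 x5) (E x0 x1 x2 x6) (E x0 x1 x2 x5) (E x0 x1 x2 x3)) (cl (E x3 x4 x5 x6) (E x2 x4 x5 x6) (E x2 x3 x4 x6) (E x2 x3 x4 x5) (E x0 x4 x5 x6) (E x0 x3 x4 x6) (E x0 x3 x4 x5) (E x0 x2 x4 x6) (E x0 x2 x4 x5) (E x0 x2 x3 x4)) := by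
  unfold Psi mC lC
  rw [srt2 hS x0 x1 x2 x3, srt2 hS x0 x1 x2 x5, srt2 hS x0 x1 x2 x6, srt2 hS x0 x1 x3 x5, srt2 hS x0 x1 x3 x6, srt2 hS x0 x1 x5 x6, srt3 hS x1 x2 x3 x5, srt3 hS x1 x2 x3 x6, srt3 hS x1 x2 x5 x6, srt3 hS x1 x3 x5 x6, srt1 hS x0 x2 x4 x5, srt1 hS x0 x2 x4 x6, srt1 hS x0 x3 x4 x5, srt1 hS x0 x3 x4 x6, srt2 hS x0 x4 x5 x6, srt1 hS x2 x3 x4 x5, srt1 hS x2 x3 x4 x6, srt2 hS x2 x4 x5 x6, srt2 hS x3 x4 x5 x6]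

theorem Psi_15 (ψ : ℕ → ℕ → ℕ → ℤ) (hS : Sy4 E) (x0 x1 x2 x3 x4 x5 x6 : V) :
    Psi E ψ x0 x2 x3 x4 x6 x1 x5 = ψ (cm (E x2 x3 x4 x6) (E x0 x3 x4 x6) (E x0 x2 x4 x6) (E x0 x2 x3 x6) (E x0 x2 x3 x4)) (cl (E x1 x3 x4 x6) (E x1 x2 x4 x6) (E x1 x2 x3 x6) (E x1 x2 x3 x4) (E x0 x1 x4 x6) (E x0 x1 x3 x6) (E x0 x1 x3 x4) (E x0 x1 x2 x6) (E x0 x1 x2 x4) (E x0 x1 x2 x3)) (cl (E x3 x4 x5 x6) (E x2 x4 x5 x6) (E x2 x3 x5 x6) (E x2 x3 x4 x5) (E x0 x4 x5 x6) (E x0 x3 x5 x6) (E x0 x3 x4 x5) (E x0 x2 x5 x6) (E x0 x2 x4 x5) (E x0 x2 x3 x5)) := by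
  unfold Psi mC lC
  rw [srt2 hS x0 x1 x2 x3, srt2 hS x0 x1 x2 x4, srt2 hS x0 x1 x2 x6, srt2 hS x0 x1 x3 x4, srt2 hS x0 x1 x3 x6, srt2 hS x0 x1 x4 x6, srt3 hS x1 x2 x3 x4, srt3 hS x1 x2 x3 x6, srt3 hS x1 x2 x4 x6, srt3 hS x1 x3 x4 x6, srt1 hS x0 x2 x5 x6, srt1 hS x0 x3 x5 x6, srt1 hS x0 x4 x5 x6, srt1 hS x2 x3 x5 x6, srt1 hS x2 x4 x5 x6, srt1 hS x3 x4 x5 x6]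

theorem Psi_16 (ψ : ℕ → ℕ → ℕ → ℤ) (hS : Sy4 E) (x0 x1 x2 x3 x4 x5 x6 : V) :
    Psi E ψ x0 x2 x3 x4 x5 x1 x6 = ψ (cm (E x2 x3 x4 x5) (E x0 x3 x4 x5) (E x0 x2 x4 x5) (E x0 x2 x3 x5) (E x0 x2 x3 x4)) (cl (E x1 x3 x4 x5) (E x1 x2 x4 x5) (E x1 x2 x3 x5) (E x1 x2 x3 x4) (E x0 x1 x4 x5) (E x0 x1 x3 x5) (E x0 x1 x3 x4) (E x0 x1 x2 x5) (E x0 x1 x2 x4) (E x0 x1 x2 x3)) (cl (E x3 x4 x5 x6) (E x2 x4 x5 x6) (E x2 x3 x5 x6) (E x2 x3 x4 x6) (E x0 x4 x5 x6) (E x0 x3 x5 x6) (E x0 x3 x4 x6) (E x0 x2 x5 x6) (E x0 x2 x4 x6) (E x0 x2 x3 x6)) := by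
  unfold Psi mC lC
  rw [srt2 hS x0 x1 x2 x3, srt2 hS x0 x1 x2 x4, srt2 hS x0 x1 x2 x5, srt2 hS x0 x1 x3 x4, srt2 hS x0 x1 x3 x5, srt2 hS x0 x1 x4 x5, srt3 hS x1 x2 x3 x4, srt3 hS x1 x2 x3 x5, srt3 hS x1 x2 x4 x5, srt3 hS x1 x3 x4 x5]

theorem Psi_23 (ψ : ℕ → ℕ → ℕ → ℤ) (hS : Sy4 E) (x0 x1 x2 x3 x4 x5 x6 : V) :
    Psi E ψ x0 x1 x4 x5 x6 x2 x3 = ψ (cm (E x1 x4 x5 x6) (E x0 x4 x5 x6) (E x0 x1 x5 x6) (E x0 x1 x4 x6) (E x0 x1 x4 x5)) (cl (E x2 x4 x5 x6) (E x1 x2 x5 x6) (E x1 x2 x4 x6) (E x1 x2 x4 x5) (E x0 x2 x5 x6) (E x0 x2 x4 x6) (E x0 x2 x4 x5) (E x0 x1 x2 x6) (E x0 x1 x2 x5) (E x0 x1 x2 x4)) (cl (E x3 x4 x5 x6) (E x1 x3 x5 x6) (E x1 x3 x4 x6) (E x1 x3 x4 x5) (E x0 x3 x5 x6) (E x0 x3 x4 x6) (E x0 x3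 x4 x5) (E x0 x1 x3 x6) (E x0 x1 x3 x5) (E x0 x1 x3 x4)) := by
  unfold Psi mC lC
  rw [srt1 hS x0 x1 x2 x4, srt1 hS x0 x1 x2 x5, srt1 hS x0 x1 x2 x6, srt2 hS x0 x2 x4 x5, srt2 hS x0 x2 x4 x6, srt2 hS x0 x2 x5 x6, srt2 hS x1 x2 x4 x5, srt2 hS x1 x2 x4 x6, srt2 hS x1 x2 x5 x6, srt3 hS x2 x4 x5 x6, srt1 hS x0 x1 x3 x4, srt1 hS x0 x1 x3 x5, srt1 hS x0 x1 x3 x6, srt2 hS x0 x3 x4 x5, srt2 hS x0 x3 x4 x6, srt2 hS x0 x3 x5 x6, srt2 hS x1 x3 x4 x5, srt2 hS x1 x3 x4 x6, srt2 hS x1 x3 x5 x6, srt3 hS x3 x4 x5 x6]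

theorem Psi_24 (ψ : ℕ → ℕ → ℕ → ℤ) (hS : Sy4 E) (x0 x1 x2 x3 x4 x5 x6 : V) :
    Psi E ψ x0 x1 x3 x5 x6 x2 x4 = ψ (cm (E x1 x3 x5 x6) (E x0 x3 x5 x6) (E x0 x1 x5 x6) (E x0 x1 x3 x6) (E x0 x1 x3 x5)) (cl (E x2 x3 x5 x6) (E x1 x2 x5 x6) (E x1 x2 x3 x6) (E x1 x2 x3 x5) (E x0 x2 x5 x6) (E x0 x2 x3 x6) (E x0 x2 x3 x5) (E x0 x1 x2 x6) (E x0 x1 x2 x5) (E x0 x1 x2 x3)) (cl (E x3 x4 x5 x6) (E x1 x4 x5 x6) (E x1 x3 x4 x6) (E x1 x3 x4 x5) (E x0 x4 x5 x6) (E x0 x3 x4 x6) (E x0 x3 x4 x5) (E x0 x1 x4 x6) (E x0 x1 x4 x5) (E x0 x1 x3 x4)) := by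
  unfold Psi mC lC
  rw [srt1 hS x0 x1 x2 x3, srt1 hS x0 x1 x2 x5, srt1 hS x0 x1 x2 x6, srt2 hS x0 x2 x3 x5, srt2 hS x0 x2 x3 x6, srt2 hS x0 x2 x5 x6, srt2 hS x1 x2 x3 x5, srt2 hS x1 x2 x3 x6, srt2 hS x1 x2 x5 x6, srt3 hS x2 x3 x5 x6, srt1 hS x0 x1 x4 x5, srt1 hS x0 x1 x4 x6, srt1 hS x0 x3 x4 x5, srt1 hS x0 x3 x4 x6, srt2 hS x0 x4 x5 x6, srt1 hS x1 x3 x4 x5, srt1 hS x1 x3 x4 x6, srt2 hS x1 x4 x5 x6, srt2 hS x3 x4 x5 x6]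

theorem Psi_25 (ψ : ℕ → ℕ → ℕ → ℤ) (hS : Sy4 E) (x0 x1 x2 x3 x4 x5 x6 : V) :
    Psi E ψ x0 x1 x3 x4 x6 x2 x5 = ψ (cm (E x1 x3 x4 x6) (E x0 x3 x4 x6) (E x0 x1 x4 x6) (E x0 x1 x3 x6) (E x0 x1 x3 x4)) (cl (E x2 x3 x4 x6) (E x1 x2 x4 x6) (E x1 x2 x3 x6) (E x1 x2 x3 x4) (E x0 x2 x4 x6) (E x0 x2 x3 x6) (E x0 x2 x3 x4) (E x0 x1 x2 x6) (E x0 x1 x2 x4) (E x0 x1 x2 x3)) (cl (E x3 x4 x5 x6) (E x1 x4 x5 x6) (E x1 x3 x5 x6) (E x1 x3 x4 x5) (E x0 x4 x5 x6) (E x0 x3 x5 x6) (E x0 x3 x4 x5) (E x0 x1 x5 x6) (E x0 x1 x4 x5) (E x0 x1 x3 x5)) := by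
  unfold Psi mC lC
  rw [srt1 hS x0 x1 x2 x3, srt1 hS x0 x1 x2 x4, srt1 hS x0 x1 x2 x6, srt2 hS x0 x2 x3 x4, srt2 hS x0 x2 x3 x6, srt2 hS x0 x2 x4 x6, srt2 hS x1 x2 x3 x4, srt2 hS x1 x2 x3 x6, srt2 hS x1 x2 x4 x6, srt3 hS x2 x3 x4 x6, srt1 hS x0 x1 x5 x6, srt1 hS x0 x3 x5 x6, srt1 hS x0 x4 x5 x6, srt1 hS x1 x3 x5 x6, srt1 hS x1 x4 x5 x6, srt1 hS x3 x4 x5 x6]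

theorem Psi_26 (ψ : ℕ → ℕ → ℕ → ℤ) (hS : Sy4 E) (x0 x1 x2 x3 x4 x5 x6 : V) :
    Psi E ψ x0 x1 x3 x4 x5 x2 x6 = ψ (cm (E x1 x3 x4 x5) (E x0 x3 x4 x5) (E x0 x1 x4 x5) (E x0 x1 x3 x5) (E x0 x1 x3 x4)) (cl (E x2 x3 x4 x5) (E x1 x2 x4 x5) (E x1 x2 x3 x5) (E x1 x2 x3 x4) (E x0 x2 x4 x5) (E x0 x2 x3 x5) (E x0 x2 x3 x4) (E x0 x1 x2 x5) (E x0 x1 x2 x4) (E x0 x1 x2 x3)) (cl (E x3 x4 x5 x6) (E x1 x4 x5 x6) (E x1 x3 x5 x6) (E x1 x3 x4 x6) (E x0 x4 x5 x6) (E x0 x3 x5 x6) (E x0 x3 x4 x6) (E x0 x1 x5 x6) (E x0 x1 x4 x6) (E x0 x1 x3 x6)) := by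
  unfold Psi mC lC
  rw [srt1 hS x0 x1 x2 x3, srt1 hS x0 x1 x2 x4, srt1 hS x0 x1 x2 x5, srt2 hS x0 x2 x3 x4, srt2 hS x0 x2 x3 x5, srt2 hS x0 x2 x4 x5, srt2 hS x1 x2 x3 x4, srt2 hS x1 x2 x3 x5, srt2 hS x1 x2 x4 x5, srt3 hS x2 x3 x4 x5]

theorem Psi_34 (ψ : ℕ → ℕ → ℕ → ℤ) (hS : Sy4 E) (x0 x1 x2 x3 x4 x5 x6 : V) :
    Psi E ψ x0 x1 x2 x5 x6 x3 x4 = ψ (cm (E x1 x2 x5 x6) (E x0 x2 x5 x6) (E x0 x1 x5 x6) (E x0 x1 x2 x6) (E x0 x1 x2 x5)) (cl (E x2 x3 x5 x6) (E x1 x3 x5 x6) (E x1 x2 x3 x6) (E x1 x2 x3 x5) (E x0 x3 x5 x6) (E x0 x2 x3 x6) (E x0 x2 x3 x5) (E x0 x1 x3 x6) (E x0 x1 x3 x5) (E x0 x1 x2 x3)) (cl (E x2 x4 x5 x6) (E x1 x4 x5 x6) (E x1 x2 x4 x6) (E x1 x2 x4 x5) (E x0 x4 x5 x6) (E x0 x2 x4 x6) (E x0 x2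 x4 x5) (E x0 x1 x4 x6) (E x0 x1 x4 x5) (E x0 x1 x2 x4)) := by
  unfold Psi mC lC
  rw [srt1 hS x0 x1 x3 x5, srt1 hS x0 x1 x3 x6, srt1 hS x0 x2 x3 x5, srt1 hS x0 x2 x3 x6, srt2 hS x0 x3 x5 x6, srt1 hS x1 x2 x3 x5, srt1 hS x1 x2 x3 x6, srt2 hS x1 x3 x5 x6, srt2 hS x2 x3 x5 x6, srt1 hS x0 x1 x4 x5, srt1 hS x0 x1 x4 x6, srt1 hS x0 x2 x4 x5, srt1 hS x0 x2 x4 x6, srt2 hS x0 x4 x5 x6, srt1 hS x1 x2 x4 x5, srt1 hS x1 x2 x4 x6, srt2 hS x1 x4 x5 x6, srt2 hS x2 x4 x5 x6]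

theorem Psi_35 (ψ : ℕ → ℕ → ℕ → ℤ) (hS : Sy4 E) (x0 x1 x2 x3 x4 x5 x6 : V) :
    Psi E ψ x0 x1 x2 x4 x6 x3 x5 = ψ (cm (E x1 x2 x4 x6) (E x0 x2 x4 x6) (E x0 x1 x4 x6) (E x0 x1 x2 x6) (E x0 x1 x2 x4)) (cl (E x2 x3 x4 x6) (E x1 x3 x4 x6) (E x1 x2 x3 x6) (E x1 x2 x3 x4) (E x0 x3 x4 x6) (E x0 x2 x3 x6) (E x0 x2 x3 x4) (E x0 x1 x3 x6) (E x0 x1 x3 x4) (E x0 x1 x2 x3)) (cl (E x2 x4 x5 x6) (E x1 x4 x5 x6) (E x1 x2 x5 x6) (E x1 x2 x4 x5) (E x0 x4 x5 x6) (E x0 x2 x5 x6) (E x0 x2 x4 x5) (E x0 x1 x5 x6) (E x0 x1 x4 x5) (E x0 x1 x2 x5)) := by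
  unfold Psi mC lC
  rw [srt1 hS x0 x1 x3 x4, srt1 hS x0 x1 x3 x6, srt1 hS x0 x2 x3 x4, srt1 hS x0 x2 x3 x6, srt2 hS x0 x3 x4 x6, srt1 hS x1 x2 x3 x4, srt1 hS x1 x2 x3 x6, srt2 hS x1 x3 x4 x6, srt2 hS x2 x3 x4 x6, srt1 hS x0 x1 x5 x6, srt1 hS x0 x2 x5 x6, srt1 hS x0 x4 x5 x6, srt1 hS x1 x2 x5 x6, srt1 hS x1 x4 x5 x6, srt1 hS x2 x4 x5 x6]

theorem Psi_36 (ψ : ℕ → ℕ → ℕ → ℤ) (hS : Sy4 E) (x0 x1 x2 x3 x4 x5 x6 : V) :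
    Psi E ψ x0 x1 x2 x4 x5 x3 x6 = ψ (cm (E x1 x2 x4 x5) (E x0 x2 x4 x5) (E x0 x1 x4 x5) (E x0 x1 x2 x5) (E x0 x1 x2 x4)) (cl (E x2 x3 x4 x5) (E x1 x3 x4 x5) (E x1 x2 x3 x5) (E x1 x2 x3 x4) (E x0 x3 x4 x5) (E x0 x2 x3 x5) (E x0 x2 x3 x4) (E x0 x1 x3 x5) (E x0 x1 x3 x4) (E x0 x1 x2 x3)) (cl (E x2 x4 x5 x6) (E x1 x4 x5 x6) (E x1 x2 x5 x6) (E x1 x2 x4 x6) (E x0 x4 x5 x6) (E x0 x2 x5 x6) (E x0 x2 x4 x6) (E x0 x1 x5 x6) (E x0 x1 x4 x6) (E x0 x1 x2 x6)) := by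
  unfold Psi mC lC
  rw [srt1 hS x0 x1 x3 x4, srt1 hS x0 x1 x3 x5, srt1 hS x0 x2 x3 x4, srt1 hS x0 x2 x3 x5, srt2 hS x0 x3 x4 x5, srt1 hS x1 x2 x3 x4, srt1 hS x1 x2 x3 x5, srt2 hS x1 x3 x4 x5, srt2 hS x2 x3 x4 x5]

theorem Psi_45 (ψ : ℕ → ℕ → ℕ → ℤ) (hS : Sy4 E) (x0 x1 x2 x3 x4 x5 x6 : V) :
    Psi E ψ x0 x1 x2 x3 x6 x4 x5 = ψ (cm (E x1 x2 x3 x6) (E x0 x2 x3 x6) (E x0 x1 x3 x6) (E x0 x1 x2 x6) (E x0 x1 x2 x3)) (cl (E x2 x3 x4 x6) (E x1 x3 x4 x6) (E x1 x2 x4 x6) (E x1 x2 x3 x4) (E x0 x3 x4 x6) (E x0 x2 x4 x6) (E x0 x2 x3 x4) (E x0 x1 x4 x6) (E x0 x1 x3 x4) (E x0 x1 x2 x4)) (cl (E x2 x3 x5 x6) (E x1 x3 x5 x6) (E x1 x2 x5 x6) (E x1 x2 x3 x5) (E x0 x3 x5 x6) (E x0 x2 x5 x6) (E x0 x2 x3 x5) (E x0 x1 x5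 x6) (E x0 x1 x3 x5) (E x0 x1 x2 x5)) := by
  unfold Psi mC lC
  rw [srt1 hS x0 x1 x4 x6, srt1 hS x0 x2 x4 x6, srt1 hS x0 x3 x4 x6, srt1 hS x1 x2 x4 x6, srt1 hS x1 x3 x4 x6, srt1 hS x2 x3 x4 x6, srt1 hS x0 x1 x5 x6, srt1 hS x0 x2 x5 x6, srt1 hS x0 x3 x5 x6, srt1 hS x1 x2 x5 x6, srt1 hS x1 x3 x5 x6, srt1 hS x2 x3 x5 x6]

theorem Psi_46 (ψ : ℕ → ℕ → ℕ → ℤ) (hS : Sy4 E) (x0 x1 x2 x3 x4 x5 x6 : V) :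
    Psi E ψ x0 x1 x2 x3 x5 x4 x6 = ψ (cm (E x1 x2 x3 x5) (E x0 x2 x3 x5) (E x0 x1 x3 x5) (E x0 x1 x2 x5) (E x0 x1 x2 x3)) (cl (E x2 x3 x4 x5) (E x1 x3 x4 x5) (E x1 x2 x4 x5) (E x1 x2 x3 x4) (E x0 x3 x4 x5) (E x0 x2 x4 x5) (E x0 x2 x3 x4) (E x0 x1 x4 x5) (E x0 x1 x3 x4) (E x0 x1 x2 x4)) (cl (E x2 x3 x5 x6) (E x1 x3 x5 x6) (E x1 x2 x5 x6) (E x1 x2 x3 x6) (E x0 x3 x5 x6) (E x0 x2 x5 x6) (E x0 x2 x3 x6) (E x0 x1 x5 x6) (E x0 x1 x3 x6) (E x0 x1 x2 x6)) := by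
  unfold Psi mC lC
  rw [srt1 hS x0 x1 x4 x5, srt1 hS x0 x2 x4 x5, srt1 hS x0 x3 x4 x5, srt1 hS x1 x2 x4 x5, srt1 hS x1 x3 x4 x5, srt1 hS x2 x3 x4 x5]

theorem Psi_56 (ψ : ℕ → ℕ → ℕ → ℤ) (hS : Sy4 E) (x0 x1 x2 x3 x4 x5 x6 : V) :
    Psi E ψ x0 x1 x2 x3 x4 x5 x6 = ψ (cm (E x1 x2 x3 x4) (E x0 x2 x3 x4) (E x0 x1 x3 x4) (E x0 x1 x2 x4) (E x0 x1 x2 x3)) (cl (E x2 x3 x4 x5) (E x1 x3 x4 x5) (E x1 x2 x4 x5) (E x1 x2 x3 x5) (E x0 x3 x4 x5) (E x0 x2 x4 x5) (E x0 x2 x3 x5) (E x0 x1 x4 x5) (E x0 x1 x3 x5) (E x0 x1 x2 x5)) (cl (E x2 x3 x4 x6) (E x1 x3 x4 x6) (E x1 x2 x4 x6) (E x1 x2 x3 x6) (E x0 x3 x4 x6) (E x0 x2 x4 x6) (E x0 x2 x3 x6) (E x0 x1 x4 x6) (E x0 x1 x3 x6) (E x0 x1 x2 x6)) := by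
  unfold Psi mC lC
  rfl

theorem L7_bits (hS : Sy4 E) (x0 x1 x2 x3 x4 x5 x6 : V) :
    L7 E psi x0 x1 x2 x3 x4 x5 x6 = LF (E x2 x3 x4 x5) (E x1 x3 x4 x5) (E x1 x2 x4 x5) (E x1 x2 x3 x5) (E x1 x2 x3 x4) (E x0 x3 x4 x5) (E x0 x2 x4 x5) (E x0 x2 x3 x5) (E x0 x2 x3 x4) (E x0 x1 x4 x5) (E x0 x1 x3 x5) (E x0 x1 x3 x4) (E x0 x1 x2 x5) (E x0 x1 x2 x4) (E x0 x1 x2 x3) (E x3 x4 x5 x6) (E x2 x4 x5 x6) (E x2 x3 x5 x6) (E x2 x3 x4 x6) (E x1 x4 x5 x6) (E x1 x3 x5 x6) (E x1 x3 x4 x6) (E x1 x2 x5 x6) (E x1 x2 x4 x6) (E x1 x2 x3 x6) (E x0 x4 x5 x6) (E x0 x3 x5 x6) (E x0 x3 x4 x6) (E x0 x2 x5 x6) (E x0 x2 x4 x6) (E x0 x2 x3 x6) (E x0 x1 x5 x6) (E x0 x1 x4 x6) (E x0 x1 x3 x6) (E x0 x1 x2 x6) := by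
  unfold L7
  rw [Psi_01 psi hS x0 x1 x2 x3 x4 x5 x6,
    Psi_02 psi hS x0 x1 x2 x3 x4 x5 x6,
    Psi_03 psi hS x0 x1 x2 x3 x4 x5 x6,
    Psi_04 psi hS x0 x1 x2 x3 x4 x5 x6,
    Psi_05 psi hS x0 x1 x2 x3 x4 x5 x6,
    Psi_06 psi hS x0 x1 x2 x3 x4 x5 x6,
    Psi_12 psi hS x0 x1 x2 x3 x4 x5 x6,
    Psi_13 psi hS x0 x1 x2 x3 x4 x5 x6,
    Psi_14 psi hS x0 x1 x2 x3 x4 x5 x6,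
    Psi_15 psi hS x0 x1 x2 x3 x4 x5 x6,
    Psi_16 psi hS x0 x1 x2 x3 x4 x5 x6,
    Psi_23 psi hS x0 x1 x2 x3 x4 x5 x6,
    Psi_24 psi hS x0 x1 x2 x3 x4 x5 x6,
    Psi_25 psi hS x0 x1 x2 x3 x4 x5 x6,
    Psi_26 psi hS x0 x1 x2 x3 x4 x5 x6,
    Psi_34 psi hS x0 x1 x2 x3 x4 x5 x6,
    Psi_35 psi hS x0 x1 x2 x3 x4 x5 x6,
    Psi_36 psi hS x0 x1 x2 x3 x4 x5 x6,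
    Psi_45 psi hS x0 x1 x2 x3 x4 x5 x6,
    Psi_46 psi hS x0 x1 x2 x3 x4 x5 x6,
    Psi_56 psi hS x0 x1 x2 x3 x4 x5 x6]
  unfold LF
  rfl

theorem e6_le_bits (x0 x1 x2 x3 x4 x5 x6 : V) :
    e6 E x1 x2 x3 x4 x5 x6 = ((E x3 x4 x5 x6) + (E x2 x4 x5 x6) + (E x2 x3 x5 x6) + (E x2 x3 x4 x6) + (E x1 x4 x5 x6) + (E x1 x3 x5 x6) + (E x1 x3 x4 x6) + (E x1 x2 x5 x6) + (E x1 x2 x4 x6) + (E x1 x2 x3 x6)) + ((E x2 x3 x4 x5) + (E x1 x3 x4 x5) + (E x1 x2 x4 x5) + (E x1 x2 x3 x5) + (E x1 x2 x3 x4)) ∧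
    e6 E x0 x2 x3 x4 x5 x6 = ((E x3 x4 x5 x6) + (E x2 x4 x5 x6) + (E x2 x3 x5 x6) + (E x2 x3 x4 x6) + (E x0 x4 x5 x6) + (E x0 x3 x5 x6) + (E x0 x3 x4 x6) + (E x0 x2 x5 x6) + (E x0 x2 x4 x6) + (E x0 x2 x3 x6)) + ((E x2 x3 x4 x5) + (E x0 x3 x4 x5) + (E x0 x2 x4 x5) + (E x0 x2 x3 x5) + (E x0 x2 x3 x4)) ∧
    e6 E x0 x1 x3 x4 x5 x6 = ((E x3 x4 x5 x6) + (E x1 x4 x5 x6) + (E x1 x3 x5 x6) + (E x1 x3 x4 x6) + (E x0 x4 x5 x6) + (E x0 x3 x5 x6) + (E x0 x3 x4 x6) + (E x0 x1 x5 x6) + (E x0 x1 x4 x6) + (E x0 x1 x3 x6)) + ((E x1 x3 x4 x5) + (E x0 x3 x4 x5) + (E x0 x1 x4 x5) + (E x0 x1 x3 x5) + (E x0 x1 x3 x4)) ∧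
    e6 E x0 x1 x2 x4 x5 x6 = ((E x2 x4 x5 x6) + (E x1 x4 x5 x6) + (E x1 x2 x5 x6) + (E x1 x2 x4 x6) + (E x0 x4 x5 x6) + (E x0 x2 x5 x6) + (E x0 x2 x4 x6) + (E x0 x1 x5 x6) + (E x0 x1 x4 x6) + (E x0 x1 x2 x6)) + ((E x1 x2 x4 x5) + (E x0 x2 x4 x5) + (E x0 x1 x4 x5) + (E x0 x1 x2 x5) + (E x0 x1 x2 x4)) ∧
    e6 E x0 x1 x2 x3 x5 x6 = ((E x2 x3 x5 x6) + (E x1 x3 x5 x6) + (E x1 x2 x5 x6) + (E x1 x2 x3 x6) + (E x0 x3 x5 x6) + (E x0 x2 x5 x6) + (E x0 x2 x3 x6) + (E x0 x1 x5 x6) + (E x0 x1 x3 x6) + (E x0 x1 x2 x6)) + ((E x1 x2 x3 x5) + (E x0 x2 x3 x5) + (E x0 x1 x3 x5) + (E x0 x1 x2 x5) + (E x0 x1 x2 x3)) ∧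
    e6 E x0 x1 x2 x3 x4 x6 = ((E x2 x3 x4 x6) + (E x1 x3 x4 x6) + (E x1 x2 x4 x6) + (E x1 x2 x3 x6) + (E x0 x3 x4 x6) + (E x0 x2 x4 x6) + (E x0 x2 x3 x6) + (E x0 x1 x4 x6) + (E x0 x1 x3 x6) + (E x0 x1 x2 x6)) + ((E x1 x2 x3 x4) + (E x0 x2 x3 x4) + (E x0 x1 x3 x4) + (E x0 x1 x2 x4) + (E x0 x1 x2 x3)) ∧
    e6 E x0 x1 x2 x3 x4 x5 = (E x2 x3 x4 x5) + (E x1 x3 x4 x5) + (E x1 x2 x4 x5) + (E x1 x2 x3 x5) + (E x1 x2 x3 x4) + (E x0 x3 x4 x5) + (E x0 x2 x4 x5) + (E x0 x2 x3 x5) + (E x0 x2 x3 x4) + (E x0 x1 x4 x5) + (E x0 x1 x3 x5) + (E x0 x1 x3 x4) + (E x0 x1 x2 x5) + (E x0 x1 x2 x4) + (E x0 x1 x2 x3) := by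
  unfold e6
  refine ⟨?_, ?_, ?_, ?_, ?_, ?_, ?_⟩ <;> ring

theorem cov_sw {a b c d e : ℕ} (h : 1 ≤ a + b + c + d + e) : 1 ≤ e + (a + b + c + d) := by omega

theorem lt2 (hS : Sy4 E) (a b c d : V) : E a b c d < 2 := by
  rcases hS.b a b c d with h | h <;> omega

theorem leaf_E (hDOT : Goal_DOT) (hR : ∀ K ∈ repsL, ∀ w < 1024, Lv1 K w = true) (hS : Sy4 E) (hC : Cov E)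
    (x0 x1 x2 x3 x4 x5 x6 : V)
    (d0 : e6 E x1 x2 x3 x4 x5 x6 ≤ e6 E x0 x1 x2 x3 x4 x5)
    (d1 : e6 E x0 x2 x3 x4 x5 x6 ≤ e6 E x0 x1 x2 x3 x4 x5)
    (d2 : e6 E x0 x1 x3 x4 x5 x6 ≤ e6 E x0 x1 x2 x3 x4 x5)
    (d3 : e6 E x0 x1 x2 x4 x5 x6 ≤ e6 E x0 x1 x2 x3 x4 x5)
    (d4 : e6 E x0 x1 x2 x3 x5 x6 ≤ e6 E x0 x1 x2 x3 x4 x5)
    (d5 : e6 E x0 x1 x2 x3 x4 x6 ≤ e6 E x0 x1 x2 x3 x4 x5)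
    (hK : kC E x0 x1 x2 x3 x4 x5 ∈ repsL) : 0 ≤ L7 E psi x0 x1 x2 x3 x4 x5 x6 := by
  obtain ⟨v0, v1, v2, v3, v4, v5, v6⟩ := e6_le_bits (E := E) x0 x1 x2 x3 x4 x5 x6
  rw [v0, v6] at d0
  rw [v1, v6] at d1
  rw [v2, v6] at d2
  rw [v3, v6] at d3
  rw [v4, v6] at d4
  rw [v5, v6] at d5
  rw [L7_bits hS]
  exact leaf_bits hDOT
    (lt2 hS x2 x3 x4 x5) (lt2 hS x1 x3 x4 x5) (lt2 hS x1 x2 x4 x5) (lt2 hS x1 x2 x3 x5) (lt2 hS x1 x2 x3 x4) (lt2 hS x0 x3 x4 x5) (lt2 hS x0 x2 x4 x5) (lt2 hS x0 x2 x3 x5) (lt2 hS x0 x2 x3 x4) (lt2 hS x0 x1 x4 x5) (lt2 hS x0 x1 x3 x5) (lt2 hS x0 x1 x3 x4) (lt2 hS x0 x1 x2 x5) (lt2 hS x0 x1 x2 x4) (lt2 hS x0 x1 x2 x3)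
    (lt2 hS x3 x4 x5 x6) (lt2 hS x2 x4 x5 x6) (lt2 hS x2 x3 x5 x6) (lt2 hS x2 x3 x4 x6) (lt2 hS x1 x4 x5 x6) (lt2 hS x1 x3 x5 x6) (lt2 hS x1 x3 x4 x6) (lt2 hS x1 x2 x5 x6) (lt2 hS x1 x2 x4 x6) (lt2 hS x1 x2 x3 x6) (lt2 hS x0 x4 x5 x6) (lt2 hS x0 x3 x5 x6) (lt2 hS x0 x3 x4 x6) (lt2 hS x0 x2 x5 x6) (lt2 hS x0 x2 x4 x6) (lt2 hS x0 x2 x3 x6) (lt2 hS x0 x1 x5 x6) (lt2 hS x0 x1 x4 x6) (lt2 hS x0 x1 x3 x6) (lt2 hS x0 x1 x2 x6)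
    (hR _ hK)
    (cov_sw (hC x2 x3 x4 x5 x6))
    (cov_sw (hC x1 x3 x4 x5 x6))
    (cov_sw (hC x1 x2 x4 x5 x6))
    (cov_sw (hC x1 x2 x3 x5 x6))
    (cov_sw (hC x1 x2 x3 x4 x6))
    (cov_sw (hC x0 x3 x4 x5 x6))
    (cov_sw (hC x0 x2 x4 x5 x6))
    (cov_sw (hC x0 x2 x3 x5 x6))
    (cov_sw (hC x0 x2 x3 x4 x6))
    (cov_sw (hC x0 x1 x4 x5 x6))
    (cov_sw (hC x0 x1 x3 x5 x6))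
    (cov_sw (hC x0 x1 x3 x4 x6))
    (cov_sw (hC x0 x1 x2 x5 x6))
    (cov_sw (hC x0 x1 x2 x4 x6))
    (cov_sw (hC x0 x1 x2 x3 x6))
    d0 d1 d2 d3 d4 d5

theorem leaf_all (hDOT : Goal_DOT) (hR : ∀ K ∈ repsL, ∀ w < 1024, Lv1 K w = true) (hS : Sy4 E) (hC : Cov E)
    (x : Fin 7 → V) (hM : MD E x) (hK : kC E (x 0) (x 1) (x 2) (x 3) (x 4) (x 5) ∈ repsL) : 0 ≤ L7f E psi x := by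
  obtain ⟨d0, d1, d2, d3, d4, d5⟩ := hM
  exact leaf_E hDOT hR hS hC (x 0) (x 1) (x 2) (x 3) (x 4) (x 5) (x 6) d0 d1 d2 d3 d4 d5 hK

end Pool.Agent.N465.L2
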