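import Pool.Agent.N465.L2.Def

/-! Goals about the tables. -/

set_option autoImplicit false

open Finset

namespace Pool.Agent.N465.L2

/-- the certificate read off the tables -/
def psi (m l l' : ℕ) : ℤ := (cc m : ℤ) - (dt (m + 32 * l) (m + 32 * l') : ℤ)

/-- `2^35 * ∑ k ∈ range 24, 2^(36 * k)` -/
def Q24 : ℕ := 61501577862463070031389089844939327187541027312931156547516247210455293936891454646425401759154671234377744712116469951334514923326147243225284314698784159990695154294120378146820767426954004562156447614366275299799606751793356680173027152636631493290085056512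

/-- digit `j` of a packed vector, plus `2^35` -/
def dg (j A : ℕ) : ℕ := Nat.mod (Nat.shiftRight (Nat.add A Q24) (Nat.mul 36 j)) 68719476736

/-- entry `j` of the vector of the code `m + 32 l` -/
def av (m l j : ℕ) : ℤ := (dg j (lkA (m + 32 * l)) : ℤ) - 34359738368

/-- the weights -/
def wt (m j : ℕ) : ℕ :=
  if j < 20 then 5 else
    if oneM m = 1 then (if j = 20 then 711300 else if j = 21 then 642353 else if j = 22 then 620008 else 680739)
    else if oneM m = 3 then (if j = 20 then 534308 else if j = 21 then 648797 else if j = 22 then 664465 else 719165)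
    else (if j = 20 then 497750 else 0)

/-- DOT: the packed product computes the weighted scalar product.  (For `m` with an even number of ones all the vectors
vanish.)  The vectors satisfy `lkA = ∑ j < 24, av j * X^j + X^24`, `lkB = ∑ j < 24, wt j * av j * X^(23 - j) + X^24` with
`X = 2^36`; `|av j| ≤ 7857` for `j < 10`, `≤ 8955` for `10 ≤ j < 20`, `≤ 4, 2, 3, 3` for `j = 20, 21, 22, 23`;
`|wt j * av j| ≤ 39285` (`j < 10`), `44775` (`10 ≤ j < 20`), `2845200, 1297594, 1860024, 2042217` (`j = 20, ..., 23`). -/
def Goal_DOT : Prop := ∀ m < 32, ∀ l < 1024, ∀ l' < 1024,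
  (dt (m + 32 * l) (m + 32 * l') : ℤ) = 34359738368 + ∑ j ∈ range 24, (wt m j : ℤ) * av m l j * av m l' j

/-- CRT: the certificate properties. Equivariance is `av (s m) (s l) j = av m l (s j)` for the four adjacent swaps `s` of
the five positions, acting on `j = 10 r + (index of the pair)` for `j < 20` and trivially on `j = 20, ..., 23`, and
`wt (s m) j = wt m j = wt m (s j)`. -/
def Goal_CRT : Prop := Goal_DOT → Cert psi

end Pool.Agent.N465.L2
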