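import Pool.Agent.N465.L2.Tab
import Pool.Agent.N465.L2.TabZ
import Pool.Agent.N465.L2.Def2

/-! Bits and tables. -/

set_option autoImplicit false
set_option linter.unusedVariables false

namespace Pool.Agent.N465.L2

theorem bt_eq (k c : ℕ) : bt k c = c / 2 ^ k % 2 := by
  show (c >>> k) % 2 = _
  rw [Nat.shiftRight_eq_div_pow]

theorem bt0_cm {b0 b1 b2 b3 b4 : ℕ} (hb0 : b0 < 2) (hb1 : b1 < 2) (hb2 : b2 < 2) (hb3 : b3 < 2) (hb4 : b4 < 2) : bt 0 (cm b0 b1 b2 b3 b4) = b0 := by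
  rw [bt_eq]; unfold cm; omega
theorem bt1_cm {b0 b1 b2 b3 b4 : ℕ} (hb0 : b0 < 2) (hb1 : b1 < 2) (hb2 : b2 < 2) (hb3 : b3 < 2) (hb4 : b4 < 2) : bt 1 (cm b0 b1 b2 b3 b4) = b1 := by
  rw [bt_eq]; unfold cm; omega
theorem bt2_cm {b0 b1 b2 b3 b4 : ℕ} (hb0 : b0 < 2) (hb1 : b1 < 2) (hb2 : b2 < 2) (hb3 : b3 < 2) (hb4 : b4 < 2) : bt 2 (cm b0 b1 b2 b3 b4) = b2 := by
  rw [bt_eq]; unfold cm; omega
theorem bt3_cm {b0 b1 b2 b3 b4 : ℕ} (hb0 : b0 < 2) (hb1 : b1 < 2) (hb2 : b2 < 2) (hb3 : b3 < 2) (hb4 : b4 < 2) : bt 3 (cm b0 b1 b2 b3 b4) = b3 := by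
  rw [bt_eq]; unfold cm; omega
theorem bt4_cm {b0 b1 b2 b3 b4 : ℕ} (hb0 : b0 < 2) (hb1 : b1 < 2) (hb2 : b2 < 2) (hb3 : b3 < 2) (hb4 : b4 < 2) : bt 4 (cm b0 b1 b2 b3 b4) = b4 := by
  rw [bt_eq]; unfold cm; omega
theorem bt0_cl {e01 e02 e03 e04 e12 e13 e14 e23 e24 e34 : ℕ} (he01 : e01 < 2) (he02 : e02 < 2) (he03 : e03 < 2) (he04 : e04 < 2) (he12 : e12 < 2) (he13 : e13 < 2) (he14 : e14 < 2) (he23 : e23 < 2) (he24 : e24 < 2) (he34 : e34 < 2) : bt 0 (cl e01 e02 e03 e04 e12 e13 e14 e23 e24 e34) = e01 := by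
  rw [bt_eq]; unfold cl; omega
theorem bt1_cl {e01 e02 e03 e04 e12 e13 e14 e23 e24 e34 : ℕ} (he01 : e01 < 2) (he02 : e02 < 2) (he03 : e03 < 2) (he04 : e04 < 2) (he12 : e12 < 2) (he13 : e13 < 2) (he14 : e14 < 2) (he23 : e23 < 2) (he24 : e24 < 2) (he34 : e34 < 2) : bt 1 (cl e01 e02 e03 e04 e12 e13 e14 e23 e24 e34) = e02 := by
  rw [bt_eq]; unfold cl; omega
theorem bt2_cl {e01 e02 e03 e04 e12 e13 e14 e23 e24 e34 : ℕ} (he01 : e01 < 2) (he02 : e02 < 2) (he03 : e03 < 2) (he04 : e04 < 2) (he12 : e12 < 2) (he13 : e13 < 2) (he14 : e14 < 2) (he23 : e23 < 2) (he24 : e24 < 2) (he34 : e34 < 2) : bt 2 (cl e01 e02 e03 e04 e12 e13 e14 e23 e24 e34) = e03 := by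
  rw [bt_eq]; unfold cl; omega
theorem bt3_cl {e01 e02 e03 e04 e12 e13 e14 e23 e24 e34 : ℕ} (he01 : e01 < 2) (he02 : e02 < 2) (he03 : e03 < 2) (he04 : e04 < 2) (he12 : e12 < 2) (he13 : e13 < 2) (he14 : e14 < 2) (he23 : e23 < 2) (he24 : e24 < 2) (he34 : e34 < 2) : bt 3 (cl e01 e02 e03 e04 e12 e13 e14 e23 e24 e34) = e04 := by
  rw [bt_eq]; unfold cl; omega
theorem bt4_cl {e01 e02 e03 e04 e12 e13 e14 e23 e24 e34 : ℕ} (he01 : e01 < 2) (he02 : e02 < 2) (he03 : e03 < 2) (he04 : e04 < 2) (he12 : e12 < 2) (he13 : e13 < 2) (he14 : e14 < 2) (he23 : e23 < 2) (he24 : e24 < 2) (he34 : e34 < 2) : bt 4 (cl e01 e02 e03 e04 e12 e13 e14 e23 e24 e34) = e12 := by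
  rw [bt_eq]; unfold cl; omega
theorem bt5_cl {e01 e02 e03 e04 e12 e13 e14 e23 e24 e34 : ℕ} (he01 : e01 < 2) (he02 : e02 < 2) (he03 : e03 < 2) (he04 : e04 < 2) (he12 : e12 < 2) (he13 : e13 < 2) (he14 : e14 < 2) (he23 : e23 < 2) (he24 : e24 < 2) (he34 : e34 < 2) : bt 5 (cl e01 e02 e03 e04 e12 e13 e14 e23 e24 e34) = e13 := by
  rw [bt_eq]; unfold cl; omega
theorem bt6_cl {e01 e02 e03 e04 e12 e13 e14 e23 e24 e34 : ℕ} (he01 : e01 < 2) (he02 : e02 < 2) (he03 : e03 < 2) (he04 : e04 < 2) (he12 : e12 < 2) (he13 : e13 < 2) (he14 : e14 < 2) (he23 : e23 < 2) (he24 : e24 < 2) (he34 : e34 < 2) : bt 6 (cl e01 e02 e03 e04 e12 e13 e14 e23 e24 e34) = e14 := by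
  rw [bt_eq]; unfold cl; omega
theorem bt7_cl {e01 e02 e03 e04 e12 e13 e14 e23 e24 e34 : ℕ} (he01 : e01 < 2) (he02 : e02 < 2) (he03 : e03 < 2) (he04 : e04 < 2) (he12 : e12 < 2) (he13 : e13 < 2) (he14 : e14 < 2) (he23 : e23 < 2) (he24 : e24 < 2) (he34 : e34 < 2) : bt 7 (cl e01 e02 e03 e04 e12 e13 e14 e23 e24 e34) = e23 := by
  rw [bt_eq]; unfold cl; omega
theorem bt8_cl {e01 e02 e03 e04 e12 e13 e14 e23 e24 e34 : ℕ} (he01 : e01 < 2) (he02 : e02 < 2) (he03 : e03 < 2) (he04 : e04 < 2) (he12 : e12 < 2) (he13 : e13 < 2) (he14 : e14 < 2) (he23 : e23 < 2) (he24 : e24 < 2) (he34 : e34 < 2) : bt 8 (cl e01 e02 e03 e04 e12 e13 e14 e23 e24 e34) = e24 := by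
  rw [bt_eq]; unfold cl; omega
theorem bt9_cl {e01 e02 e03 e04 e12 e13 e14 e23 e24 e34 : ℕ} (he01 : e01 < 2) (he02 : e02 < 2) (he03 : e03 < 2) (he04 : e04 < 2) (he12 : e12 < 2) (he13 : e13 < 2) (he14 : e14 < 2) (he23 : e23 < 2) (he24 : e24 < 2) (he34 : e34 < 2) : bt 9 (cl e01 e02 e03 e04 e12 e13 e14 e23 e24 e34) = e34 := by
  rw [bt_eq]; unfold cl; omega
theorem cm_lt {b0 b1 b2 b3 b4 : ℕ} (hb0 : b0 < 2) (hb1 : b1 < 2) (hb2 : b2 < 2) (hb3 : b3 < 2) (hb4 : b4 < 2) : cm b0 b1 b2 b3 b4 < 32 := by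
  unfold cm; omega
theorem cl_lt {e01 e02 e03 e04 e12 e13 e14 e23 e24 e34 : ℕ} (he01 : e01 < 2) (he02 : e02 < 2) (he03 : e03 < 2) (he04 : e04 < 2) (he12 : e12 < 2) (he13 : e13 < 2) (he14 : e14 < 2) (he23 : e23 < 2) (he24 : e24 < 2) (he34 : e34 < 2) : cl e01 e02 e03 e04 e12 e13 e14 e23 e24 e34 < 1024 := by
  unfold cl; omega

theorem chQ_spec {l : ℕ} (hl : l < 1024) :
    q0 l = Q0 0 0 0 0 0 (bt 0 l) (bt 1 l) (bt 2 l) (bt 3 l) (bt 4 l) (bt 5 l) (bt 6 l) (bt 7 l) (bt 8 l) (bt 9 l) ∧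
    q1 l = Q1 0 0 0 0 0 (bt 0 l) (bt 1 l) (bt 2 l) (bt 3 l) (bt 4 l) (bt 5 l) (bt 6 l) (bt 7 l) (bt 8 l) (bt 9 l) ∧
    q2 l = Q2 0 0 0 0 0 (bt 0 l) (bt 1 l) (bt 2 l) (bt 3 l) (bt 4 l) (bt 5 l) (bt 6 l) (bt 7 l) (bt 8 l) (bt 9 l) ∧
    q3 l = Q3 0 0 0 0 0 (bt 0 l) (bt 1 l) (bt 2 l) (bt 3 l) (bt 4 l) (bt 5 l) (bt 6 l) (bt 7 l) (bt 8 l) (bt 9 l) ∧
    q4 l = Q4 0 0 0 0 0 (bt 0 l) (bt 1 l) (bt 2 l) (bt 3 l) (bt 4 l) (bt 5 l) (bt 6 l) (bt 7 l) (bt 8 l) (bt 9 l) := by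
  have h := al_true tabQ l hl
  unfold chQ at h
  obtain ⟨h0, h⟩ := cnd_false h
  obtain ⟨h1, h⟩ := cnd_false h
  obtain ⟨h2, h⟩ := cnd_false h
  obtain ⟨h3, h4⟩ := cnd_false h
  exact ⟨Nat.eq_of_beq_eq_true h0, Nat.eq_of_beq_eq_true h1, Nat.eq_of_beq_eq_true h2, Nat.eq_of_beq_eq_true h3,
    Nat.eq_of_beq_eq_true h4⟩

theorem chC_spec {m : ℕ} (hm : m < 32) :
    cs m 0 = Q0 (bt 0 m) (bt 1 m) (bt 2 m) (bt 3 m) (bt 4 m) 0 0 0 0 0 0 0 0 0 0 ∧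
    cs m 1 = Q1 (bt 0 m) (bt 1 m) (bt 2 m) (bt 3 m) (bt 4 m) 0 0 0 0 0 0 0 0 0 0 ∧
    cs m 2 = Q2 (bt 0 m) (bt 1 m) (bt 2 m) (bt 3 m) (bt 4 m) 0 0 0 0 0 0 0 0 0 0 ∧
    cs m 3 = Q3 (bt 0 m) (bt 1 m) (bt 2 m) (bt 3 m) (bt 4 m) 0 0 0 0 0 0 0 0 0 0 ∧
    cs m 4 = Q4 (bt 0 m) (bt 1 m) (bt 2 m) (bt 3 m) (bt 4 m) 0 0 0 0 0 0 0 0 0 0 := by
  have h := al_true tabC m hm
  unfold chC5 at h
  obtain ⟨h0, h⟩ := cnd_false h
  obtain ⟨h1, h⟩ := cnd_false h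
  obtain ⟨h2, h⟩ := cnd_false h
  obtain ⟨h3, h4⟩ := cnd_false h
  exact ⟨Nat.eq_of_beq_eq_true h0, Nat.eq_of_beq_eq_true h1, Nat.eq_of_beq_eq_true h2, Nat.eq_of_beq_eq_true h3,
    Nat.eq_of_beq_eq_true h4⟩

theorem qc_spec {b0 b1 b2 b3 b4 e01 e02 e03 e04 e12 e13 e14 e23 e24 e34 : ℕ} (hb0 : b0 < 2) (hb1 : b1 < 2) (hb2 : b2 < 2) (hb3 : b3 < 2) (hb4 : b4 < 2) (he01 : e01 < 2) (he02 : e02 < 2) (he03 : e03 < 2) (he04 : e04 < 2) (he12 : e12 < 2) (he13 : e13 < 2) (he14 : e14 < 2) (he23 : e23 < 2) (he24 : e24 < 2) (he34 : e34 < 2) :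
    Nat.add (q0 (cl e01 e02 e03 e04 e12 e13 e14 e23 e24 e34)) (cs (cm b0 b1 b2 b3 b4) 0) = Q0 b0 b1 b2 b3 b4 e01 e02 e03 e04 e12 e13 e14 e23 e24 e34 ∧
    Nat.add (q1 (cl e01 e02 e03 e04 e12 e13 e14 e23 e24 e34)) (cs (cm b0 b1 b2 b3 b4) 1) = Q1 b0 b1 b2 b3 b4 e01 e02 e03 e04 e12 e13 e14 e23 e24 e34 ∧
    Nat.add (q2 (cl e01 e02 e03 e04 e12 e13 e14 e23 e24 e34)) (cs (cm b0 b1 b2 b3 b4) 2) = Q2 b0 b1 b2 b3 b4 e01 e02 e03 e04 e12 e13 e14 e23 e24 e34 ∧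
    Nat.add (q3 (cl e01 e02 e03 e04 e12 e13 e14 e23 e24 e34)) (cs (cm b0 b1 b2 b3 b4) 3) = Q3 b0 b1 b2 b3 b4 e01 e02 e03 e04 e12 e13 e14 e23 e24 e34 ∧
    Nat.add (q4 (cl e01 e02 e03 e04 e12 e13 e14 e23 e24 e34)) (cs (cm b0 b1 b2 b3 b4) 4) = Q4 b0 b1 b2 b3 b4 e01 e02 e03 e04 e12 e13 e14 e23 e24 e34 := by
  have hl := cl_lt he01 he02 he03 he04 he12 he13 he14 he23 he24 he34
  have hm := cm_lt hb0 hb1 hb2 hb3 hb4
  obtain ⟨u0, u1, u2, u3, u4⟩ := chQ_spec hl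
  obtain ⟨v0, v1, v2, v3, v4⟩ := chC_spec hm
  simp only [bt0_cl he01 he02 he03 he04 he12 he13 he14 he23 he24 he34, bt1_cl he01 he02 he03 he04 he12 he13 he14 he23 he24 he34, bt2_cl he01 he02 he03 he04 he12 he13 he14 he23 he24 he34, bt3_cl he01 he02 he03 he04 he12 he13 he14 he23 he24 he34, bt4_cl he01 he02 he03 he04 he12 he13 he14 he23 he24 he34, bt5_cl he01 he02 he03 he04 he12 he13 he14 he23 he24 he34, bt6_cl he01 he02 he03 he04 he12 he13 he14 he23 he24 he34, bt7_cl he01 he02 he03 he04 he12 he13 he14 he23 he24 he34, bt8_cl he01 he02 he03 he04 he12 he13 he14 he23 he24 he34, bt9_cl he01 he02 he03 he04 he12 he13 he14 he23 he24 he34] at u0 u1 u2 u3 u4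
  simp only [bt0_cm hb0 hb1 hb2 hb3 hb4, bt1_cm hb0 hb1 hb2 hb3 hb4, bt2_cm hb0 hb1 hb2 hb3 hb4, bt3_cm hb0 hb1 hb2 hb3 hb4, bt4_cm hb0 hb1 hb2 hb3 hb4] at v0 v1 v2 v3 v4
  simp only [Nat.add_eq]
  refine ⟨?_, ?_, ?_, ?_, ?_⟩
  · rw [u0, v0]; unfold Q0 cm cl; ring
  · rw [u1, v1]; unfold Q1 cm cl; ring
  · rw [u2, v2]; unfold Q2 cm cl; ring
  · rw [u3, v3]; unfold Q3 cm cl; ring
  · rw [u4, v4]; unfold Q4 cm cl; ring

theorem chL_spec {l : ℕ} (hl : l < 1024) :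
    pc l = bt 0 l + bt 1 l + bt 2 l + bt 3 l + bt 4 l + bt 5 l + bt 6 l + bt 7 l + bt 8 l + bt 9 l ∧
    bt 0 l + bt 1 l + bt 2 l + bt 3 l ≤ 4 * Nat.land l 15 ∧
    bt 0 l + bt 4 l + bt 5 l + bt 6 l ≤ 4 * Nat.land l 113 ∧
    bt 1 l + bt 4 l + bt 7 l + bt 8 l ≤ 4 * Nat.land l 402 ∧
    bt 2 l + bt 5 l + bt 7 l + bt 9 l ≤ 4 * Nat.land l 676 ∧
    bt 3 l + bt 6 l + bt 8 l + bt 9 l ≤ 4 * Nat.land l 840 := by
  have h := al_true tabL l hl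
  unfold chL at h
  obtain ⟨h0, h⟩ := cnd_false h
  obtain ⟨h1, h⟩ := cnd_false h
  obtain ⟨h2, h⟩ := cnd_false h
  obtain ⟨h3, h⟩ := cnd_false h
  obtain ⟨h4, h5⟩ := cnd_false h
  exact ⟨Nat.eq_of_beq_eq_true h0, Nat.le_of_ble_eq_true h1, Nat.le_of_ble_eq_true h2, Nat.le_of_ble_eq_true h3,
    Nat.le_of_ble_eq_true h4, Nat.le_of_ble_eq_true h5⟩

theorem cnd_mk {c x : Bool} (h1 : c = true) (h2 : x = true) : cnd c x false = true := by subst h1; exact h2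

theorem pc_cl {e01 e02 e03 e04 e12 e13 e14 e23 e24 e34 : ℕ} (he01 : e01 < 2) (he02 : e02 < 2) (he03 : e03 < 2) (he04 : e04 < 2) (he12 : e12 < 2) (he13 : e13 < 2) (he14 : e14 < 2) (he23 : e23 < 2) (he24 : e24 < 2) (he34 : e34 < 2) :
    pc (cl e01 e02 e03 e04 e12 e13 e14 e23 e24 e34) = e01 + e02 + e03 + e04 + e12 + e13 + e14 + e23 + e24 + e34 := by
  have h := (chL_spec (cl_lt he01 he02 he03 he04 he12 he13 he14 he23 he24 he34)).1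
  simp only [bt0_cl he01 he02 he03 he04 he12 he13 he14 he23 he24 he34, bt1_cl he01 he02 he03 he04 he12 he13 he14 he23 he24 he34, bt2_cl he01 he02 he03 he04 he12 he13 he14 he23 he24 he34, bt3_cl he01 he02 he03 he04 he12 he13 he14 he23 he24 he34, bt4_cl he01 he02 he03 he04 he12 he13 he14 he23 he24 he34, bt5_cl he01 he02 he03 he04 he12 he13 he14 he23 he24 he34, bt6_cl he01 he02 he03 he04 he12 he13 he14 he23 he24 he34, bt7_cl he01 he02 he03 he04 he12 he13 he14 he23 he24 he34, bt8_cl he01 he02 he03 he04 he12 he13 he14 he23 he24 he34, bt9_cl he01 he02 he03 he04 he12 he13 he14 he23 he24 he34] at h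
  exact h

theorem okl_spec {b0 b1 b2 b3 b4 e01 e02 e03 e04 e12 e13 e14 e23 e24 e34 : ℕ} (hb0 : b0 < 2) (hb1 : b1 < 2) (hb2 : b2 < 2) (hb3 : b3 < 2) (hb4 : b4 < 2) (he01 : e01 < 2) (he02 : e02 < 2) (he03 : e03 < 2) (he04 : e04 < 2) (he12 : e12 < 2) (he13 : e13 < 2) (he14 : e14 < 2) (he23 : e23 < 2) (he24 : e24 < 2) (he34 : e34 < 2)
    (c0 : 1 ≤ b0 + (e01 + e02 + e03 + e04))
    (c1 : 1 ≤ b1 + (e01 + e12 + e13 + e14))
    (c2 : 1 ≤ b2 + (e02 + e12 + e23 + e24))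
    (c3 : 1 ≤ b3 + (e03 + e13 + e23 + e34))
    (c4 : 1 ≤ b4 + (e04 + e14 + e24 + e34))
    : okl (cm b0 b1 b2 b3 b4) (cl e01 e02 e03 e04 e12 e13 e14 e23 e24 e34) = true := by
  obtain ⟨_, u0, u1, u2, u3, u4⟩ := chL_spec (cl_lt he01 he02 he03 he04 he12 he13 he14 he23 he24 he34)
  simp only [bt0_cl he01 he02 he03 he04 he12 he13 he14 he23 he24 he34, bt1_cl he01 he02 he03 he04 he12 he13 he14 he23 he24 he34, bt2_cl he01 he02 he03 he04 he12 he13 he14 he23 he24 he34, bt3_cl he01 he02 he03 he04 he12 he13 he14 he23 he24 he34, bt4_cl he01 he02 he03 he04 he12 he13 he14 he23 he24 he34, bt5_cl he01 he02 he03 he04 he12 he13 he14 he23 he24 he34, bt6_cl he01 he02 he03 he04 he12 he13 he14 he23 he24 he34, bt7_cl he01 he02 he03 he04 he12 he13 he14 he23 he24 he34, bt8_cl he01 he02 he03 he04 he12 he13 he14 he23 he24 he34, bt9_cl he01 he02 he03 he04 he12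 he13 he14 he23 he24 he34] at u0 u1 u2 u3 u4
  unfold okl
  simp only [bt0_cm hb0 hb1 hb2 hb3 hb4, bt1_cm hb0 hb1 hb2 hb3 hb4, bt2_cm hb0 hb1 hb2 hb3 hb4, bt3_cm hb0 hb1 hb2 hb3 hb4, bt4_cm hb0 hb1 hb2 hb3 hb4, Nat.add_eq]
  refine cnd_mk (Nat.ble_eq_true_of_le (by omega)) (cnd_mk (Nat.ble_eq_true_of_le (by omega))
    (cnd_mk (Nat.ble_eq_true_of_le (by omega)) (cnd_mk (Nat.ble_eq_true_of_le (by omega))
    (Nat.ble_eq_true_of_le (by omega)))))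

theorem cnd_t {α : Type} (x y : α) : cnd true x y = x := rfl

theorem cc_lt (m : ℕ) : cc m < 68719476736 := Nat.mod_lt _ (by norm_num)

theorem dot_lt (a b : ℕ) : dot a b < 68719476736 := Nat.mod_lt _ (by norm_num)

theorem dt_lt (c d : ℕ) : dt c d < 68719476736 := dot_lt _ _

theorem chZ_spec {m l : ℕ} (hm : m < 32) (hl : l < 1024) : chZ m l = true := by
  rcases Nat.lt_or_ge m 8 with h | h
  · exact al_true (al_true tabZ0 m h) l hl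
  rcases Nat.lt_or_ge m 16 with h' | h'
  · have h1 := al_true tabZ1 (m - 8) (by omega)
    simp only [st_eq] at h1
    have e : Nat.add 8 (m - 8) = m := by
      show 8 + (m - 8) = m
      omega
    rw [e] at h1
    exact al_true h1 l hl
  rcases Nat.lt_or_ge m 24 with h'' | h''
  · have h1 := al_true tabZ2 (m - 16) (by omega)
    simp only [st_eq] at h1
    have e : Nat.add 16 (m - 16) = m := by
      show 16 + (m - 16) = m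
      omega
    rw [e] at h1
    exact al_true h1 l hl
  · have h1 := al_true tabZ3 (m - 24) (by omega)
    simp only [st_eq] at h1
    have e : Nat.add 24 (m - 24) = m := by
      show 24 + (m - 24) = m
      omega
    rw [e] at h1
    exact al_true h1 l hl

/-- the diagonal values -/
def dg0 (c : ℕ) : ℤ := (cc (c % 32) : ℤ) - (dt c c : ℤ)

theorem zt_spec {b0 b1 b2 b3 b4 e01 e02 e03 e04 e12 e13 e14 e23 e24 e34 : ℕ} (hb0 : b0 < 2) (hb1 : b1 < 2) (hb2 : b2 < 2) (hb3 : b3 < 2) (hb4 : b4 < 2) (he01 : e01 < 2) (he02 : e02 < 2) (he03 : e03 < 2) (he04 : e04 < 2) (he12 : e12 < 2) (he13 : e13 < 2) (he14 : e14 < 2) (he23 : e23 < 2) (he24 : e24 < 2) (he34 : e34 < 2) :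
    274877906944 ≤ zt (cm b0 b1 b2 b3 b4) (cl e01 e02 e03 e04 e12 e13 e14 e23 e24 e34) ∧
    (zt (cm b0 b1 b2 b3 b4) (cl e01 e02 e03 e04 e12 e13 e14 e23 e24 e34) : ℤ) = 549755813888 + (dg0 (Q0 b0 b1 b2 b3 b4 e01 e02 e03 e04 e12 e13 e14 e23 e24 e34) + dg0 (Q1 b0 b1 b2 b3 b4 e01 e02 e03 e04 e12 e13 e14 e23 e24 e34) + dg0 (Q2 b0 b1 b2 b3 b4 e01 e02 e03 e04 e12 e13 e14 e23 e24 e34) + dg0 (Q3 b0 b1 b2 b3 b4 e01 e02 e03 e04 e12 e13 e14 e23 e24 e34) + dg0 (Q4 b0 b1 b2 b3 b4 e01 e02 e03 e04 e12 e13 e14 e23 e24 e34)) := by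
  have hl := cl_lt he01 he02 he03 he04 he12 he13 he14 he23 he24 he34
  have hm := cm_lt hb0 hb1 hb2 hb3 hb4
  have h := chZ_spec hm hl
  obtain ⟨u0, u1, u2, u3, u4⟩ := qc_spec hb0 hb1 hb2 hb3 hb4 he01 he02 he03 he04 he12 he13 he14 he23 he24 he34
  unfold chZ at h
  simp only [st_eq, u0, u1, u2, u3, u4] at h
  obtain ⟨h1, h2⟩ := cnd_false h
  refine ⟨Nat.le_of_ble_eq_true h1, ?_⟩
  have h3 := Nat.eq_of_beq_eq_true h2
  simp only [Nat.add_eq] at h3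
  unfold dg0
  have e : ∀ c, Nat.mod c 32 = c % 32 := fun _ => rfl
  simp only [e] at h3
  zify at h3
  linarith

theorem dg0_eq {m l : ℕ} (hm : m < 32) : dg0 (m + 32 * l) = psi m l l := by
  unfold dg0 psi
  rw [show (m + 32 * l) % 32 = m by omega]

theorem tm_eq {m l l' : ℕ} (hm : m < 32) : (tm (m + 32 * l) (m + 32 * l') : ℤ) = psi m l l' + 68719476736 := by
  unfold tm psi
  have e : Nat.mod (m + 32 * l) 32 = m := by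
    show (m + 32 * l) % 32 = m
    omega
  rw [e]
  simp only [Nat.add_eq, Nat.sub_eq]
  have h := dt_lt (m + 32 * l) (m + 32 * l')
  generalize dt (m + 32 * l) (m + 32 * l') = D at *
  generalize cc m = C at *
  rw [Nat.cast_sub (by omega)]
  push_cast
  ring

/-- the value of `gv` for codes that are not excluded -/
theorem gv_eq {m a dl l : ℕ} (h1 : okl m l = true) (h2 : pc l ≤ dl) (h3 : 274877906944 ≤ zt m l) :
    (gv m a dl l : ℤ) = (zt m l : ℤ) + 2 * psi m a l := by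
  unfold gv psi
  have e1 : Nat.ble (pc l) dl = true := Nat.ble_eq_true_of_le h2
  rw [h1, e1, cnd_t, cnd_t]
  simp only [Nat.add_eq, Nat.sub_eq, Nat.mul_eq]
  have h := dt_lt (m + 32 * a) (m + 32 * l)
  generalize dt (m + 32 * a) (m + 32 * l) = D at *
  generalize cc m = C at *
  generalize zt m l = Z at *
  rw [Nat.cast_sub (by omega)]
  push_cast
  ring

theorem p0_spec {w : ℕ} (hw : w < 1024) : p0 w = (bt 0 w + 2 * bt 4 w + 4 * bt 5 w + 8 * bt 6 w) + 1024 * (bt 1 w + 2 * bt 4 w + 4 * bt 7 w + 8 * bt 8 w) +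
    1048576 * (bt 2 w + 2 * bt 5 w + 4 * bt 7 w + 8 * bt 9 w) +
    1073741824 * (bt 3 w + 2 * bt 6 w + 4 * bt 8 w + 8 * bt 9 w) :=
  Nat.eq_of_beq_eq_true (al_true tabP0 w hw)

theorem p1_spec {w : ℕ} (hw : w < 64) : p1 w = (16 * bt 0 w + 32 * bt 1 w + 64 * bt 2 w) + 1024 * (16 * bt 0 w + 32 * bt 3 w + 64 * bt 4 w) +
    1048576 * (16 * bt 1 w + 32 * bt 3 w + 64 * bt 5 w) + 1073741824 * (16 * bt 2 w + 32 * bt 4 w + 64 * bt 5 w) :=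
  Nat.eq_of_beq_eq_true (al_true tabP1 w hw)

theorem p2_spec {w : ℕ} (hw : w < 8) : p2 w = (128 * bt 0 w + 256 * bt 1 w + 512 * bt 2 w) + 1024 * (128 * bt 0 w + 256 * bt 1 w) +
    1048576 * (128 * bt 0 w + 256 * bt 2 w) + 1073741824 * (128 * bt 1 w + 256 * bt 2 w) :=
  Nat.eq_of_beq_eq_true (al_true tabP2 w hw)

end Pool.Agent.N465.L2
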