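import Pool.Agent.N465.L2.Stm

/-!
# Parts NON and CDG of project L2

The non-edge function of a `K_5^4`-free family is symmetric and covering; the sum of the squares of
the codegrees in terms of the numbers `p5`.
-/

set_option autoImplicit false

open Finset

namespace Pool.Agent.N465.L2

namespace CDGAux

variable {n : ℕ}

theorem card4 {a b c d : Fin n} (h : ({a, b, c, d} : Finset (Fin n)).card = 4) :
    a ≠ b ∧ a ≠ c ∧ a ≠ d ∧ b ≠ c ∧ b ≠ d ∧ c ≠ d := by
  have key : ∀ x y z : Fin n, ({a, b, c, d} : Finset (Fin n)) ⊆ {x, y, z} → False := by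
    intro x y z hs
    have h1 := Finset.card_le_card hs
    have h2 : ({x, y, z} : Finset (Fin n)).card ≤ 3 := Finset.card_le_three
    omega
  refine ⟨?_, ?_, ?_, ?_, ?_, ?_⟩
  · rintro rfl
    refine key a c d fun t ht => ?_
    simp only [mem_insert, mem_singleton] at ht ⊢
    tauto
  · rintro rfl
    refine key a b d fun t ht => ?_
    simp only [mem_insert, mem_singleton] at ht ⊢
    tauto
  · rintro rfl
    refine key a b c fun t ht => ?_
    simp only [mem_insert, mem_singleton] at ht ⊢
    tauto
  · rintro rfl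
    refine key a b d fun t ht => ?_
    simp only [mem_insert, mem_singleton] at ht ⊢
    tauto
  · rintro rfl
    refine key a b c fun t ht => ?_
    simp only [mem_insert, mem_singleton] at ht ⊢
    tauto
  · rintro rfl
    refine key a b c fun t ht => ?_
    simp only [mem_insert, mem_singleton] at ht ⊢
    tauto

theorem non_mem {G : Finset (Finset (Fin n))} {a b c d : Fin n} (h : non G a b c d = 0) :
    ({a, b, c, d} : Finset (Fin n)) ∈ G := by
  unfold non at h
  by_contra hc
  rw [if_neg hc] at h
  exact one_ne_zero h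

/-- the edge function -/
def ed (G : Finset (Finset (Fin n))) (a b c d : Fin n) : ℕ :=
  if ({a, b, c, d} : Finset (Fin n)) ∈ G then 1 else 0

theorem ed_s0 (G : Finset (Finset (Fin n))) (a b c d : Fin n) : ed G b a c d = ed G a b c d := by
  unfold ed
  rw [insert_comm]

theorem ed_s1 (G : Finset (Finset (Fin n))) (a b c d : Fin n) : ed G a c b d = ed G a b c d := by
  unfold ed
  rw [insert_comm c b]

theorem ed_s2 (G : Finset (Finset (Fin n))) (a b c d : Fin n) : ed G a b d c = ed G a b c d := by
  unfold ed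
  rw [pair_comm d c]

theorem ed_le (G : Finset (Finset (Fin n))) (a b c d : Fin n) : ed G a b c d ≤ 1 := by
  unfold ed
  split_ifs <;> omega

theorem non_eq (G : Finset (Finset (Fin n))) (a b c d : Fin n) :
    non G a b c d = 1 - ed G a b c d := by
  unfold non ed
  split_ifs <;> rfl

/-- the sum over all 5-tuples -/
def S5 (Q : Fin n → Fin n → Fin n → Fin n → Fin n → ℕ) : ℕ :=
  ∑ a, ∑ b, ∑ c, ∑ d, ∑ e, Q a b c d e

theorem S5_01 (Q : Fin n → Fin n → Fin n → Fin n → Fin n → ℕ) :
    S5 (fun a b c d e => Q b a c d e) = S5 Q := by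
  unfold S5
  exact sum_comm

theorem S5_12 (Q : Fin n → Fin n → Fin n → Fin n → Fin n → ℕ) :
    S5 (fun a b c d e => Q a c b d e) = S5 Q := by
  unfold S5
  refine sum_congr rfl fun a _ => ?_
  exact sum_comm

theorem S5_23 (Q : Fin n → Fin n → Fin n → Fin n → Fin n → ℕ) :
    S5 (fun a b c d e => Q a b d c e) = S5 Q := by
  unfold S5
  refine sum_congr rfl fun a _ => sum_congr rfl fun b _ => ?_
  exact sum_comm

theorem S5_34 (Q : Fin n → Fin n → Fin n → Fin n → Fin n → ℕ) :
    S5 (fun a b c d e => Q a b c e d) = S5 Q := by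
  unfold S5
  refine sum_congr rfl fun a _ => sum_congr rfl fun b _ => sum_congr rfl fun c _ => ?_
  exact sum_comm

theorem S5_add (Q R : Fin n → Fin n → Fin n → Fin n → Fin n → ℕ) :
    S5 (fun a b c d e => Q a b c d e + R a b c d e) = S5 Q + S5 R := by
  unfold S5
  simp only [sum_add_distrib]

theorem S5_mul (k : ℕ) (Q : Fin n → Fin n → Fin n → Fin n → Fin n → ℕ) :
    S5 (fun a b c d e => k * Q a b c d e) = k * S5 Q := by
  unfold S5
  simp only [mul_sum]

theorem p5_eq (E : Fin n → Fin n → Fin n → Fin n → ℕ) (k : ℕ) :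
    p5 E k = S5 (fun a b c d e => if kC5 E a b c d e = k then 1 else 0) := by
  unfold p5 S5
  rw [card_filter]
  simp only [Fintype.sum_prod_type]

theorem pw (t0 t1 t2 t3 t4 : ℕ) (h0 : t0 ≤ 1) (h1 : t1 ≤ 1) (h2 : t2 ≤ 1) (h3 : t3 ≤ 1)
    (h4 : t4 ≤ 1) (h : 1 ≤ (1 - t0) + (1 - t1) + (1 - t2) + (1 - t3) + (1 - t4)) :
    t0 * t1 + t0 * t2 + t0 * t3 + t0 * t4 + t1 * t2 + t1 * t3 + t1 * t4 + t2 * t3 + t2 * t4 +
      t3 * t4 = 6 * (if (1 - t0) + (1 - t1) + (1 - t2) + (1 - t3) + (1 - t4) = 1 then 1 else 0) +
      3 * (if (1 - t0) + (1 - t1) + (1 - t2) + (1 - t3) + (1 - t4) = 2 then 1 else 0) +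
      (if (1 - t0) + (1 - t1) + (1 - t2) + (1 - t3) + (1 - t4) = 3 then 1 else 0) := by
  revert h
  interval_cases t0 <;> interval_cases t1 <;> interval_cases t2 <;> interval_cases t3 <;>
    interval_cases t4 <;> decide

theorem pw2 (K : ℕ) (h1 : 1 ≤ K) (h5 : K ≤ 5) : (if K = 1 then 1 else 0) + (if K = 2 then 1 else 0) +
    (if K = 3 then 1 else 0) + (if K = 4 then 1 else 0) + (if K = 5 then 1 else 0) = 1 := by
  interval_cases K <;> rfl

/-- the sum of the squares -/
def TT (G : Finset (Finset (Fin n))) : ℕ := S5 (fun a b c d e => ed G a b c e * ed G a b c d)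

section pairs

variable (G : Finset (Finset (Fin n)))

theorem q24 : S5 (fun a b c d e => ed G a b d e * ed G a b c d) = TT G := by
  unfold TT
  rw [← S5_23]
  simp only [ed_s2 G]

theorem q14 : S5 (fun a b c d e => ed G a c d e * ed G a b c d) = TT G := by
  rw [← q24, ← S5_12]
  refine congrArg S5 ?_
  funext a b c d e
  rw [ed_s1 G a b c d]

theorem q04 : S5 (fun a b c d e => ed G b c d e * ed G a b c d) = TT G := by
  rw [← q14, ← S5_01]
  refine congrArg S5 ?_
  funext a b c d e
  rw [ed_s0 G a b c d]

theorem q03 : S5 (fun a b c d e => ed G b c d e * ed G a b c e) = TT G := by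
  rw [← q04, ← S5_34]
  refine congrArg S5 ?_
  funext a b c d e
  rw [ed_s2 G b c d e]

theorem q02 : S5 (fun a b c d e => ed G b c d e * ed G a b d e) = TT G := by
  rw [← q03, ← S5_23]
  refine congrArg S5 ?_
  funext a b c d e
  rw [ed_s1 G b c d e]

theorem q01 : S5 (fun a b c d e => ed G b c d e * ed G a c d e) = TT G := by
  rw [← q02, ← S5_12]
  refine congrArg S5 ?_
  funext a b c d e
  rw [ed_s0 G b c d e]

theorem q13 : S5 (fun a b c d e => ed G a c d e * ed G a b c e) = TT G := by
  rw [← q14, ← S5_34]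
  refine congrArg S5 ?_
  funext a b c d e
  rw [ed_s2 G a c d e]

theorem q12 : S5 (fun a b c d e => ed G a c d e * ed G a b d e) = TT G := by
  rw [← q13, ← S5_23]
  refine congrArg S5 ?_
  funext a b c d e
  rw [ed_s1 G a c d e]

theorem q23 : S5 (fun a b c d e => ed G a b d e * ed G a b c e) = TT G := by
  rw [← q24, ← S5_34]
  refine congrArg S5 ?_
  funext a b c d e
  rw [ed_s2 G a b d e]

end pairs

theorem sum_ed {G : Finset (Finset (Fin n))} (hG : ∀ s ∈ G, s.card = 4) (a b c : Fin n) :
    ∑ x, ed G a b c x = if ({a, b, c} : Finset (Fin n)).card = 3 then codeg G {a, b, c} else 0 := by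
  split_ifs with h
  · unfold ed codeg
    rw [← card_filter]
    refine Finset.card_bij (fun d _ => ({a, b, c, d} : Finset (Fin n))) ?_ ?_ ?_
    · intro d hd
      rw [mem_filter] at hd ⊢
      refine ⟨hd.2, ?_⟩
      intro z hz
      simp only [mem_insert, mem_singleton] at hz ⊢
      tauto
    · intro d hd d' hd' he
      rw [mem_filter] at hd hd'
      obtain ⟨-, -, h1, -, h2, h3⟩ := card4 (hG _ hd.2)
      have hm : d ∈ ({a, b, c, d'} : Finset (Fin n)) := by rw [← he]; simp
      simp only [mem_insert, mem_singleton] at hm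
      rcases hm with hm | hm | hm | hm
      · exact absurd hm.symm h1
      · exact absurd hm.symm h2
      · exact absurd hm.symm h3
      · exact hm
    · intro s hs
      rw [mem_filter] at hs
      obtain ⟨hs, hsub⟩ := hs
      have h1 : (s \ {a, b, c}).card = 1 := by
        rw [card_sdiff_of_subset hsub, hG s hs, h]
      obtain ⟨d, hd⟩ := Finset.card_eq_one.mp h1
      have h2 : ({a, b, c, d} : Finset (Fin n)) = s := by
        have h4 : s = {a, b, c} ∪ (s \ {a, b, c}) := (union_sdiff_of_subset hsub).symm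
        rw [h4, hd]
        ext z
        simp only [mem_insert, mem_singleton, mem_union]
        tauto
      exact ⟨d, mem_filter.mpr ⟨mem_univ _, h2 ▸ hs⟩, h2⟩
  · refine sum_eq_zero fun x _ => ?_
    unfold ed
    rw [if_neg]
    intro hx
    obtain ⟨h1, h2, -, h3, -, -⟩ := card4 (hG _ hx)
    exact h (Finset.card_eq_three.2 ⟨a, b, c, h1, h2, h3, rfl⟩)

theorem sum_triples (g : Finset (Fin n) → ℕ) :
    ∑ a, ∑ b, ∑ c, (if ({a, b, c} : Finset (Fin n)).card = 3 then g {a, b, c} else 0) =
      6 * ∑ P ∈ (univ : Finset (Fin n)).powersetCard 3, g P := by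
  have e1 : ∑ a, ∑ b, ∑ c, (if ({a, b, c} : Finset (Fin n)).card = 3 then g {a, b, c} else 0) =
      ∑ t : Fin n × Fin n × Fin n,
        (if ({t.1, t.2.1, t.2.2} : Finset (Fin n)).card = 3 then g {t.1, t.2.1, t.2.2} else 0) := by
    simp only [Fintype.sum_prod_type]
  rw [e1, ← sum_filter, ← Finset.sum_fiberwise_of_maps_to
    (t := (univ : Finset (Fin n)).powersetCard 3)
    (g := fun t : Fin n × Fin n × Fin n => ({t.1, t.2.1, t.2.2} : Finset (Fin n)))]
  · rw [mul_sum]
    refine sum_congr rfl fun P hP => ?_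
    rw [mem_powersetCard] at hP
    obtain ⟨u, v, w, huv, huw, hvw, rfl⟩ := Finset.card_eq_three.mp hP.2
    have h1 : ((univ.filter fun t : Fin n × Fin n × Fin n =>
        ({t.1, t.2.1, t.2.2} : Finset (Fin n)).card = 3).filter
        fun t => ({t.1, t.2.1, t.2.2} : Finset (Fin n)) = {u, v, w}) =
        {(u, v, w), (u, w, v), (v, u, w), (v, w, u), (w, u, v), (w, v, u)} := by
      ext ⟨a, b, c⟩
      simp only [mem_filter, mem_univ, true_and, mem_insert, mem_singleton, Prod.mk.injEq]
      constructor
      · rintro ⟨h0, h⟩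
        have ha : a ∈ ({u, v, w} : Finset (Fin n)) := by rw [← h]; simp
        have hb : b ∈ ({u, v, w} : Finset (Fin n)) := by rw [← h]; simp
        have hc : c ∈ ({u, v, w} : Finset (Fin n)) := by rw [← h]; simp
        have hab : a ≠ b := by
          rintro rfl
          have : ({a, a, c} : Finset (Fin n)).card ≤ 2 := by
            rw [insert_idem]
            exact card_le_two
          omega
        have hac : a ≠ c := by
          rintro rfl
          have : ({a, b, a} : Finset (Fin n)).card ≤ 2 := by
            rw [insert_comm, pair_eq_singleton]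
            exact card_le_two
          omega
        have hbc : b ≠ c := by
          rintro rfl
          have : ({a, b, b} : Finset (Fin n)).card ≤ 2 := by
            rw [pair_eq_singleton]
            exact card_le_two
          omega
        simp only [mem_insert, mem_singleton] at ha hb hc
        rcases ha with rfl | rfl | rfl <;> rcases hb with rfl | rfl | rfl <;>
          rcases hc with rfl | rfl | rfl <;> simp_all
      · have hcard : ({u, v, w} : Finset (Fin n)).card = 3 := hP.2
        have f1 : ({u, w, v} : Finset (Fin n)) = {u, v, w} := by rw [pair_comm]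
        have f2 : ({v, u, w} : Finset (Fin n)) = {u, v, w} := by rw [insert_comm]
        have f3 : ({v, w, u} : Finset (Fin n)) = {u, v, w} := by rw [pair_comm w u, insert_comm]
        have f4 : ({w, u, v} : Finset (Fin n)) = {u, v, w} := by rw [insert_comm, pair_comm w v]
        have f5 : ({w, v, u} : Finset (Fin n)) = {u, v, w} := by
          rw [pair_comm v u]; exact f4
        rintro (⟨rfl, rfl, rfl⟩ | ⟨rfl, rfl, rfl⟩ | ⟨rfl, rfl, rfl⟩ | ⟨rfl, rfl, rfl⟩ |
          ⟨rfl, rfl, rfl⟩ | ⟨rfl, rfl, rfl⟩)
        · exact ⟨hcard, rfl⟩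
        · rw [f1]; exact ⟨hcard, rfl⟩
        · rw [f2]; exact ⟨hcard, rfl⟩
        · rw [f3]; exact ⟨hcard, rfl⟩
        · rw [f4]; exact ⟨hcard, rfl⟩
        · rw [f5]; exact ⟨hcard, rfl⟩
    have h2 : ∀ t ∈ ((univ.filter fun t : Fin n × Fin n × Fin n =>
        ({t.1, t.2.1, t.2.2} : Finset (Fin n)).card = 3).filter
        fun t => ({t.1, t.2.1, t.2.2} : Finset (Fin n)) = {u, v, w}),
        g ({t.1, t.2.1, t.2.2} : Finset (Fin n)) = g {u, v, w} := by
      intro t ht
      rw [mem_filter] at ht
      rw [ht.2]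
    rw [sum_congr rfl h2, sum_const, h1, smul_eq_mul]
    congr 1
    have huv' := huv.symm
    have huw' := huw.symm
    have hvw' := hvw.symm
    rw [card_insert_of_notMem, card_insert_of_notMem, card_insert_of_notMem,
      card_insert_of_notMem, card_insert_of_notMem, card_singleton] <;>
      simp [huv, huw, hvw, huv', huw', hvw']
  · intro t ht
    rw [mem_filter] at ht
    rw [mem_powersetCard]
    exact ⟨subset_univ _, ht.2⟩

theorem TT_eq {G : Finset (Finset (Fin n))} (hG : ∀ s ∈ G, s.card = 4) :
    TT G = 6 * ∑ P ∈ (univ : Finset (Fin n)).powersetCard 3, (codeg G P) ^ 2 := by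
  rw [← sum_triples fun P => (codeg G P) ^ 2]
  unfold TT S5
  refine sum_congr rfl fun a _ => sum_congr rfl fun b _ => sum_congr rfl fun c _ => ?_
  have h1 : ∑ d, ∑ e, ed G a b c e * ed G a b c d = (∑ x, ed G a b c x) ^ 2 := by
    rw [sq, sum_mul_sum]
    refine sum_congr rfl fun d _ => sum_congr rfl fun e _ => mul_comm _ _
  rw [h1, sum_ed hG]
  split_ifs
  · rfl
  · rfl

end CDGAux

open CDGAux

theorem goal_NON : Goal_NON := by
  intro n G hG hK
  refine ⟨⟨?_, ?_, ?_, ?_⟩, ?_⟩
  · intro a b c d
    unfold non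
    split_ifs
    · exact Or.inl rfl
    · exact Or.inr rfl
  · intro a b c d
    rw [non_eq, non_eq, ed_s0]
  · intro a b c d
    rw [non_eq, non_eq, ed_s1]
  · intro a b c d
    rw [non_eq, non_eq, ed_s2]
  · intro a b c d e
    by_contra hcon
    have h0 := non_mem (G := G) (a := b) (b := c) (c := d) (d := e) (by omega)
    have h1 := non_mem (G := G) (a := a) (b := c) (c := d) (d := e) (by omega)
    have h2 := non_mem (G := G) (a := a) (b := b) (c := d) (d := e) (by omega)
    have h3 := non_mem (G := G) (a := a) (b := b) (c := c) (d := e) (by omega)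
    have h4 := non_mem (G := G) (a := a) (b := b) (c := c) (d := d) (by omega)
    obtain ⟨ab, ac, ad, bc, bd, cd⟩ := card4 (hG _ h4)
    obtain ⟨-, -, be, -, ce, de⟩ := card4 (hG _ h0)
    obtain ⟨-, -, ae, -, -, -⟩ := card4 (hG _ h1)
    have hS : ({a, b, c, d, e} : Finset (Fin n)).card = 5 := by
      rw [card_insert_of_notMem (by simp [ab, ac, ad, ae]), hG _ h0]
    obtain ⟨s, hs, hs4, hsG⟩ := hK _ hS
    have hd1 : (({a, b, c, d, e} : Finset (Fin n)) \ s).card = 1 := by
      rw [card_sdiff_of_subset hs, hS, hs4]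
    obtain ⟨x, hx⟩ := Finset.card_eq_one.mp hd1
    have hxs : ∀ z, z ∈ s ↔ z ∈ ({a, b, c, d, e} : Finset (Fin n)) ∧ z ≠ x := by
      intro z
      constructor
      · intro hz
        refine ⟨hs hz, ?_⟩
        rintro rfl
        have : z ∈ ({a, b, c, d, e} : Finset (Fin n)) \ s := by rw [hx]; simp
        exact (mem_sdiff.1 this).2 hz
      · rintro ⟨hz, hne⟩
        by_contra hzs
        have : z ∈ ({a, b, c, d, e} : Finset (Fin n)) \ s := mem_sdiff.2 ⟨hz, hzs⟩
        rw [hx, mem_singleton] at this
        exact hne this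
    have hxm : x ∈ ({a, b, c, d, e} : Finset (Fin n)) := by
      have : x ∈ ({a, b, c, d, e} : Finset (Fin n)) \ s := by rw [hx]; simp
      exact (mem_sdiff.1 this).1
    simp only [mem_insert, mem_singleton] at hxm
    rcases hxm with rfl | rfl | rfl | rfl | rfl
    · apply hsG
      convert h0 using 1
      ext z
      rw [hxs]
      simp only [mem_insert, mem_singleton]
      constructor
      · tauto
      · rintro (rfl | rfl | rfl | rfl)
        · exact ⟨by tauto, ab.symm⟩
        · exact ⟨by tauto, ac.symm⟩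
        · exact ⟨by tauto, ad.symm⟩
        · exact ⟨by tauto, ae.symm⟩
    · apply hsG
      convert h1 using 1
      ext z
      rw [hxs]
      simp only [mem_insert, mem_singleton]
      constructor
      · tauto
      · rintro (rfl | rfl | rfl | rfl)
        · exact ⟨by tauto, ab⟩
        · exact ⟨by tauto, bc.symm⟩
        · exact ⟨by tauto, bd.symm⟩
        · exact ⟨by tauto, be.symm⟩
    · apply hsG
      convert h2 using 1
      ext z
      rw [hxs]
      simp only [mem_insert, mem_singleton]
      constructor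
      · tauto
      · rintro (rfl | rfl | rfl | rfl)
        · exact ⟨by tauto, ac⟩
        · exact ⟨by tauto, bc⟩
        · exact ⟨by tauto, cd.symm⟩
        · exact ⟨by tauto, ce.symm⟩
    · apply hsG
      convert h3 using 1
      ext z
      rw [hxs]
      simp only [mem_insert, mem_singleton]
      constructor
      · tauto
      · rintro (rfl | rfl | rfl | rfl)
        · exact ⟨by tauto, ad⟩
        · exact ⟨by tauto, bd⟩
        · exact ⟨by tauto, cd⟩
        · exact ⟨by tauto, de.symm⟩
    · apply hsG
      convert h4 using 1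
      ext z
      rw [hxs]
      simp only [mem_insert, mem_singleton]
      constructor
      · tauto
      · rintro (rfl | rfl | rfl | rfl)
        · exact ⟨by tauto, ae⟩
        · exact ⟨by tauto, be⟩
        · exact ⟨by tauto, ce⟩
        · exact ⟨by tauto, de⟩

theorem goal_CDG : Goal_CDG := by
  intro n G hG hK
  have hcov := (goal_NON n G hG hK).2
  have hk : ∀ a b c d e, kC5 (non G) a b c d e =
      (1 - ed G b c d e) + (1 - ed G a c d e) + (1 - ed G a b d e) + (1 - ed G a b c e) +
        (1 - ed G a b c d) := by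
    intro a b c d e
    unfold kC5
    simp only [non_eq]
  constructor
  · have h1 : 60 * ∑ P ∈ (univ : Finset (Fin n)).powersetCard 3, (codeg G P) ^ 2 = 10 * TT G := by
      rw [TT_eq hG]
      ring
    have h2 : 10 * TT G = S5 (fun a b c d e =>
        ed G b c d e * ed G a c d e + ed G b c d e * ed G a b d e + ed G b c d e * ed G a b c e +
        ed G b c d e * ed G a b c d + ed G a c d e * ed G a b d e + ed G a c d e * ed G a b c e +
        ed G a c d e * ed G a b c d + ed G a b d e * ed G a b c e + ed G a b d e * ed G a b c d +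
        ed G a b c e * ed G a b c d) := by
      rw [S5_add, S5_add, S5_add, S5_add, S5_add, S5_add, S5_add, S5_add, S5_add, q01, q02, q03,
        q04, q12, q13, q14, q23, q24]
      show 10 * TT G = _ + TT G
      ring
    have h3 : S5 (fun a b c d e =>
        ed G b c d e * ed G a c d e + ed G b c d e * ed G a b d e + ed G b c d e * ed G a b c e +
        ed G b c d e * ed G a b c d + ed G a c d e * ed G a b d e + ed G a c d e * ed G a b c e +
        ed G a c d e * ed G a b c d + ed G a b d e * ed G a b c e + ed G a b d e * ed G a b c d +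
        ed G a b c e * ed G a b c d) = S5 (fun a b c d e =>
        6 * (if kC5 (non G) a b c d e = 1 then 1 else 0) +
        3 * (if kC5 (non G) a b c d e = 2 then 1 else 0) +
        (if kC5 (non G) a b c d e = 3 then 1 else 0)) := by
      refine congrArg S5 ?_
      funext a b c d e
      have hc := hcov a b c d e
      simp only [non_eq] at hc
      rw [hk]
      exact pw _ _ _ _ _ (ed_le G _ _ _ _) (ed_le G _ _ _ _) (ed_le G _ _ _ _) (ed_le G _ _ _ _)
        (ed_le G _ _ _ _) hc
    rw [h1, h2, h3, S5_add, S5_add, S5_mul 6, S5_mul 3, ← p5_eq, ← p5_eq, ← p5_eq]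
  · rw [p5_eq, p5_eq, p5_eq, p5_eq, p5_eq, ← S5_add, ← S5_add, ← S5_add, ← S5_add]
    have h3 : S5 (fun a b c d e : Fin n => (if kC5 (non G) a b c d e = 1 then 1 else 0) +
        (if kC5 (non G) a b c d e = 2 then 1 else 0) +
        (if kC5 (non G) a b c d e = 3 then 1 else 0) +
        (if kC5 (non G) a b c d e = 4 then 1 else 0) +
        (if kC5 (non G) a b c d e = 5 then 1 else 0)) = S5 (fun _ _ _ _ _ : Fin n => 1) := by
      refine congrArg S5 ?_
      funext a b c d e
      have hc := hcov a b c d e
      refine pw2 _ hc ?_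
      rw [hk]
      omega
    rw [h3]
    unfold S5
    simp only [sum_const, card_univ, Fintype.card_fin, smul_eq_mul]
    ring

end Pool.Agent.N465.L2
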