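import Pool.Agent.N465.L2.Def2

/-! Check functions for the invariance of the tabulated certificate (helper137). -/

set_option autoImplicit false
set_option maxRecDepth 100000

namespace Pool.Agent.N465.L2.CRT

open Pool.Agent.N465.L2

/-- entry `j` of a packed permutation of the digits -/
def pm (P j : ℕ) : ℕ := Nat.mod (Nat.shiftRight P (Nat.mul 5 j)) 32

/-- the digits of `A'` are the permuted digits of `A` -/
def cmpD (P A A' : ℕ) : Bool := al 24 (fun j => Nat.beq (dg j A') (dg (pm P j) A))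

/-- the swaps of adjacent positions, on root codes -/
def sm0 (m : ℕ) : ℕ := cm (bt 1 m) (bt 0 m) (bt 2 m) (bt 3 m) (bt 4 m)
def sm1 (m : ℕ) : ℕ := cm (bt 0 m) (bt 2 m) (bt 1 m) (bt 3 m) (bt 4 m)
def sm2 (m : ℕ) : ℕ := cm (bt 0 m) (bt 1 m) (bt 3 m) (bt 2 m) (bt 4 m)
def sm3 (m : ℕ) : ℕ := cm (bt 0 m) (bt 1 m) (bt 2 m) (bt 4 m) (bt 3 m)

/-- the swaps of adjacent positions, on link codes -/
def sl0 (l : ℕ) : ℕ :=
  cl (bt 0 l) (bt 4 l) (bt 5 l) (bt 6 l) (bt 1 l) (bt 2 l) (bt 3 l) (bt 7 l) (bt 8 l) (bt 9 l)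
def sl1 (l : ℕ) : ℕ :=
  cl (bt 1 l) (bt 0 l) (bt 2 l) (bt 3 l) (bt 4 l) (bt 7 l) (bt 8 l) (bt 5 l) (bt 6 l) (bt 9 l)
def sl2 (l : ℕ) : ℕ :=
  cl (bt 0 l) (bt 2 l) (bt 1 l) (bt 3 l) (bt 5 l) (bt 4 l) (bt 6 l) (bt 7 l) (bt 9 l) (bt 8 l)
def sl3 (l : ℕ) : ℕ :=
  cl (bt 0 l) (bt 1 l) (bt 3 l) (bt 2 l) (bt 4 l) (bt 6 l) (bt 5 l) (bt 8 l) (bt 7 l) (bt 9 l)

def P0 : ℕ := 984818244532010986321569472025138304
def P1 : ℕ := 984818241984996606545502232511612929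
def P2 : ℕ := 984818206159576710799591485354378304
def P3 : ℕ := 984818243335328932417517517132598304

/-- the check for one link code -/
def ck1 (P m m' l l' : ℕ) : Bool :=
  st (fun A => st (fun A' => cmpD P A A') (lkA (Nat.add m' (Nat.mul 32 l')))) (lkA (Nat.add m (Nat.mul 32 l)))

/-- the check for one root code -/
def ckM (P m m' : ℕ) (sl : ℕ → ℕ) : Bool := al 1024 (fun l => st (ck1 P m m' l) (sl l))

/-- the check for all root codes `lo ≤ m < lo + n` with an odd number of ones -/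
def ckA (P lo n : ℕ) (sm sl : ℕ → ℕ) : Bool :=
  al n (fun k => st (fun m => cnd (Nat.beq (bt m om) 1) (st (fun m' => ckM P m m' sl) (sm m)) true) (Nat.add lo k))

end Pool.Agent.N465.L2.CRT
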