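import Pool.Agent.N465.L2.Def

/-! Kernel checks. -/

set_option autoImplicit false
set_option maxRecDepth 100000

namespace Pool.Agent.N465.L2

theorem ck_63_0 : chk 63 0 1024 = true := by decide +kernel
theorem ck_703_0 : chk 703 0 1024 = true := by decide +kernel
theorem ck_4095_0 : chk 4095 0 1024 = true := by decide +kernel
theorem ck_6007_0 : chk 6007 0 1024 = true := by decide +kernel
theorem ck_32767_768 : chk 32767 768 256 = true := by decide +kernel

end Pool.Agent.N465.L2
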