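import Pool.Agent.N465.L2.Def

/-! Kernel checks. -/

set_option autoImplicit false
set_option maxRecDepth 100000

namespace Pool.Agent.N465.L2

theorem ck_671_0 : chk 671 0 1024 = true := by decide +kernel
theorem ck_763_0 : chk 763 0 1024 = true := by decide +kernel
theorem ck_1885_0 : chk 1885 0 1024 = true := by decide +kernel
theorem ck_2014_0 : chk 2014 0 1024 = true := by decide +kernel
theorem ck_2047_0 : chk 2047 0 1024 = true := by decide +kernel
theorem ck_15870_0 : chk 15870 0 1024 = true := by decide +kernel

end Pool.Agent.N465.L2
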