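import Pool.Agent.N465.L2.Def

/-! Kernel checks. -/

set_option autoImplicit false
set_option maxRecDepth 100000

namespace Pool.Agent.N465.L2

theorem ck_126_0 : chk 126 0 1024 = true := by decide +kernel
theorem ck_635_0 : chk 635 0 1024 = true := by decide +kernel
theorem ck_954_0 : chk 954 0 1024 = true := by decide +kernel
theorem ck_1919_0 : chk 1919 0 1024 = true := by decide +kernel
theorem ck_8191_0 : chk 8191 0 1024 = true := by decide +kernel
theorem ck_32767_256 : chk 32767 256 256 = true := by decide +kernel

end Pool.Agent.N465.L2
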