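import Pool.Agent.N465.L2.Def

/-! Kernel checks. -/

set_option autoImplicit false
set_option maxRecDepth 100000

namespace Pool.Agent.N465.L2

theorem ck_121_0 : chk 121 0 1024 = true := by decide +kernel
theorem ck_657_0 : chk 657 0 1024 = true := by decide +kernel
theorem ck_957_0 : chk 957 0 1024 = true := by decide +kernel
theorem ck_5949_0 : chk 5949 0 1024 = true := by decide +kernel
theorem ck_7071_0 : chk 7071 0 1024 = true := by decide +kernel
theorem ck_7100_0 : chk 7100 0 1024 = true := by decide +kernel
theorem ck_32767_512 : chk 32767 512 256 = true := by decide +kernel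

end Pool.Agent.N465.L2
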