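import Pool.Agent.N465.L2.Def

/-! Kernel checks. -/

set_option autoImplicit false
set_option maxRecDepth 100000

namespace Pool.Agent.N465.L2

theorem ck_632_0 : chk 632 0 1024 = true := by decide +kernel
theorem ck_758_0 : chk 758 0 1024 = true := by decide +kernel
theorem ck_5872_0 : chk 5872 0 1024 = true := by decide +kernel
theorem ck_5919_0 : chk 5919 0 1024 = true := by decide +kernel
theorem ck_6011_0 : chk 6011 0 1024 = true := by decide +kernel
theorem ck_8157_0 : chk 8157 0 1024 = true := by decide +kernel

end Pool.Agent.N465.L2
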