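import Pool.Agent.N465.L2.Def

/-! Kernel checks. -/

set_option autoImplicit false
set_option maxRecDepth 100000

namespace Pool.Agent.N465.L2

theorem ck_254_0 : chk 254 0 1024 = true := by decide +kernel
theorem ck_255_0 : chk 255 0 1024 = true := by decide +kernel
theorem ck_511_0 : chk 511 0 1024 = true := by decide +kernel
theorem ck_922_0 : chk 922 0 1024 = true := by decide +kernel
theorem ck_7103_0 : chk 7103 0 1024 = true := by decide +kernel
theorem ck_32767_0 : chk 32767 0 256 = true := by decide +kernel

end Pool.Agent.N465.L2
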