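import Pool.Agent.N465.L2.Def

/-! Kernel checks. -/

set_option autoImplicit false
set_option maxRecDepth 100000

namespace Pool.Agent.N465.L2

theorem ck_639_0 : chk 639 0 1024 = true := by decide +kernel
theorem ck_700_0 : chk 700 0 1024 = true := by decide +kernel
theorem ck_762_0 : chk 762 0 1024 = true := by decide +kernel
theorem ck_767_0 : chk 767 0 1024 = true := by decide +kernel
theorem ck_959_0 : chk 959 0 1024 = true := by decide +kernel
theorem ck_5905_0 : chk 5905 0 1024 = true := by decide +kernel

end Pool.Agent.N465.L2
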