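import Pool.Agent.N465.L2.Def

/-! Kernel checks. -/

set_option autoImplicit false
set_option maxRecDepth 100000

namespace Pool.Agent.N465.L2

theorem ck_123_0 : chk 123 0 1024 = true := by decide +kernel
theorem ck_1780_0 : chk 1780 0 1024 = true := by decide +kernel
theorem ck_5873_0 : chk 5873 0 1024 = true := by decide +kernel
theorem ck_6014_0 : chk 6014 0 1024 = true := by decide +kernel
theorem ck_6015_0 : chk 6015 0 1024 = true := by decide +kernel
theorem ck_6142_0 : chk 6142 0 1024 = true := by decide +kernel

end Pool.Agent.N465.L2
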