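import Pool.Agent.N465.L2.Def

/-! Kernel checks. -/

set_option autoImplicit false
set_option maxRecDepth 100000

namespace Pool.Agent.N465.L2

theorem ck_246_0 : chk 246 0 1024 = true := by decide +kernel
theorem ck_2015_0 : chk 2015 0 1024 = true := by decide +kernel
theorem ck_5941_0 : chk 5941 0 1024 = true := by decide +kernel
theorem ck_6143_0 : chk 6143 0 1024 = true := by decide +kernel
theorem ck_7101_0 : chk 7101 0 1024 = true := by decide +kernel
theorem ck_7166_0 : chk 7166 0 1024 = true := by decide +kernel

end Pool.Agent.N465.L2
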