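import Pool.Agent.N465.L2.Def

/-! Kernel checks. -/

set_option autoImplicit false
set_option maxRecDepth 100000

namespace Pool.Agent.N465.L2

theorem ck_663_0 : chk 663 0 1024 = true := by decide +kernel
theorem ck_695_0 : chk 695 0 1024 = true := by decide +kernel
theorem ck_759_0 : chk 759 0 1024 = true := by decide +kernel
theorem ck_1788_0 : chk 1788 0 1024 = true := by decide +kernel
theorem ck_5879_0 : chk 5879 0 1024 = true := by decide +kernel
theorem ck_15871_0 : chk 15871 0 1024 = true := by decide +kernel

end Pool.Agent.N465.L2
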