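import Pool.Agent.N465.L2.Def

/-! Kernel checks. -/

set_option autoImplicit false
set_option maxRecDepth 100000

namespace Pool.Agent.N465.L2

theorem ck_61_0 : chk 61 0 1024 = true := by decide +kernel
theorem ck_662_0 : chk 662 0 1024 = true := by decide +kernel
theorem ck_1781_0 : chk 1781 0 1024 = true := by decide +kernel
theorem ck_1883_0 : chk 1883 0 1024 = true := by decide +kernel
theorem ck_1887_0 : chk 1887 0 1024 = true := by decide +kernel
theorem ck_1915_0 : chk 1915 0 1024 = true := by decide +kernel
theorem ck_2012_0 : chk 2012 0 1024 = true := by decide +kernel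

end Pool.Agent.N465.L2
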