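import Pool.Agent.N465.L2.Def

/-! Kernel checks. -/

set_option autoImplicit false
set_option maxRecDepth 100000

namespace Pool.Agent.N465.L2

theorem ck_31_0 : chk 31 0 1024 = true := by decide +kernel
theorem ck_510_0 : chk 510 0 1024 = true := by decide +kernel
theorem ck_659_0 : chk 659 0 1024 = true := by decide +kernel
theorem ck_766_0 : chk 766 0 1024 = true := by decide +kernel
theorem ck_1789_0 : chk 1789 0 1024 = true := by decide +kernel
theorem ck_5943_0 : chk 5943 0 1024 = true := by decide +kernel
theorem ck_7167_0 : chk 7167 0 1024 = true := by decide +kernel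

end Pool.Agent.N465.L2
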