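import Pool.Agent.N465.L2.Def

/-! Kernel checks. -/

set_option autoImplicit false
set_option maxRecDepth 100000

namespace Pool.Agent.N465.L2

theorem ck_127_0 : chk 127 0 1024 = true := by decide +kernel
theorem ck_691_0 : chk 691 0 1024 = true := by decide +kernel
theorem ck_955_0 : chk 955 0 1024 = true := by decide +kernel
theorem ck_1023_0 : chk 1023 0 1024 = true := by decide +kernel
theorem ck_5907_0 : chk 5907 0 1024 = true := by decide +kernel
theorem ck_5948_0 : chk 5948 0 1024 = true := by decide +kernel

end Pool.Agent.N465.L2
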