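import Pool.Agent.N465.L2.Def

/-! Kernel checks. -/

set_option autoImplicit false
set_option maxRecDepth 100000

namespace Pool.Agent.N465.L2

theorem ck_247_0 : chk 247 0 1024 = true := by decide +kernel
theorem ck_693_0 : chk 693 0 1024 = true := by decide +kernel
theorem ck_761_0 : chk 761 0 1024 = true := by decide +kernel
theorem ck_1916_0 : chk 1916 0 1024 = true := by decide +kernel
theorem ck_1917_0 : chk 1917 0 1024 = true := by decide +kernel
theorem ck_16383_0 : chk 16383 0 1024 = true := by decide +kernel

end Pool.Agent.N465.L2
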