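import Pool.Agent.N465.L2.Def

/-! Kernel checks. -/

set_option autoImplicit false
set_option maxRecDepth 100000

namespace Pool.Agent.N465.L2

theorem ck_633_0 : chk 633 0 1024 = true := by decide +kernel
theorem ck_926_0 : chk 926 0 1024 = true := by decide +kernel
theorem ck_1791_0 : chk 1791 0 1024 = true := by decide +kernel
theorem ck_1881_0 : chk 1881 0 1024 = true := by decide +kernel
theorem ck_5875_0 : chk 5875 0 1024 = true := by decide +kernel
theorem ck_5950_0 : chk 5950 0 1024 = true := by decide +kernel

end Pool.Agent.N465.L2
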