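import Pool.Agent.N465.L2.Def

/-! Kernel checks. -/

set_option autoImplicit false
set_option maxRecDepth 100000

namespace Pool.Agent.N465.L2

theorem ck_656_0 : chk 656 0 1024 = true := by decide +kernel
theorem ck_692_0 : chk 692 0 1024 = true := by decide +kernel
theorem ck_760_0 : chk 760 0 1024 = true := by decide +kernel
theorem ck_927_0 : chk 927 0 1024 = true := by decide +kernel
theorem ck_2013_0 : chk 2013 0 1024 = true := by decide +kernel
theorem ck_2046_0 : chk 2046 0 1024 = true := by decide +kernel
theorem ck_4063_0 : chk 4063 0 1024 = true := by decide +kernel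

end Pool.Agent.N465.L2
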