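import Pool.Agent.N465.L2.Def

/-! Kernel checks. -/

set_option autoImplicit false
set_option maxRecDepth 100000

namespace Pool.Agent.N465.L2

theorem ck_60_0 : chk 60 0 1024 = true := by decide +kernel
theorem ck_701_0 : chk 701 0 1024 = true := by decide +kernel
theorem ck_920_0 : chk 920 0 1024 = true := by decide +kernel
theorem ck_958_0 : chk 958 0 1024 = true := by decide +kernel
theorem ck_1749_0 : chk 1749 0 1024 = true := by decide +kernel
theorem ck_1759_0 : chk 1759 0 1024 = true := by decide +kernel
theorem ck_5887_0 : chk 5887 0 1024 = true := by decide +kernel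

end Pool.Agent.N465.L2
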