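import Pool.Agent.N465.L2.Def

/-! Kernel checks. -/

set_option autoImplicit false
set_option maxRecDepth 100000

namespace Pool.Agent.N465.L2

theorem ck_694_0 : chk 694 0 1024 = true := by decide +kernel
theorem ck_923_0 : chk 923 0 1024 = true := by decide +kernel
theorem ck_956_0 : chk 956 0 1024 = true := by decide +kernel
theorem ck_1751_0 : chk 1751 0 1024 = true := by decide +kernel
theorem ck_6010_0 : chk 6010 0 1024 = true := by decide +kernel
theorem ck_6655_0 : chk 6655 0 1024 = true := by decide +kernel

end Pool.Agent.N465.L2
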