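import Pool.Agent.N465.L2.Def

/-! Kernel checks. -/

set_option autoImplicit false
set_option maxRecDepth 100000

namespace Pool.Agent.N465.L2

theorem ck_921_0 : chk 921 0 1024 = true := by decide +kernel
theorem ck_1783_0 : chk 1783 0 1024 = true := by decide +kernel
theorem ck_1880_0 : chk 1880 0 1024 = true := by decide +kernel
theorem ck_1884_0 : chk 1884 0 1024 = true := by decide +kernel
theorem ck_4061_0 : chk 4061 0 1024 = true := by decide +kernel
theorem ck_6654_0 : chk 6654 0 1024 = true := by decide +kernel

end Pool.Agent.N465.L2
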