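import Pool.Agent.N465.L2.Def

/-! Kernel checks. -/

set_option autoImplicit false
set_option maxRecDepth 100000

namespace Pool.Agent.N465.L2

theorem ck_120_0 : chk 120 0 1024 = true := by decide +kernel
theorem ck_122_0 : chk 122 0 1024 = true := by decide +kernel
theorem ck_1022_0 : chk 1022 0 1024 = true := by decide +kernel
theorem ck_4060_0 : chk 4060 0 1024 = true := by decide +kernel
theorem ck_5911_0 : chk 5911 0 1024 = true := by decide +kernel
theorem ck_5951_0 : chk 5951 0 1024 = true := by decide +kernel
theorem ck_8159_0 : chk 8159 0 1024 = true := by decide +kernel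

end Pool.Agent.N465.L2
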