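import Pool.Agent.N465.L2.Def2

/-! Kernel check functions for the packed scalar products (helper93). -/

set_option autoImplicit false
set_option maxRecDepth 100000

open Finset

namespace Pool.Agent.N465.L2

/-- bounds for the digits of `lkA` -/
def dMA (j : ℕ) : ℕ := cnd (Nat.ble j 9) 7857 (cnd (Nat.ble j 19) 8955 (cnd (Nat.beq j 20) 4
  (cnd (Nat.beq j 21) 2 3)))

/-- bounds for the digits of `lkB` -/
def dMB (j : ℕ) : ℕ := cnd (Nat.ble j 9) 39285 (cnd (Nat.ble j 19) 44775 (cnd (Nat.beq j 20) 2845200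
  (cnd (Nat.beq j 21) 1297594 (cnd (Nat.beq j 22) 1860024 2042217))))

/-- the weights -/
def dwo (o j : ℕ) : ℕ := cnd (Nat.ble j 19) 5
  (cnd (Nat.beq o 1) (cnd (Nat.beq j 20) 711300 (cnd (Nat.beq j 21) 642353
    (cnd (Nat.beq j 22) 620008 680739)))
  (cnd (Nat.beq o 3) (cnd (Nat.beq j 20) 534308 (cnd (Nat.beq j 21) 648797
    (cnd (Nat.beq j 22) 664465 719165)))
  (cnd (Nat.beq j 20) 497750 0)))

/-- the check for the digit `j` -/
def dck (o A B j : ℕ) : Bool :=
  st (fun g => st (fun h => st (fun w =>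
    cnd (Nat.ble 34359738368 (Nat.add g (dMA j))) (cnd (Nat.ble g (Nat.add 34359738368 (dMA j)))
    (cnd (Nat.ble 34359738368 (Nat.add h (dMB j))) (cnd (Nat.ble h (Nat.add 34359738368 (dMB j)))
      (Nat.beq (Nat.add h (Nat.mul w 34359738368)) (Nat.add (Nat.mul w g) 34359738368))
      false) false) false) false) (dwo o j))
    (Nat.mod (Nat.shiftRight B (Nat.mul 36 (Nat.sub 23 j))) 68719476736))
    (Nat.mod (Nat.shiftRight A (Nat.mul 36 j)) 68719476736)

/-- the check for the code `m + 32 l` -/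
def dcl (o m l : ℕ) : Bool :=
  st (fun c => st (fun A => st (fun B =>
    cnd (Nat.beq (Nat.shiftRight A 864) 1) (cnd (Nat.beq (Nat.shiftRight B 864) 1)
      (al 24 (dck o A B)) false) false)
    (Nat.add (lkB c) Q24)) (Nat.add (lkA c) Q24)) (Nat.add m (Nat.mul 32 l))

/-- the check for the codes `m + 32 l`, `lo ≤ l < lo + n` -/
def dcm (m lo n : ℕ) : Bool := st (fun o => al n (fun k => dcl o m (Nat.add lo k))) (oneM m)

end Pool.Agent.N465.L2
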