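import Pool.Agent.N465.L2.DOTa

/-! Kernel checks of the packed vectors, part 1 (helper93). -/

set_option autoImplicit false
set_option maxRecDepth 100000

namespace Pool.Agent.N465.L2

theorem dcm_1 : dcm 1 0 1024 = true := by decide +kernel
theorem dcm_2 : dcm 2 0 1024 = true := by decide +kernel
theorem dcm_4 : dcm 4 0 1024 = true := by decide +kernel
theorem dcm_7 : dcm 7 0 1024 = true := by decide +kernel

end Pool.Agent.N465.L2
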