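import Pool.Agent.N465.L2.Prim
import Pool.Agent.N465.L2.TbS
import Pool.Agent.N465.L2.Tb1
import Pool.Agent.N465.L2.Tb2
import Pool.Agent.N465.L2.Tb4
import Pool.Agent.N465.L2.Tb7
import Pool.Agent.N465.L2.Tb8
import Pool.Agent.N465.L2.Tb11
import Pool.Agent.N465.L2.Tb13
import Pool.Agent.N465.L2.Tb14
import Pool.Agent.N465.L2.Tb16
import Pool.Agent.N465.L2.Tb19
import Pool.Agent.N465.L2.Tb21
import Pool.Agent.N465.L2.Tb22
import Pool.Agent.N465.L2.Tb25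
import Pool.Agent.N465.L2.Tb26
import Pool.Agent.N465.L2.Tb28
import Pool.Agent.N465.L2.Tb31

/-! Check functions for the certificate. -/

set_option autoImplicit false
set_option maxRecDepth 100000

namespace Pool.Agent.N465.L2

/-- record `L` of a table of 900-bit records -/
def rc (T L : ℕ) : ℕ := Nat.mod (Nat.shiftRight T (Nat.mul 900 L)) 8452712498170643941637436558664265704301557216577944354047371344426782440907597751590676094202515006314790319892114058862117560952042968596008623655407033230534186943984081346699704282822823056848387726531379014466368452684024987821414350380272583623832617294363807973376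

def sA (m h : ℕ) : ℕ := (cnd (Nat.ble m 14) (cnd (Nat.ble m 7) (cnd (Nat.ble m 2) (cnd (Nat.ble m 1) (tA1 h) (tA2 h)) (cnd (Nat.ble m 4) (tA4 h) (tA7 h))) (cnd (Nat.ble m 11) (cnd (Nat.ble m 8) (tA8 h) (tA11 h)) (cnd (Nat.ble m 13) (tA13 h) (tA14 h)))) (cnd (Nat.ble m 22) (cnd (Nat.ble m 19) (cnd (Nat.ble m 16) (tA16 h) (tA19 h)) (cnd (Nat.ble m 21) (tA21 h) (tA22 h))) (cnd (Nat.ble m 26) (cnd (Nat.ble m 25) (tA25 h) (tA26 h)) (cnd (Nat.ble m 28) (tA28 h) (tA31 h)))))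

def sB (m h : ℕ) : ℕ := (cnd (Nat.ble m 14) (cnd (Nat.ble m 7) (cnd (Nat.ble m 2) (cnd (Nat.ble m 1) (tB1 h) (tB2 h)) (cnd (Nat.ble m 4) (tB4 h) (tB7 h))) (cnd (Nat.ble m 11) (cnd (Nat.ble m 8) (tB8 h) (tB11 h)) (cnd (Nat.ble m 13) (tB13 h) (tB14 h)))) (cnd (Nat.ble m 22) (cnd (Nat.ble m 19) (cnd (Nat.ble m 16) (tB16 h) (tB19 h)) (cnd (Nat.ble m 21) (tB21 h) (tB22 h))) (cnd (Nat.ble m 26) (cnd (Nat.ble m 25) (tB25 h) (tB26 h)) (cnd (Nat.ble m 28) (tB28 h) (tB31 h)))))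

/-- the codes with an odd number of ones -/
def om : ℕ := 2523490710

/-- the packed vector of the code `m + 32 L` -/
def lkA (c : ℕ) : ℕ := st (fun m => cnd (Nat.beq (bt m om) 1) (st (fun L => rc (sA m (Nat.div L 16)) (Nat.mod L 16)) (Nat.div c 32)) 123003155723136208567847447683223664415731869180715065944930703618254955521953492303010368693540149343822709050322214299552689203876695953600699775494388206142090885899729347827083318884583758435450548517566916626912548274908112766882031433928533568160966639616) (Nat.mod c 32)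

/-- the reversed and weighted packed vector -/
def lkB (c : ℕ) : ℕ := st (fun m => cnd (Nat.beq (bt m om) 1) (st (fun L => rc (sB m (Nat.div L 16)) (Nat.mod L 16)) (Nat.div c 32)) 123003155723136208567847447683223664415731869180715065944930703618254955521953492303010368693540149343822709050322214299552689203876695953600699775494388206142090885899729347827083318884583758435450548517566916626912548274908112766882031433928533568160966639616) (Nat.mod c 32)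

/-- the offset that makes the lower coefficients nonnegative -/
def qq : ℕ := 61501577862463070031389089844939327187541027312931156547516247210455293936891454646425401759154671234377744712116469951334514923326147243225284314698784159990695154294120378146820767426954004562156447614366275299799606751793356680173027152636631493290085056512

/-- middle coefficient of the product plus `2^35` -/
def dot (a b : ℕ) : ℕ := Nat.mod (Nat.shiftRight (Nat.add (Nat.mul a b) qq) 828) 68719476736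

def dt (c d : ℕ) : ℕ := dot (lkA c) (lkB d)

def ccT : ℕ := 31040152754115767297021767424474750146009148410584349474879371904331117129597641497239759142812729507606187430555271560882202866965347970976418261003381552101131997634523498446249030728689015279358902918901114627891479950737085804130235338064884554331846902003212375696678361513322778480719948623235460816349254647665317932983306384243925090041856

/-- the constant for the root code `m`, plus `2^35` -/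
def cc (m : ℕ) : ℕ := Nat.mod (Nat.shiftRight ccT (Nat.mul 36 m)) 68719476736

def sZ (m h : ℕ) : ℕ := (cnd (Nat.ble m 15) (cnd (Nat.ble m 7) (cnd (Nat.ble m 3) (cnd (Nat.ble m 1) (cnd (Nat.ble m 0) (zT0 h) (zT1 h)) (cnd (Nat.ble m 2) (zT2 h) (zT3 h))) (cnd (Nat.ble m 5) (cnd (Nat.ble m 4) (zT4 h) (zT5 h)) (cnd (Nat.ble m 6) (zT6 h) (zT7 h)))) (cnd (Nat.ble m 11) (cnd (Nat.ble m 9) (cnd (Nat.ble m 8) (zT8 h) (zT9 h)) (cnd (Nat.ble m 10) (zT10 h) (zT11 h))) (cnd (Nat.ble m 13) (cnd (Nat.ble m 12) (zT12 h) (zT13 h)) (cnd (Nat.ble m 14) (zT14 h) (zT15 h))))) (cnd (Nat.ble m 23) (cnd (Nat.ble m 19) (cnd (Nat.ble m 17) (cnd (Nat.ble m 16) (zT16 h) (zT17 h)) (cnd (Nat.ble m 18) (zT18 h) (zT19 h))) (cnd (Nat.ble m 21) (cnd (Nat.ble m 20) (zT20 h) (zT21 h)) (cnd (Nat.ble m 22) (zT22 h) (zT23 h)))) (cnd (Nat.ble m 27) (cnd (Nat.ble m 25) (cnd (Nat.ble m 24) (zT24 h) (zT25 h)) (cnd (Nat.ble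 m 26) (zT26 h) (zT27 h))) (cnd (Nat.ble m 29) (cnd (Nat.ble m 28) (zT28 h) (zT29 h)) (cnd (Nat.ble m 30) (zT30 h) (zT31 h))))))

/-- entry `l` of a table of 40-bit numbers -/
def g40 (T l : ℕ) : ℕ := Nat.mod (Nat.shiftRight T (Nat.mul 40 l)) 1099511627776

/-- number of ones of a ten-bit code -/
def pc (l : ℕ) : ℕ := Nat.mod (Nat.shiftRight pcT (Nat.mul 4 l)) 16

def q0 (l : ℕ) : ℕ := Nat.mod (Nat.shiftRight qT0 (Nat.mul 15 l)) 32768
def q1 (l : ℕ) : ℕ := Nat.mod (Nat.shiftRight qT1 (Nat.mul 15 l)) 32768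
def q2 (l : ℕ) : ℕ := Nat.mod (Nat.shiftRight qT2 (Nat.mul 15 l)) 32768
def q3 (l : ℕ) : ℕ := Nat.mod (Nat.shiftRight qT3 (Nat.mul 15 l)) 32768
def q4 (l : ℕ) : ℕ := Nat.mod (Nat.shiftRight qT4 (Nat.mul 15 l)) 32768

/-- the constant part of the code for position `x` -/
def cs (mi x : ℕ) : ℕ := Nat.mod (Nat.shiftRight csT (Nat.mul 15 (Nat.add (Nat.mul 5 mi) x))) 32768

/-- every position is covered -/
def okl (mi l : ℕ) : Bool :=
  cnd (Nat.ble 1 (Nat.add (bt 0 mi) (Nat.land l 15))) (cnd (Nat.ble 1 (Nat.add (bt 1 mi) (Nat.land l 113)))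
    (cnd (Nat.ble 1 (Nat.add (bt 2 mi) (Nat.land l 402))) (cnd (Nat.ble 1 (Nat.add (bt 3 mi) (Nat.land l 676)))
      (Nat.ble 1 (Nat.add (bt 4 mi) (Nat.land l 840))) false) false) false) false

/-- entry of the table of the diagonal sums -/
def zt (mi l : ℕ) : ℕ := g40 (sZ mi (Nat.div l 64)) (Nat.mod l 64)

/-- lower bound for twice the share of a vertex, plus `2^39` -/
def gv (mi l6 dl l : ℕ) : ℕ :=
  cnd (okl mi l) (cnd (Nat.ble (pc l) dl)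
    (Nat.sub (Nat.add (zt mi l) (Nat.mul 2 (cc mi)))
      (Nat.mul 2 (dt (Nat.add mi (Nat.mul 32 l6)) (Nat.add mi (Nat.mul 32 l))))) 8796093022208) 8796093022208

/-- the table of `gv` -/
def gT (mi l6 dl : ℕ) : ℕ := pk 1024 (gv mi l6 dl)

/-- the term of a pair, plus `2^36` -/
def tm (c d : ℕ) : ℕ := Nat.sub (Nat.add (cc (Nat.mod c 32)) 68719476736) (dt c d)

def tm6 (mi l6 l : ℕ) : ℕ := tm (Nat.add mi (Nat.mul 32 l6)) (Nat.add mi (Nat.mul 32 l))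

def mk0 (K : ℕ) : ℕ := cm (bt 0 K) (bt 1 K) (bt 2 K) (bt 3 K) (bt 4 K)
def lk0 (K : ℕ) : ℕ := cl (bt 5 K) (bt 6 K) (bt 7 K) (bt 8 K) (bt 9 K) (bt 10 K) (bt 11 K) (bt 12 K) (bt 13 K) (bt 14 K)
def mk1 (K : ℕ) : ℕ := cm (bt 0 K) (bt 5 K) (bt 6 K) (bt 7 K) (bt 8 K)
def lk1 (K : ℕ) : ℕ := cl (bt 1 K) (bt 2 K) (bt 3 K) (bt 4 K) (bt 9 K) (bt 10 K) (bt 11 K) (bt 12 K) (bt 13 K) (bt 14 K)
def mk2 (K : ℕ) : ℕ := cm (bt 1 K) (bt 5 K) (bt 9 K) (bt 10 K) (bt 11 K)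
def lk2 (K : ℕ) : ℕ := cl (bt 0 K) (bt 2 K) (bt 3 K) (bt 4 K) (bt 6 K) (bt 7 K) (bt 8 K) (bt 12 K) (bt 13 K) (bt 14 K)
def mk3 (K : ℕ) : ℕ := cm (bt 2 K) (bt 6 K) (bt 9 K) (bt 12 K) (bt 13 K)
def lk3 (K : ℕ) : ℕ := cl (bt 0 K) (bt 1 K) (bt 3 K) (bt 4 K) (bt 5 K) (bt 7 K) (bt 8 K) (bt 10 K) (bt 11 K) (bt 14 K)
def mk4 (K : ℕ) : ℕ := cm (bt 3 K) (bt 7 K) (bt 10 K) (bt 12 K) (bt 14 K)
def lk4 (K : ℕ) : ℕ := cl (bt 0 K) (bt 1 K) (bt 2 K) (bt 4 K) (bt 5 K) (bt 6 K) (bt 8 K) (bt 9 K) (bt 11 K) (bt 13 K)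
def mk5 (K : ℕ) : ℕ := cm (bt 4 K) (bt 8 K) (bt 11 K) (bt 13 K) (bt 14 K)
def lk5 (K : ℕ) : ℕ := cl (bt 0 K) (bt 1 K) (bt 2 K) (bt 3 K) (bt 5 K) (bt 6 K) (bt 7 K) (bt 9 K) (bt 10 K) (bt 12 K)

/-- number of ones of the code `K` -/
def ones (K : ℕ) : ℕ := bt 0 K + bt 1 K + bt 2 K + bt 3 K + bt 4 K + bt 5 K + bt 6 K + bt 7 K + bt 8 K + bt 9 K + bt 10 K + bt 11 K + bt 12 K + bt 13 K + bt 14 K
def oneM (m : ℕ) : ℕ := bt 0 m + bt 1 m + bt 2 m + bt 3 m + bt 4 m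

/-- the exact sum of the 21 terms, each plus `2^36` -/
def full (m0 m1 m2 m3 m4 m5 a0 a1 a2 a3 a4 a5 l0 l1 l2 l3 l4 l5 : ℕ) : ℕ :=
  (Nat.add (tm6 m0 a0 l0)
    (Nat.add (tm6 m1 a1 l1)
    (Nat.add (tm6 m2 a2 l2)
    (Nat.add (tm6 m3 a3 l3)
    (Nat.add (tm6 m4 a4 l4)
    (Nat.add (tm6 m5 a5 l5)
    (Nat.add (st (fun c => st (fun d => tm c d) (Nat.add (q0 l1) (cs m1 0))) (Nat.add (q0 l0) (cs m0 0)))
    (Nat.add (st (fun c => st (fun d => tm c d) (Nat.add (q0 l2) (cs m2 0))) (Nat.add (q1 l0) (cs m0 1)))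
    (Nat.add (st (fun c => st (fun d => tm c d) (Nat.add (q0 l3) (cs m3 0))) (Nat.add (q2 l0) (cs m0 2)))
    (Nat.add (st (fun c => st (fun d => tm c d) (Nat.add (q0 l4) (cs m4 0))) (Nat.add (q3 l0) (cs m0 3)))
    (Nat.add (st (fun c => st (fun d => tm c d) (Nat.add (q0 l5) (cs m5 0))) (Nat.add (q4 l0) (cs m0 4)))
    (Nat.add (st (fun c => st (fun d => tm c d) (Nat.add (q1 l2) (cs m2 1))) (Nat.add (q1 l1) (cs m1 1)))
    (Nat.add (st (fun c => st (fun d => tm c d) (Nat.add (q1 l3) (cs m3 1))) (Nat.add (q2 l1) (cs m1 2)))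
    (Nat.add (st (fun c => st (fun d => tm c d) (Nat.add (q1 l4) (cs m4 1))) (Nat.add (q3 l1) (cs m1 3)))
    (Nat.add (st (fun c => st (fun d => tm c d) (Nat.add (q1 l5) (cs m5 1))) (Nat.add (q4 l1) (cs m1 4)))
    (Nat.add (st (fun c => st (fun d => tm c d) (Nat.add (q2 l3) (cs m3 2))) (Nat.add (q2 l2) (cs m2 2)))
    (Nat.add (st (fun c => st (fun d => tm c d) (Nat.add (q2 l4) (cs m4 2))) (Nat.add (q3 l2) (cs m2 3)))
    (Nat.add (st (fun c => st (fun d => tm c d) (Nat.add (q2 l5) (cs m5 2))) (Nat.add (q4 l2) (cs m2 4)))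
    (Nat.add (st (fun c => st (fun d => tm c d) (Nat.add (q3 l4) (cs m4 3))) (Nat.add (q3 l3) (cs m3 3)))
    (Nat.add (st (fun c => st (fun d => tm c d) (Nat.add (q3 l5) (cs m5 3))) (Nat.add (q4 l3) (cs m3 4)))
    (st (fun c => st (fun d => tm c d) (Nat.add (q4 l5) (cs m5 4))) (Nat.add (q4 l4) (cs m4 4)))))))))))))))))))))))

/-- field `j` of a packed number -/
def fd (s S : ℕ) : ℕ := Nat.mod (Nat.shiftRight S s) 1024

def leafB (m0 m1 m2 m3 m4 m5 a0 a1 a2 a3 a4 a5 l0 l1 S : ℕ) : Bool :=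
  Nat.ble 1443109011456 (st (fun l2 => st (fun l3 => st (fun l4 => st (fun l5 =>
    full m0 m1 m2 m3 m4 m5 a0 a1 a2 a3 a4 a5 l0 l1 l2 l3 l4 l5) (fd 30 S)) (fd 20 S)) (fd 10 S)) (fd 0 S))

def p0 (w : ℕ) : ℕ := g40 pT0 w
def p1 (w : ℕ) : ℕ := g40 pT1 w
def p2 (w : ℕ) : ℕ := g40 pT2 w

/-- the sum of four table entries -/
def s4 (T2 T3 T4 T5 S : ℕ) : ℕ := Nat.add (g44 T2 (fd 0 S)) (Nat.add (g44 T3 (fd 10 S)) (Nat.add (g44 T4 (fd 20 S)) (g44 T5 (fd 30 S))))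

/-- last level; `g` is the sum for the vertices 0 and 1 -/
def lv3 (T2 T3 T4 T5 m0 m1 m2 m3 m4 m5 a0 a1 a2 a3 a4 a5 l0 l1 g S : ℕ) : Bool :=
  cnd (Nat.ble 3298534883328 (Nat.add g (s4 T2 T3 T4 T5 S))) true (leafB m0 m1 m2 m3 m4 m5 a0 a1 a2 a3 a4 a5 l0 l1 S)

def lv2 (T1 T2 T3 T4 T5 N2 N3 N4 N5 m0 m1 m2 m3 m4 m5 a0 a1 a2 a3 a4 a5 l0 b1 g0 P w1 : ℕ) : Bool :=
  st (fun l1 => st (fun g => st (fun S =>
    cnd (Nat.ble 3298534883328 (Nat.add g (s4 N2 N3 N4 N5 S))) true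
      (al 8 (fun w2 => st (fun S2 => cnd (lv3 T2 T3 T4 T5 m0 m1 m2 m3 m4 m5 a0 a1 a2 a3 a4 a5 l0 l1 g S2)
        (st (lv3 T2 T3 T4 T5 m0 m1 m2 m3 m4 m5 a0 a1 a2 a3 a4 a5 l0 l1 g) (Nat.add S2 pT3)) false) (Nat.add S (p2 w2)))))
    (Nat.add P (p1 w1))) (Nat.add g0 (g44 T1 l1))) (Nat.add b1 (Nat.mul 16 w1))

def lv1 (T0 T1 T2 T3 T4 T5 N2 N3 N4 N5 O1 O2 O3 O4 O5 m0 m1 m2 m3 m4 m5 a0 a1 a2 a3 a4 a5 w0 : ℕ) : Bool :=
  st (fun g0 => st (fun P => st (fun b1 =>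
    cnd (Nat.ble 3298534883328 (Nat.add g0 (Nat.add (g44 O1 b1) (s4 O2 O3 O4 O5 P)))) true
      (al 64 (lv2 T1 T2 T3 T4 T5 N2 N3 N4 N5 m0 m1 m2 m3 m4 m5 a0 a1 a2 a3 a4 a5 w0 b1 g0 P)))
    (Nat.mod w0 16)) (p0 w0)) (g44 T0 w0)

def red4 (T : ℕ) : ℕ := hv 16 (hv 32 (hv 64 T))
def red7 (T : ℕ) : ℕ := hv 128 (hv 256 (hv 512 T))

/-- the loop over the codes `lo ≤ w0 < lo + n` -/
def chT (T0 T1 T2 T3 T4 T5 m0 m1 m2 m3 m4 m5 a0 a1 a2 a3 a4 a5 lo n : ℕ) : Bool :=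
  st (fun N1 => st (fun N2 => st (fun N3 => st (fun N4 => st (fun N5 => st (fun O1 => st (fun O2 => st (fun O3 => st (fun O4 => st (fun O5 =>
    al n (fun k => st (lv1 T0 T1 T2 T3 T4 T5 N2 N3 N4 N5 O1 O2 O3 O4 O5 m0 m1 m2 m3 m4 m5 a0 a1 a2 a3 a4 a5) (Nat.add lo k)))
    (red4 N5)) (red4 N4)) (red4 N3)) (red4 N2)) (red4 N1)) (red7 T5)) (red7 T4)) (red7 T3)) (red7 T2)) (red7 T1)

def gK (e m a : ℕ) : ℕ := st (fun dl => gT m a dl) (Nat.sub e (oneM m))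

def chC (e m0 m1 m2 m3 m4 m5 a0 a1 a2 a3 a4 a5 lo n : ℕ) : Bool :=
  st (fun T0 => st (fun T1 => st (fun T2 => st (fun T3 => st (fun T4 => st (fun T5 =>
    chT T0 T1 T2 T3 T4 T5 m0 m1 m2 m3 m4 m5 a0 a1 a2 a3 a4 a5 lo n)
    (gK e m5 a5)) (gK e m4 a4)) (gK e m3 a3)) (gK e m2 a2)) (gK e m1 a1)) (gK e m0 a0)

/-- the check for the base structure `K` and the codes `lo ≤ w0 < lo + n` -/
def chk (K lo n : ℕ) : Bool :=
  st (fun e => st (fun m0 => st (fun m1 => st (fun m2 => st (fun m3 => st (fun m4 => st (fun m5 =>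
  st (fun a0 => st (fun a1 => st (fun a2 => st (fun a3 => st (fun a4 => st (fun a5 =>
    chC e m0 m1 m2 m3 m4 m5 a0 a1 a2 a3 a4 a5 lo n)
    (lk5 K)) (lk4 K)) (lk3 K)) (lk2 K)) (lk1 K)) (lk0 K))
    (mk5 K)) (mk4 K)) (mk3 K)) (mk2 K)) (mk1 K)) (mk0 K)) (ones K)

end Pool.Agent.N465.L2
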