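import Pool.Agent.N465.L2.Asm
import Pool.Agent.N465.L2.CDG
import Pool.Agent.N465.L2.STAR

/-! The upper bound. -/

set_option autoImplicit false

open Finset

namespace Pool.Agent.N465.L2

theorem goal_UPP : Goal_UPP := by
  obtain ⟨C, hC⟩ := goal_STAR
  refine ⟨C / 3840, fun n G hG hF => ?_⟩
  obtain ⟨hS, hc⟩ := goal_NON n G hG hF
  obtain ⟨h1, h2⟩ := goal_CDG n G hG hF
  have h3 := ineq7 hS hc
  have h4 := hC n G hG hF
  have h5 : (65 : ℝ) * p5 (non G) 1 ≤ 95 * p5 (non G) 2 + 223 * p5 (non G) 3 + 319 * p5 (non G) 4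
      + 255 * p5 (non G) 5 := by exact_mod_cast h3
  have h6 : (60 : ℝ) * ∑ P ∈ (univ : Finset (Fin n)).powersetCard 3, (codeg G P : ℝ) ^ 2
      = 6 * p5 (non G) 1 + 3 * p5 (non G) 2 + p5 (non G) 3 := by exact_mod_cast h1
  have h7 : (p5 (non G) 1 : ℝ) + p5 (non G) 2 + p5 (non G) 3 + p5 (non G) 4 + p5 (non G) 5 = (n : ℝ) ^ 5 := by
    exact_mod_cast h2
  linarith

end Pool.Agent.N465.L2
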