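import Pool.Agent.N465.L2.Bits
import Pool.Agent.N465.L2.Lv

/-! The seven-vertex inequality from the checks, in terms of bits. -/

set_option autoImplicit false
set_option linter.unusedVariables false
set_option maxRecDepth 100000

open Finset

namespace Pool.Agent.N465.L2

theorem psi_eq (hD : Goal_DOT) {m l l' : ℕ} (hm : m < 32) (hl : l < 1024) (hl' : l' < 1024) :
    psi m l l' = (cc m : ℤ) - (34359738368 + ∑ j ∈ range 24, (wt m j : ℤ) * av m l j * av m l' j) := by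
  unfold psi
  rw [hD m hm l hl l' hl']

theorem psi_sym (hD : Goal_DOT) {m l l' : ℕ} (hm : m < 32) (hl : l < 1024) (hl' : l' < 1024) :
    psi m l l' = psi m l' l := by
  rw [psi_eq hD hm hl hl', psi_eq hD hm hl' hl]
  have h : ∑ j ∈ range 24, (wt m j : ℤ) * av m l j * av m l' j = ∑ j ∈ range 24, (wt m j : ℤ) * av m l' j * av m l j :=
    Finset.sum_congr rfl (fun j _ => by ring)
  rw [h]

theorem amgm (hD : Goal_DOT) {m l l' : ℕ} (hm : m < 32) (hl : l < 1024) (hl' : l' < 1024) :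
    psi m l l + psi m l' l' ≤ 2 * psi m l l' := by
  rw [psi_eq hD hm hl hl', psi_eq hD hm hl hl, psi_eq hD hm hl' hl']
  have h : 2 * ∑ j ∈ range 24, (wt m j : ℤ) * av m l j * av m l' j ≤
      ∑ j ∈ range 24, (wt m j : ℤ) * av m l j * av m l j + ∑ j ∈ range 24, (wt m j : ℤ) * av m l' j * av m l' j := by
    rw [Finset.mul_sum, ← Finset.sum_add_distrib]
    refine Finset.sum_le_sum fun j _ => ?_
    have h1 : (0 : ℤ) ≤ (wt m j : ℤ) * (av m l j - av m l' j) ^ 2 :=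
      mul_nonneg (Int.natCast_nonneg _) (sq_nonneg _)
    nlinarith [h1]
  linarith

/-- the five diagonal terms of a vertex -/
def S5 (b0 b1 b2 b3 b4 e01 e02 e03 e04 e12 e13 e14 e23 e24 e34 : ℕ) : ℤ :=
  psi (cm e01 e02 e03 e04 b0) (cl e12 e13 e14 b1 e23 e24 b2 e34 b3 b4) (cl e12 e13 e14 b1 e23 e24 b2 e34 b3 b4) +
  psi (cm e01 e12 e13 e14 b1) (cl e02 e03 e04 b0 e23 e24 b2 e34 b3 b4) (cl e02 e03 e04 b0 e23 e24 b2 e34 b3 b4) +
  psi (cm e02 e12 e23 e24 b2) (cl e01 e03 e04 b0 e13 e14 b1 e34 b3 b4) (cl e01 e03 e04 b0 e13 e14 b1 e34 b3 b4) +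
  psi (cm e03 e13 e23 e34 b3) (cl e01 e02 e04 b0 e12 e14 b1 e24 b2 b4) (cl e01 e02 e04 b0 e12 e14 b1 e24 b2 b4) +
  psi (cm e04 e14 e24 e34 b4) (cl e01 e02 e03 b0 e12 e13 b1 e23 b2 b3) (cl e01 e02 e03 b0 e12 e13 b1 e23 b2 b3)

theorem zt_psi {b0 b1 b2 b3 b4 e01 e02 e03 e04 e12 e13 e14 e23 e24 e34 : ℕ} (hb0 : b0 < 2) (hb1 : b1 < 2) (hb2 : b2 < 2) (hb3 : b3 < 2) (hb4 : b4 < 2) (he01 : e01 < 2) (he02 : e02 < 2) (he03 : e03 < 2) (he04 : e04 < 2) (he12 : e12 < 2) (he13 : e13 < 2) (he14 : e14 < 2) (he23 : e23 < 2) (he24 : e24 < 2) (he34 : e34 < 2) :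
    274877906944 ≤ zt (cm b0 b1 b2 b3 b4) (cl e01 e02 e03 e04 e12 e13 e14 e23 e24 e34) ∧
    (zt (cm b0 b1 b2 b3 b4) (cl e01 e02 e03 e04 e12 e13 e14 e23 e24 e34) : ℤ) = 549755813888 + S5 b0 b1 b2 b3 b4 e01 e02 e03 e04 e12 e13 e14 e23 e24 e34 := by
  obtain ⟨h1, h2⟩ := zt_spec hb0 hb1 hb2 hb3 hb4 he01 he02 he03 he04 he12 he13 he14 he23 he24 he34
  refine ⟨h1, ?_⟩
  rw [h2]
  unfold Q0 Q1 Q2 Q3 Q4 S5
  rw [dg0_eq (cm_lt he01 he02 he03 he04 hb0)]
  rw [dg0_eq (cm_lt he01 he12 he13 he14 hb1)]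
  rw [dg0_eq (cm_lt he02 he12 he23 he24 hb2)]
  rw [dg0_eq (cm_lt he03 he13 he23 he34 hb3)]
  rw [dg0_eq (cm_lt he04 he14 he24 he34 hb4)]

theorem gv_bits {b0 b1 b2 b3 b4 e01 e02 e03 e04 e12 e13 e14 e23 e24 e34 : ℕ} (a dl : ℕ) (hb0 : b0 < 2) (hb1 : b1 < 2) (hb2 : b2 < 2) (hb3 : b3 < 2) (hb4 : b4 < 2) (he01 : e01 < 2) (he02 : e02 < 2) (he03 : e03 < 2) (he04 : e04 < 2) (he12 : e12 < 2) (he13 : e13 < 2) (he14 : e14 < 2) (he23 : e23 < 2) (he24 : e24 < 2) (he34 : e34 < 2)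
    (c0 : 1 ≤ b0 + (e01 + e02 + e03 + e04))
    (c1 : 1 ≤ b1 + (e01 + e12 + e13 + e14))
    (c2 : 1 ≤ b2 + (e02 + e12 + e23 + e24))
    (c3 : 1 ≤ b3 + (e03 + e13 + e23 + e34))
    (c4 : 1 ≤ b4 + (e04 + e14 + e24 + e34))
    (hd : e01 + e02 + e03 + e04 + e12 + e13 + e14 + e23 + e24 + e34 ≤ dl) :
    (gv (cm b0 b1 b2 b3 b4) a dl (cl e01 e02 e03 e04 e12 e13 e14 e23 e24 e34) : ℤ) = 549755813888 + S5 b0 b1 b2 b3 b4 e01 e02 e03 e04 e12 e13 e14 e23 e24 e34 + 2 * psi (cm b0 b1 b2 b3 b4) a (cl e01 e02 e03 e04 e12 e13 e14 e23 e24 e34) := by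
  obtain ⟨h1, h2⟩ := zt_psi hb0 hb1 hb2 hb3 hb4 he01 he02 he03 he04 he12 he13 he14 he23 he24 he34
  have h3 := okl_spec hb0 hb1 hb2 hb3 hb4 he01 he02 he03 he04 he12 he13 he14 he23 he24 he34 c0 c1 c2 c3 c4
  have h4 : pc (cl e01 e02 e03 e04 e12 e13 e14 e23 e24 e34) ≤ dl := by rw [pc_cl he01 he02 he03 he04 he12 he13 he14 he23 he24 he34]; exact hd
  rw [gv_eq h3 h4 h1, h2]

theorem fd_eq (s S : ℕ) : fd s S = S / 2 ^ s % 1024 := by
  show (S >>> s) % 1024 = _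
  rw [Nat.shiftRight_eq_div_pow]

theorem fd_pack {A B C D : ℕ} (hA : A < 1024) (hB : B < 1024) (hC : C < 1024) (hD : D < 1024) :
    fd 0 (A + 1024 * B + 1048576 * C + 1073741824 * D) = A ∧
    fd 10 (A + 1024 * B + 1048576 * C + 1073741824 * D) = B ∧
    fd 20 (A + 1024 * B + 1048576 * C + 1073741824 * D) = C ∧
    fd 30 (A + 1024 * B + 1048576 * C + 1073741824 * D) = D := by
  simp only [fd_eq]
  refine ⟨?_, ?_, ?_, ?_⟩ <;> norm_num <;> omega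

theorem p0_bits {h012 h013 h014 h015 h023 h024 h025 h034 h035 h045 : ℕ} (hh012 : h012 < 2) (hh013 : h013 < 2) (hh014 : h014 < 2) (hh015 : h015 < 2) (hh023 : h023 < 2) (hh024 : h024 < 2) (hh025 : h025 < 2) (hh034 : h034 < 2) (hh035 : h035 < 2) (hh045 : h045 < 2) :
    p0 (cl h012 h013 h014 h015 h023 h024 h025 h034 h035 h045) = (h012 + 2 * h023 + 4 * h024 + 8 * h025) + 1024 * (h013 + 2 * h023 + 4 * h034 + 8 * h035) + 1048576 * (h014 + 2 * h024 + 4 * h034 + 8 * h045) + 1073741824 * (h015 + 2 * h025 + 4 * h035 + 8 * h045) := by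
  rw [p0_spec (cl_lt hh012 hh013 hh014 hh015 hh023 hh024 hh025 hh034 hh035 hh045)]
  simp only [bt0_cl hh012 hh013 hh014 hh015 hh023 hh024 hh025 hh034 hh035 hh045, bt1_cl hh012 hh013 hh014 hh015 hh023 hh024 hh025 hh034 hh035 hh045, bt2_cl hh012 hh013 hh014 hh015 hh023 hh024 hh025 hh034 hh035 hh045, bt3_cl hh012 hh013 hh014 hh015 hh023 hh024 hh025 hh034 hh035 hh045, bt4_cl hh012 hh013 hh014 hh015 hh023 hh024 hh025 hh034 hh035 hh045, bt5_cl hh012 hh013 hh014 hh015 hh023 hh024 hh025 hh034 hh035 hh045, bt6_cl hh012 hh013 hh014 hh015 hh023 hh024 hh025 hh034 hh035 hh045, bt7_cl hh012 hh013 hh014 hh015 hh023 hh024 hh025 hh034 hh035 hh045, bt8_cl hh012 hh013 hh014 hh015 hh023 hh024 hh025 hh034 hh035 hh045, bt9_cl hh012 hh013 hh014 hh015 hh023 hh024 hh025 hh034 hh035 hh045]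

theorem p1_bits {h123 h124 h125 h134 h135 h145 : ℕ} (hh123 : h123 < 2) (hh124 : h124 < 2) (hh125 : h125 < 2) (hh134 : h134 < 2) (hh135 : h135 < 2) (hh145 : h145 < 2) :
    p1 (h123 + 2 * h124 + 4 * h125 + 8 * h134 + 16 * h135 + 32 * h145) = (16 * h123 + 32 * h124 + 64 * h125) + 1024 * (16 * h123 + 32 * h134 + 64 * h135) + 1048576 * (16 * h124 + 32 * h134 + 64 * h145) + 1073741824 * (16 * h125 + 32 * h135 + 64 * h145) := by
  rw [p1_spec (by omega)]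
  have u0 : bt 0 (h123 + 2 * h124 + 4 * h125 + 8 * h134 + 16 * h135 + 32 * h145) = h123 := by rw [bt_eq]; omega
  have u1 : bt 1 (h123 + 2 * h124 + 4 * h125 + 8 * h134 + 16 * h135 + 32 * h145) = h124 := by rw [bt_eq]; omega
  have u2 : bt 2 (h123 + 2 * h124 + 4 * h125 + 8 * h134 + 16 * h135 + 32 * h145) = h125 := by rw [bt_eq]; omega
  have u3 : bt 3 (h123 + 2 * h124 + 4 * h125 + 8 * h134 + 16 * h135 + 32 * h145) = h134 := by rw [bt_eq]; omega
  have u4 : bt 4 (h123 + 2 * h124 + 4 * h125 + 8 * h134 + 16 * h135 + 32 * h145) = h135 := by rw [bt_eq]; omega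
  have u5 : bt 5 (h123 + 2 * h124 + 4 * h125 + 8 * h134 + 16 * h135 + 32 * h145) = h145 := by rw [bt_eq]; omega
  rw [u0, u1, u2, u3, u4, u5]

theorem p2_bits {h234 h235 h245 : ℕ} (hh234 : h234 < 2) (hh235 : h235 < 2) (hh245 : h245 < 2) :
    p2 (h234 + 2 * h235 + 4 * h245) = (128 * h234 + 256 * h235 + 512 * h245) + 1024 * (128 * h234 + 256 * h235) + 1048576 * (128 * h234 + 256 * h245) + 1073741824 * (128 * h235 + 256 * h245) := by
  rw [p2_spec (by omega)]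
  have u0 : bt 0 (h234 + 2 * h235 + 4 * h245) = h234 := by rw [bt_eq]; omega
  have u1 : bt 1 (h234 + 2 * h235 + 4 * h245) = h235 := by rw [bt_eq]; omega
  have u2 : bt 2 (h234 + 2 * h235 + 4 * h245) = h245 := by rw [bt_eq]; omega
  rw [u0, u1, u2]

theorem fields {h012 h013 h014 h015 h023 h024 h025 h034 h035 h045 h123 h124 h125 h134 h135 h145 h234 h235 h245 h345 : ℕ} (hh012 : h012 < 2) (hh013 : h013 < 2) (hh014 : h014 < 2) (hh015 : h015 < 2) (hh023 : h023 < 2) (hh024 : h024 < 2) (hh025 : h025 < 2) (hh034 : h034 < 2) (hh035 : h035 < 2) (hh045 : h045 < 2) (hh123 : h123 < 2) (hh124 : h124 < 2) (hh125 : h125 < 2) (hh134 : h134 < 2) (hh135 : h135 < 2) (hh145 : h145 < 2) (hh234 : h234 < 2) (hh235 : h235 < 2) (hh245 : h245 < 2) (hh345 : h345 < 2) :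
    fd 0 (p0 (cl h012 h013 h014 h015 h023 h024 h025 h034 h035 h045)) = (cl h012 h023 h024 h025 h123 h124 h125 h234 h235 h245) % 16 ∧
    fd 10 (p0 (cl h012 h013 h014 h015 h023 h024 h025 h034 h035 h045)) = (cl h013 h023 h034 h035 h123 h134 h135 h234 h235 h345) % 16 ∧
    fd 20 (p0 (cl h012 h013 h014 h015 h023 h024 h025 h034 h035 h045)) = (cl h014 h024 h034 h045 h124 h134 h145 h234 h245 h345) % 16 ∧
    fd 30 (p0 (cl h012 h013 h014 h015 h023 h024 h025 h034 h035 h045)) = (cl h015 h025 h035 h045 h125 h135 h145 h235 h245 h345) % 16 ∧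
    fd 0 (p0 (cl h012 h013 h014 h015 h023 h024 h025 h034 h035 h045) + p1 (h123 + 2 * h124 + 4 * h125 + 8 * h134 + 16 * h135 + 32 * h145)) = (cl h012 h023 h024 h025 h123 h124 h125 h234 h235 h245) % 128 ∧
    fd 10 (p0 (cl h012 h013 h014 h015 h023 h024 h025 h034 h035 h045) + p1 (h123 + 2 * h124 + 4 * h125 + 8 * h134 + 16 * h135 + 32 * h145)) = (cl h013 h023 h034 h035 h123 h134 h135 h234 h235 h345) % 128 ∧
    fd 20 (p0 (cl h012 h013 h014 h015 h023 h024 h025 h034 h035 h045) + p1 (h123 + 2 * h124 + 4 * h125 + 8 * h134 + 16 * h135 + 32 * h145)) = (cl h014 h024 h034 h045 h124 h134 h145 h234 h245 h345) % 128 ∧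
    fd 30 (p0 (cl h012 h013 h014 h015 h023 h024 h025 h034 h035 h045) + p1 (h123 + 2 * h124 + 4 * h125 + 8 * h134 + 16 * h135 + 32 * h145)) = (cl h015 h025 h035 h045 h125 h135 h145 h235 h245 h345) % 128 ∧
    fd 0 (p0 (cl h012 h013 h014 h015 h023 h024 h025 h034 h035 h045) + p1 (h123 + 2 * h124 + 4 * h125 + 8 * h134 + 16 * h135 + 32 * h145) + p2 (h234 + 2 * h235 + 4 * h245) + h345 * pT3) = (cl h012 h023 h024 h025 h123 h124 h125 h234 h235 h245) ∧
    fd 10 (p0 (cl h012 h013 h014 h015 h023 h024 h025 h034 h035 h045) + p1 (h123 + 2 * h124 + 4 * h125 + 8 * h134 + 16 * h135 + 32 * h145) + p2 (h234 + 2 * h235 + 4 * h245) + h345 * pT3) = (cl h013 h023 h034 h035 h123 h134 h135 h234 h235 h345) ∧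
    fd 20 (p0 (cl h012 h013 h014 h015 h023 h024 h025 h034 h035 h045) + p1 (h123 + 2 * h124 + 4 * h125 + 8 * h134 + 16 * h135 + 32 * h145) + p2 (h234 + 2 * h235 + 4 * h245) + h345 * pT3) = (cl h014 h024 h034 h045 h124 h134 h145 h234 h245 h345) ∧
    fd 30 (p0 (cl h012 h013 h014 h015 h023 h024 h025 h034 h035 h045) + p1 (h123 + 2 * h124 + 4 * h125 + 8 * h134 + 16 * h135 + 32 * h145) + p2 (h234 + 2 * h235 + 4 * h245) + h345 * pT3) = (cl h015 h025 h035 h045 h125 h135 h145 h235 h245 h345) := by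
  rw [p0_bits hh012 hh013 hh014 hh015 hh023 hh024 hh025 hh034 hh035 hh045, p1_bits hh123 hh124 hh125 hh134 hh135 hh145, p2_bits hh234 hh235 hh245, tabP3]
  have e1 : (h012 + 2 * h023 + 4 * h024 + 8 * h025) + 1024 * (h013 + 2 * h023 + 4 * h034 + 8 * h035) + 1048576 * (h014 + 2 * h024 + 4 * h034 + 8 * h045) + 1073741824 * (h015 + 2 * h025 + 4 * h035 + 8 * h045) + ((16 * h123 + 32 * h124 + 64 * h125) + 1024 * (16 * h123 + 32 * h134 + 64 * h135) + 1048576 * (16 * h124 + 32 * h134 + 64 * h145) + 1073741824 * (16 * h125 + 32 * h135 + 64 * h145)) = ((h012 + 2 * h023 + 4 * h024 + 8 * h025) + (16 * h123 + 32 * h124 + 64 * h125)) + 1024 * ((h013 + 2 * h023 + 4 * h034 + 8 * h035) + (16 * h123 + 32 * h134 + 64 * h135)) + 1048576 * ((h014 + 2 * h024 + 4 * h034 + 8 * h045) + (16 * h124 + 32 * h134 + 64 * h145)) + 1073741824 * ((h015 + 2 * h025 + 4 * h035 + 8 * h045) + (16 * h125 + 32 * h135 + 64 *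 h145)) := by ring
  have e2 : (h012 + 2 * h023 + 4 * h024 + 8 * h025) + 1024 * (h013 + 2 * h023 + 4 * h034 + 8 * h035) + 1048576 * (h014 + 2 * h024 + 4 * h034 + 8 * h045) + 1073741824 * (h015 + 2 * h025 + 4 * h035 + 8 * h045) + ((16 * h123 + 32 * h124 + 64 * h125) + 1024 * (16 * h123 + 32 * h134 + 64 * h135) + 1048576 * (16 * h124 + 32 * h134 + 64 * h145) + 1073741824 * (16 * h125 + 32 * h135 + 64 * h145)) + ((128 * h234 + 256 * h235 + 512 * h245) + 1024 * (128 * h234 + 256 * h235) + 1048576 * (128 * h234 + 256 * h245) + 1073741824 * (128 * h235 + 256 * h245)) + h345 * (1024 * 512 + 1048576 * 512 + 1073741824 * 512) = ((h012 + 2 * h023 + 4 * h024 + 8 * h025) + (16 * h123 + 32 * h124 + 64 * h125) + (128 * h234 + 256 * h235 + 512 * h245) + (0 * h345)) + 1024 * ((h013 + 2 * h023 + 4 * h034 + 8 * h035) + (16 * h123 + 32 * h134 + 64 * h135) + (128 * h234 + 256 * h235) + (512 * h345)) + 1048576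 * ((h014 + 2 * h024 + 4 * h034 + 8 * h045) + (16 * h124 + 32 * h134 + 64 * h145) + (128 * h234 + 256 * h245) + (512 * h345)) + 1073741824 * ((h015 + 2 * h025 + 4 * h035 + 8 * h045) + (16 * h125 + 32 * h135 + 64 * h145) + (128 * h235 + 256 * h245) + (512 * h345)) := by ring
  rw [e2, e1]
  obtain ⟨x0, x1, x2, x3⟩ := fd_pack (A := (h012 + 2 * h023 + 4 * h024 + 8 * h025)) (B := (h013 + 2 * h023 + 4 * h034 + 8 * h035)) (C := (h014 + 2 * h024 + 4 * h034 + 8 * h045)) (D := (h015 + 2 * h025 + 4 * h035 + 8 * h045)) (by omega) (by omega) (by omega) (by omega)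
  obtain ⟨y0, y1, y2, y3⟩ := fd_pack (A := ((h012 + 2 * h023 + 4 * h024 + 8 * h025) + (16 * h123 + 32 * h124 + 64 * h125))) (B := ((h013 + 2 * h023 + 4 * h034 + 8 * h035) + (16 * h123 + 32 * h134 + 64 * h135))) (C := ((h014 + 2 * h024 + 4 * h034 + 8 * h045) + (16 * h124 + 32 * h134 + 64 * h145))) (D := ((h015 + 2 * h025 + 4 * h035 + 8 * h045) + (16 * h125 + 32 * h135 + 64 * h145))) (by omega) (by omega) (by omega) (by omega)
  obtain ⟨z0, z1, z2, z3⟩ := fd_pack (A := ((h012 + 2 * h023 + 4 * h024 + 8 * h025) + (16 * h123 + 32 * h124 + 64 * h125) + (128 * h234 + 256 * h235 + 512 * h245) + (0 * h345))) (B := ((h013 + 2 * h023 + 4 * h034 + 8 * h035) + (16 * h123 + 32 * h134 + 64 * h135) + (128 * h234 + 256 * h235) + (512 * h345))) (C := ((h014 + 2 * h024 + 4 * h034 + 8 * h045) + (16 * h124 + 32 * h134 + 64 * h145) + (128 * h234 + 256 * h245) + (512 * h345))) (D := ((h015 + 2 * h025 + 4 *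 h035 + 8 * h045) + (16 * h125 + 32 * h135 + 64 * h145) + (128 * h235 + 256 * h245) + (512 * h345))) (by omega) (by omega) (by omega) (by omega)
  rw [x0, x1, x2, x3, y0, y1, y2, y3, z0, z1, z2, z3]
  unfold cl
  refine ⟨?_, ?_, ?_, ?_, ?_, ?_, ?_, ?_, ?_, ?_, ?_, ?_⟩ <;> omega

end Pool.Agent.N465.L2
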