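import Pool.Agent.N465.L2.Leaf0

/-! The seven-vertex inequality from the checks, in terms of bits. -/

set_option autoImplicit false
set_option linter.unusedVariables false
set_option maxRecDepth 100000

open Finset

namespace Pool.Agent.N465.L2

/-- the sum of the 21 terms -/
def LF (k01 k02 k03 k04 k05 k12 k13 k14 k15 k23 k24 k25 k34 k35 k45 h012 h013 h014 h015 h023 h024 h025 h034 h035 h045 h123 h124 h125 h134 h135 h145 h234 h235 h245 h345 : ℕ) : ℤ :=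
  psi (cm h012 h013 h014 h015 k01) (cl h123 h124 h125 k12 h134 h135 k13 h145 k14 k15) (cl h023 h024 h025 k02 h034 h035 k03 h045 k04 k05) +
    psi (cm h012 h023 h024 h025 k02) (cl h123 h124 h125 k12 h234 h235 k23 h245 k24 k25) (cl h013 h014 h015 k01 h034 h035 k03 h045 k04 k05) +
    psi (cm h013 h023 h034 h035 k03) (cl h123 h134 h135 k13 h234 h235 k23 h345 k34 k35) (cl h012 h014 h015 k01 h024 h025 k02 h045 k04 k05) +
    psi (cm h014 h024 h034 h045 k04) (cl h124 h134 h145 k14 h234 h245 k24 h345 k34 k45) (cl h012 h013 h015 k01 h023 h025 k02 h035 k03 k05) +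
    psi (cm h015 h025 h035 h045 k05) (cl h125 h135 h145 k15 h235 h245 k25 h345 k35 k45) (cl h012 h013 h014 k01 h023 h024 k02 h034 k03 k04) +
    psi (cm k01 k02 k03 k04 k05) (cl k12 k13 k14 k15 k23 k24 k25 k34 k35 k45) (cl h012 h013 h014 h015 h023 h024 h025 h034 h035 h045) +
    psi (cm h012 h123 h124 h125 k12) (cl h023 h024 h025 k02 h234 h235 k23 h245 k24 k25) (cl h013 h014 h015 k01 h134 h135 k13 h145 k14 k15) +
    psi (cm h013 h123 h134 h135 k13) (cl h023 h034 h035 k03 h234 h235 k23 h345 k34 k35) (cl h012 h014 h015 k01 h124 h125 k12 h145 k14 k15) +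
    psi (cm h014 h124 h134 h145 k14) (cl h024 h034 h045 k04 h234 h245 k24 h345 k34 k45) (cl h012 h013 h015 k01 h123 h125 k12 h135 k13 k15) +
    psi (cm h015 h125 h135 h145 k15) (cl h025 h035 h045 k05 h235 h245 k25 h345 k35 k45) (cl h012 h013 h014 k01 h123 h124 k12 h134 k13 k14) +
    psi (cm k01 k12 k13 k14 k15) (cl k02 k03 k04 k05 k23 k24 k25 k34 k35 k45) (cl h012 h013 h014 h015 h123 h124 h125 h134 h135 h145) +
    psi (cm h023 h123 h234 h235 k23) (cl h013 h034 h035 k03 h134 h135 k13 h345 k34 k35) (cl h012 h024 h025 k02 h124 h125 k12 h245 k24 k25) +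
    psi (cm h024 h124 h234 h245 k24) (cl h014 h034 h045 k04 h134 h145 k14 h345 k34 k45) (cl h012 h023 h025 k02 h123 h125 k12 h235 k23 k25) +
    psi (cm h025 h125 h235 h245 k25) (cl h015 h035 h045 k05 h135 h145 k15 h345 k35 k45) (cl h012 h023 h024 k02 h123 h124 k12 h234 k23 k24) +
    psi (cm k02 k12 k23 k24 k25) (cl k01 k03 k04 k05 k13 k14 k15 k34 k35 k45) (cl h012 h023 h024 h025 h123 h124 h125 h234 h235 h245) +
    psi (cm h034 h134 h234 h345 k34) (cl h014 h024 h045 k04 h124 h145 k14 h245 k24 k45) (cl h013 h023 h035 k03 h123 h135 k13 h235 k23 k35) +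
    psi (cm h035 h135 h235 h345 k35) (cl h015 h025 h045 k05 h125 h145 k15 h245 k25 k45) (cl h013 h023 h034 k03 h123 h134 k13 h234 k23 k34) +
    psi (cm k03 k13 k23 k34 k35) (cl k01 k02 k04 k05 k12 k14 k15 k24 k25 k45) (cl h013 h023 h034 h035 h123 h134 h135 h234 h235 h345) +
    psi (cm h045 h145 h245 h345 k45) (cl h015 h025 h035 k05 h125 h135 k15 h235 k25 k35) (cl h014 h024 h034 k04 h124 h134 k14 h234 k24 k34) +
    psi (cm k04 k14 k24 k34 k45) (cl k01 k02 k03 k05 k12 k13 k15 k23 k25 k35) (cl h014 h024 h034 h045 h124 h134 h145 h234 h245 h345) +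
    psi (cm k05 k15 k25 k35 k45) (cl k01 k02 k03 k04 k12 k13 k14 k23 k24 k34) (cl h015 h025 h035 h045 h125 h135 h145 h235 h245 h345)

theorem full_bits {k01 k02 k03 k04 k05 k12 k13 k14 k15 k23 k24 k25 k34 k35 k45 h012 h013 h014 h015 h023 h024 h025 h034 h035 h045 h123 h124 h125 h134 h135 h145 h234 h235 h245 h345 : ℕ} (hk01 : k01 < 2) (hk02 : k02 < 2) (hk03 : k03 < 2) (hk04 : k04 < 2) (hk05 : k05 < 2) (hk12 : k12 < 2) (hk13 : k13 < 2) (hk14 : k14 < 2) (hk15 : k15 < 2) (hk23 : k23 < 2) (hk24 : k24 < 2) (hk25 : k25 < 2) (hk34 : k34 < 2) (hk35 : k35 < 2) (hk45 : k45 < 2) (hh012 : h012 < 2) (hh013 : h013 < 2) (hh014 : h014 < 2) (hh015 : h015 < 2) (hh023 : h023 < 2) (hh024 : h024 < 2) (hh025 : h025 < 2) (hh034 : h034 < 2) (hh035 : h035 < 2) (hh045 : h045 < 2) (hh123 : h123 < 2) (hh124 : h124 < 2) (hh125 : h125 < 2) (hh134 : h134 < 2) (hh135 : h135 < 2) (hh145 : h145 < 2) (hh234 : h234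 < 2) (hh235 : h235 < 2) (hh245 : h245 < 2) (hh345 : h345 < 2) :
    (full (cm k01 k02 k03 k04 k05) (cm k01 k12 k13 k14 k15) (cm k02 k12 k23 k24 k25) (cm k03 k13 k23 k34 k35) (cm k04 k14 k24 k34 k45) (cm k05 k15 k25 k35 k45) (cl k12 k13 k14 k15 k23 k24 k25 k34 k35 k45) (cl k02 k03 k04 k05 k23 k24 k25 k34 k35 k45) (cl k01 k03 k04 k05 k13 k14 k15 k34 k35 k45) (cl k01 k02 k04 k05 k12 k14 k15 k24 k25 k45) (cl k01 k02 k03 k05 k12 k13 k15 k23 k25 k35) (cl k01 k02 k03 k04 k12 k13 k14 k23 k24 k34) (cl h012 h013 h014 h015 h023 h024 h025 h034 h035 h045) (cl h012 h013 h014 h015 h123 h124 h125 h134 h135 h145) (cl h012 h023 h024 h025 h123 h124 h125 h234 h235 h245) (cl h013 h023 h034 h035 h123 h134 h135 h234 h235 h345) (cl h014 h024 h034 h045 h124 h134 h145 h234 h245 h345) (cl h015 h025 h035 h045 h125 h135 h145 h235 h245 h345) : ℤ) =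
      ((psi (cm k01 k02 k03 k04 k05) (cl k12 k13 k14 k15 k23 k24 k25 k34 k35 k45) (cl h012 h013 h014 h015 h023 h024 h025 h034 h035 h045) + 68719476736) + ((psi (cm k01 k12 k13 k14 k15) (cl k02 k03 k04 k05 k23 k24 k25 k34 k35 k45) (cl h012 h013 h014 h015 h123 h124 h125 h134 h135 h145) + 68719476736) + ((psi (cm k02 k12 k23 k24 k25) (cl k01 k03 k04 k05 k13 k14 k15 k34 k35 k45) (cl h012 h023 h024 h025 h123 h124 h125 h234 h235 h245) + 68719476736) + ((psi (cm k03 k13 k23 k34 k35) (cl k01 k02 k04 k05 k12 k14 k15 k24 k25 k45) (cl h013 h023 h034 h035 h123 h134 h135 h234 h235 h345) + 68719476736) + ((psi (cm k04 k14 k24 k34 k45) (cl k01 k02 k03 k05 k12 k13 k15 k23 k25 k35) (cl h014 h024 h034 h045 h124 h134 h145 h234 h245 h345) + 68719476736) + ((psi (cm k05 k15 k25 k35 k45) (cl k01 k02 k03 k04 k12 k13 k14 k23 k24 k34) (cl h015 h025 h035 h045 h125 h135 h145 h235 h245 h345) + 68719476736)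 + ((psi (cm h012 h013 h014 h015 k01) (cl h023 h024 h025 k02 h034 h035 k03 h045 k04 k05) (cl h123 h124 h125 k12 h134 h135 k13 h145 k14 k15) + 68719476736) + ((psi (cm h012 h023 h024 h025 k02) (cl h013 h014 h015 k01 h034 h035 k03 h045 k04 k05) (cl h123 h124 h125 k12 h234 h235 k23 h245 k24 k25) + 68719476736) + ((psi (cm h013 h023 h034 h035 k03) (cl h012 h014 h015 k01 h024 h025 k02 h045 k04 k05) (cl h123 h134 h135 k13 h234 h235 k23 h345 k34 k35) + 68719476736) + ((psi (cm h014 h024 h034 h045 k04) (cl h012 h013 h015 k01 h023 h025 k02 h035 k03 k05) (cl h124 h134 h145 k14 h234 h245 k24 h345 k34 k45) + 68719476736) + ((psi (cm h015 h025 h035 h045 k05) (cl h012 h013 h014 k01 h023 h024 k02 h034 k03 k04) (cl h125 h135 h145 k15 h235 h245 k25 h345 k35 k45) + 68719476736) + ((psi (cm h012 h123 h124 h125 k12) (cl h013 h014 h015 k01 h134 h135 k13 h145 k14 k15) (cl h023 h024 h025 k02 h234 h235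 k23 h245 k24 k25) + 68719476736) + ((psi (cm h013 h123 h134 h135 k13) (cl h012 h014 h015 k01 h124 h125 k12 h145 k14 k15) (cl h023 h034 h035 k03 h234 h235 k23 h345 k34 k35) + 68719476736) + ((psi (cm h014 h124 h134 h145 k14) (cl h012 h013 h015 k01 h123 h125 k12 h135 k13 k15) (cl h024 h034 h045 k04 h234 h245 k24 h345 k34 k45) + 68719476736) + ((psi (cm h015 h125 h135 h145 k15) (cl h012 h013 h014 k01 h123 h124 k12 h134 k13 k14) (cl h025 h035 h045 k05 h235 h245 k25 h345 k35 k45) + 68719476736) + ((psi (cm h023 h123 h234 h235 k23) (cl h012 h024 h025 k02 h124 h125 k12 h245 k24 k25) (cl h013 h034 h035 k03 h134 h135 k13 h345 k34 k35) + 68719476736) + ((psi (cm h024 h124 h234 h245 k24) (cl h012 h023 h025 k02 h123 h125 k12 h235 k23 k25) (cl h014 h034 h045 k04 h134 h145 k14 h345 k34 k45) + 68719476736) + ((psi (cm h025 h125 h235 h245 k25) (cl h012 h023 h024 k02 h123 h124 k12 h234 k23 k24)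 (cl h015 h035 h045 k05 h135 h145 k15 h345 k35 k45) + 68719476736) + ((psi (cm h034 h134 h234 h345 k34) (cl h013 h023 h035 k03 h123 h135 k13 h235 k23 k35) (cl h014 h024 h045 k04 h124 h145 k14 h245 k24 k45) + 68719476736) + ((psi (cm h035 h135 h235 h345 k35) (cl h013 h023 h034 k03 h123 h134 k13 h234 k23 k34) (cl h015 h025 h045 k05 h125 h145 k15 h245 k25 k45) + 68719476736) + (psi (cm h045 h145 h245 h345 k45) (cl h014 h024 h034 k04 h124 h134 k14 h234 k24 k34) (cl h015 h025 h035 k05 h125 h135 k15 h235 k25 k35) + 68719476736))))))))))))))))))))) := by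
  unfold full tm6
  obtain ⟨u00, u01, u02, u03, u04⟩ := qc_spec hk01 hk02 hk03 hk04 hk05 hh012 hh013 hh014 hh015 hh023 hh024 hh025 hh034 hh035 hh045
  obtain ⟨u10, u11, u12, u13, u14⟩ := qc_spec hk01 hk12 hk13 hk14 hk15 hh012 hh013 hh014 hh015 hh123 hh124 hh125 hh134 hh135 hh145
  obtain ⟨u20, u21, u22, u23, u24⟩ := qc_spec hk02 hk12 hk23 hk24 hk25 hh012 hh023 hh024 hh025 hh123 hh124 hh125 hh234 hh235 hh245
  obtain ⟨u30, u31, u32, u33, u34⟩ := qc_spec hk03 hk13 hk23 hk34 hk35 hh013 hh023 hh034 hh035 hh123 hh134 hh135 hh234 hh235 hh345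
  obtain ⟨u40, u41, u42, u43, u44⟩ := qc_spec hk04 hk14 hk24 hk34 hk45 hh014 hh024 hh034 hh045 hh124 hh134 hh145 hh234 hh245 hh345
  obtain ⟨u50, u51, u52, u53, u54⟩ := qc_spec hk05 hk15 hk25 hk35 hk45 hh015 hh025 hh035 hh045 hh125 hh135 hh145 hh235 hh245 hh345
  simp only [st_eq, u00, u01, u02, u03, u04, u10, u11, u12, u13, u14, u20, u21, u22, u23, u24, u30, u31, u32, u33, u34, u40, u41, u42, u43, u44, u50, u51, u52, u53, u54]
  unfold Q0 Q1 Q2 Q3 Q4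
  simp only [Nat.add_eq, Nat.mul_eq, Nat.cast_add]
  rw [tm_eq (m := (cm k01 k02 k03 k04 k05)) (l := (cl k12 k13 k14 k15 k23 k24 k25 k34 k35 k45)) (l' := (cl h012 h013 h014 h015 h023 h024 h025 h034 h035 h045)) (cm_lt hk01 hk02 hk03 hk04 hk05)]
  rw [tm_eq (m := (cm k01 k12 k13 k14 k15)) (l := (cl k02 k03 k04 k05 k23 k24 k25 k34 k35 k45)) (l' := (cl h012 h013 h014 h015 h123 h124 h125 h134 h135 h145)) (cm_lt hk01 hk12 hk13 hk14 hk15)]
  rw [tm_eq (m := (cm k02 k12 k23 k24 k25)) (l := (cl k01 k03 k04 k05 k13 k14 k15 k34 k35 k45)) (l' := (cl h012 h023 h024 h025 h123 h124 h125 h234 h235 h245)) (cm_lt hk02 hk12 hk23 hk24 hk25)]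
  rw [tm_eq (m := (cm k03 k13 k23 k34 k35)) (l := (cl k01 k02 k04 k05 k12 k14 k15 k24 k25 k45)) (l' := (cl h013 h023 h034 h035 h123 h134 h135 h234 h235 h345)) (cm_lt hk03 hk13 hk23 hk34 hk35)]
  rw [tm_eq (m := (cm k04 k14 k24 k34 k45)) (l := (cl k01 k02 k03 k05 k12 k13 k15 k23 k25 k35)) (l' := (cl h014 h024 h034 h045 h124 h134 h145 h234 h245 h345)) (cm_lt hk04 hk14 hk24 hk34 hk45)]
  rw [tm_eq (m := (cm k05 k15 k25 k35 k45)) (l := (cl k01 k02 k03 k04 k12 k13 k14 k23 k24 k34)) (l' := (cl h015 h025 h035 h045 h125 h135 h145 h235 h245 h345)) (cm_lt hk05 hk15 hk25 hk35 hk45)]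
  rw [tm_eq (m := (cm h012 h013 h014 h015 k01)) (l := (cl h023 h024 h025 k02 h034 h035 k03 h045 k04 k05)) (l' := (cl h123 h124 h125 k12 h134 h135 k13 h145 k14 k15)) (cm_lt hh012 hh013 hh014 hh015 hk01)]
  rw [tm_eq (m := (cm h012 h023 h024 h025 k02)) (l := (cl h013 h014 h015 k01 h034 h035 k03 h045 k04 k05)) (l' := (cl h123 h124 h125 k12 h234 h235 k23 h245 k24 k25)) (cm_lt hh012 hh023 hh024 hh025 hk02)]
  rw [tm_eq (m := (cm h013 h023 h034 h035 k03)) (l := (cl h012 h014 h015 k01 h024 h025 k02 h045 k04 k05)) (l' := (cl h123 h134 h135 k13 h234 h235 k23 h345 k34 k35)) (cm_lt hh013 hh023 hh034 hh035 hk03)]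
  rw [tm_eq (m := (cm h014 h024 h034 h045 k04)) (l := (cl h012 h013 h015 k01 h023 h025 k02 h035 k03 k05)) (l' := (cl h124 h134 h145 k14 h234 h245 k24 h345 k34 k45)) (cm_lt hh014 hh024 hh034 hh045 hk04)]
  rw [tm_eq (m := (cm h015 h025 h035 h045 k05)) (l := (cl h012 h013 h014 k01 h023 h024 k02 h034 k03 k04)) (l' := (cl h125 h135 h145 k15 h235 h245 k25 h345 k35 k45)) (cm_lt hh015 hh025 hh035 hh045 hk05)]
  rw [tm_eq (m := (cm h012 h123 h124 h125 k12)) (l := (cl h013 h014 h015 k01 h134 h135 k13 h145 k14 k15)) (l' := (cl h023 h024 h025 k02 h234 h235 k23 h245 k24 k25)) (cm_lt hh012 hh123 hh124 hh125 hk12)]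
  rw [tm_eq (m := (cm h013 h123 h134 h135 k13)) (l := (cl h012 h014 h015 k01 h124 h125 k12 h145 k14 k15)) (l' := (cl h023 h034 h035 k03 h234 h235 k23 h345 k34 k35)) (cm_lt hh013 hh123 hh134 hh135 hk13)]
  rw [tm_eq (m := (cm h014 h124 h134 h145 k14)) (l := (cl h012 h013 h015 k01 h123 h125 k12 h135 k13 k15)) (l' := (cl h024 h034 h045 k04 h234 h245 k24 h345 k34 k45)) (cm_lt hh014 hh124 hh134 hh145 hk14)]
  rw [tm_eq (m := (cm h015 h125 h135 h145 k15)) (l := (cl h012 h013 h014 k01 h123 h124 k12 h134 k13 k14)) (l' := (cl h025 h035 h045 k05 h235 h245 k25 h345 k35 k45)) (cm_lt hh015 hh125 hh135 hh145 hk15)]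
  rw [tm_eq (m := (cm h023 h123 h234 h235 k23)) (l := (cl h012 h024 h025 k02 h124 h125 k12 h245 k24 k25)) (l' := (cl h013 h034 h035 k03 h134 h135 k13 h345 k34 k35)) (cm_lt hh023 hh123 hh234 hh235 hk23)]
  rw [tm_eq (m := (cm h024 h124 h234 h245 k24)) (l := (cl h012 h023 h025 k02 h123 h125 k12 h235 k23 k25)) (l' := (cl h014 h034 h045 k04 h134 h145 k14 h345 k34 k45)) (cm_lt hh024 hh124 hh234 hh245 hk24)]
  rw [tm_eq (m := (cm h025 h125 h235 h245 k25)) (l := (cl h012 h023 h024 k02 h123 h124 k12 h234 k23 k24)) (l' := (cl h015 h035 h045 k05 h135 h145 k15 h345 k35 k45)) (cm_lt hh025 hh125 hh235 hh245 hk25)]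
  rw [tm_eq (m := (cm h034 h134 h234 h345 k34)) (l := (cl h013 h023 h035 k03 h123 h135 k13 h235 k23 k35)) (l' := (cl h014 h024 h045 k04 h124 h145 k14 h245 k24 k45)) (cm_lt hh034 hh134 hh234 hh345 hk34)]
  rw [tm_eq (m := (cm h035 h135 h235 h345 k35)) (l := (cl h013 h023 h034 k03 h123 h134 k13 h234 k23 k34)) (l' := (cl h015 h025 h045 k05 h125 h145 k15 h245 k25 k45)) (cm_lt hh035 hh135 hh235 hh345 hk35)]
  rw [tm_eq (m := (cm h045 h145 h245 h345 k45)) (l := (cl h014 h024 h034 k04 h124 h134 k14 h234 k24 k34)) (l' := (cl h015 h025 h035 k05 h125 h135 k15 h235 k25 k35)) (cm_lt hh045 hh145 hh245 hh345 hk45)]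

theorem bitsK {k01 k02 k03 k04 k05 k12 k13 k14 k15 k23 k24 k25 k34 k35 k45 : ℕ} (hk01 : k01 < 2) (hk02 : k02 < 2) (hk03 : k03 < 2) (hk04 : k04 < 2) (hk05 : k05 < 2) (hk12 : k12 < 2) (hk13 : k13 < 2) (hk14 : k14 < 2) (hk15 : k15 < 2) (hk23 : k23 < 2) (hk24 : k24 < 2) (hk25 : k25 < 2) (hk34 : k34 < 2) (hk35 : k35 < 2) (hk45 : k45 < 2) :
    bt 0 (k01 + 2 * k02 + 4 * k03 + 8 * k04 + 16 * k05 + 32 * k12 + 64 * k13 + 128 * k14 + 256 * k15 + 512 * k23 + 1024 * k24 + 2048 * k25 + 4096 * k34 + 8192 * k35 + 16384 * k45) = k01 ∧ bt 1 (k01 + 2 * k02 + 4 * k03 + 8 * k04 + 16 * k05 + 32 * k12 + 64 * k13 + 128 * k14 + 256 * k15 + 512 * k23 + 1024 * k24 + 2048 * k25 + 4096 * k34 + 8192 * k35 + 16384 * k45) = k02 ∧ bt 2 (k01 + 2 * k02 + 4 * k03 + 8 * k04 + 16 * k05 + 32 * k12 + 64 * k13 + 128 * k14 + 256 * k15 + 512 * k23 + 1024 * k24 + 2048 * k25 + 4096 * k34 + 8192 * k35 + 16384 * k45) = k03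 ∧ bt 3 (k01 + 2 * k02 + 4 * k03 + 8 * k04 + 16 * k05 + 32 * k12 + 64 * k13 + 128 * k14 + 256 * k15 + 512 * k23 + 1024 * k24 + 2048 * k25 + 4096 * k34 + 8192 * k35 + 16384 * k45) = k04 ∧ bt 4 (k01 + 2 * k02 + 4 * k03 + 8 * k04 + 16 * k05 + 32 * k12 + 64 * k13 + 128 * k14 + 256 * k15 + 512 * k23 + 1024 * k24 + 2048 * k25 + 4096 * k34 + 8192 * k35 + 16384 * k45) = k05 ∧ bt 5 (k01 + 2 * k02 + 4 * k03 + 8 * k04 + 16 * k05 + 32 * k12 + 64 * k13 + 128 * k14 + 256 * k15 + 512 * k23 + 1024 * k24 + 2048 * k25 + 4096 * k34 + 8192 * k35 + 16384 * k45) = k12 ∧ bt 6 (k01 + 2 * k02 + 4 * k03 + 8 * k04 + 16 * k05 + 32 * k12 + 64 * k13 + 128 * k14 + 256 * k15 + 512 * k23 + 1024 * k24 + 2048 * k25 + 4096 * k34 + 8192 * k35 + 16384 * k45) = k13 ∧ bt 7 (k01 + 2 * k02 + 4 * k03 + 8 * k04 + 16 * k05 + 32 * k12 + 64 * k13 + 128 * k14 + 256 * k15 + 512 * k23 + 1024 * k24 + 2048 * k25 + 4096 * k34 + 8192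 * k35 + 16384 * k45) = k14 ∧ bt 8 (k01 + 2 * k02 + 4 * k03 + 8 * k04 + 16 * k05 + 32 * k12 + 64 * k13 + 128 * k14 + 256 * k15 + 512 * k23 + 1024 * k24 + 2048 * k25 + 4096 * k34 + 8192 * k35 + 16384 * k45) = k15 ∧ bt 9 (k01 + 2 * k02 + 4 * k03 + 8 * k04 + 16 * k05 + 32 * k12 + 64 * k13 + 128 * k14 + 256 * k15 + 512 * k23 + 1024 * k24 + 2048 * k25 + 4096 * k34 + 8192 * k35 + 16384 * k45) = k23 ∧ bt 10 (k01 + 2 * k02 + 4 * k03 + 8 * k04 + 16 * k05 + 32 * k12 + 64 * k13 + 128 * k14 + 256 * k15 + 512 * k23 + 1024 * k24 + 2048 * k25 + 4096 * k34 + 8192 * k35 + 16384 * k45) = k24 ∧ bt 11 (k01 + 2 * k02 + 4 * k03 + 8 * k04 + 16 * k05 + 32 * k12 + 64 * k13 + 128 * k14 + 256 * k15 + 512 * k23 + 1024 * k24 + 2048 * k25 + 4096 * k34 + 8192 * k35 + 16384 * k45) = k25 ∧ bt 12 (k01 + 2 * k02 + 4 * k03 + 8 * k04 + 16 * k05 + 32 * k12 + 64 * k13 + 128 * k14 + 256 * k15 + 512 * k23 + 1024 * k24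 + 2048 * k25 + 4096 * k34 + 8192 * k35 + 16384 * k45) = k34 ∧ bt 13 (k01 + 2 * k02 + 4 * k03 + 8 * k04 + 16 * k05 + 32 * k12 + 64 * k13 + 128 * k14 + 256 * k15 + 512 * k23 + 1024 * k24 + 2048 * k25 + 4096 * k34 + 8192 * k35 + 16384 * k45) = k35 ∧ bt 14 (k01 + 2 * k02 + 4 * k03 + 8 * k04 + 16 * k05 + 32 * k12 + 64 * k13 + 128 * k14 + 256 * k15 + 512 * k23 + 1024 * k24 + 2048 * k25 + 4096 * k34 + 8192 * k35 + 16384 * k45) = k45 := by
  refine ⟨?_, ?_, ?_, ?_, ?_, ?_, ?_, ?_, ?_, ?_, ?_, ?_, ?_, ?_, ?_⟩ <;> rw [bt_eq] <;> omega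

theorem wlt1 {h123 h124 h125 h134 h135 h145 : ℕ} (hh123 : h123 < 2) (hh124 : h124 < 2) (hh125 : h125 < 2) (hh134 : h134 < 2) (hh135 : h135 < 2) (hh145 : h145 < 2) : (h123 + 2 * h124 + 4 * h125 + 8 * h134 + 16 * h135 + 32 * h145) < 64 := by omega
theorem wlt2 {h234 h235 h245 : ℕ} (hh234 : h234 < 2) (hh235 : h235 < 2) (hh245 : h245 < 2) : (h234 + 2 * h235 + 4 * h245) < 8 := by omega
theorem hl1_bits {h012 h013 h014 h015 h023 h024 h025 h034 h035 h045 h123 h124 h125 h134 h135 h145 : ℕ} (hh012 : h012 < 2) (hh013 : h013 < 2) (hh014 : h014 < 2) (hh015 : h015 < 2) (hh023 : h023 < 2) (hh024 : h024 < 2) (hh025 : h025 < 2) (hh034 : h034 < 2) (hh035 : h035 < 2) (hh045 : h045 < 2) (hh123 : h123 < 2) (hh124 : h124 < 2) (hh125 : h125 < 2) (hh134 : h134 < 2) (hh135 : h135 < 2) (hh145 : h145 < 2) : (cl h012 h013 h014 h015 h123 h124 h125 h134 h135 h145) = (cl h012 h013 h014 h015 h023 h024 h025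 h034 h035 h045) % 16 + 16 * (h123 + 2 * h124 + 4 * h125 + 8 * h134 + 16 * h135 + 32 * h145) := by unfold cl; omega

theorem leaf_bits (hDOT : Goal_DOT) {k01 k02 k03 k04 k05 k12 k13 k14 k15 k23 k24 k25 k34 k35 k45 h012 h013 h014 h015 h023 h024 h025 h034 h035 h045 h123 h124 h125 h134 h135 h145 h234 h235 h245 h345 : ℕ} (hk01 : k01 < 2) (hk02 : k02 < 2) (hk03 : k03 < 2) (hk04 : k04 < 2) (hk05 : k05 < 2) (hk12 : k12 < 2) (hk13 : k13 < 2) (hk14 : k14 < 2) (hk15 : k15 < 2) (hk23 : k23 < 2) (hk24 : k24 < 2) (hk25 : k25 < 2) (hk34 : k34 < 2) (hk35 : k35 < 2) (hk45 : k45 < 2) (hh012 : h012 < 2) (hh013 : h013 < 2) (hh014 : h014 < 2) (hh015 : h015 < 2) (hh023 : h023 < 2) (hh024 : h024 < 2) (hh025 : h025 < 2) (hh034 : h034 < 2) (hh035 : h035 < 2) (hh045 : h045 < 2) (hh123 : h123 < 2) (hh124 : h124 < 2) (hh125 : h125 < 2) (hh134 : h134 < 2) (hh135 : h135 < 2) (hh145 : h145 < 2) (hh234 : h234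 < 2) (hh235 : h235 < 2) (hh245 : h245 < 2) (hh345 : h345 < 2)
    (hL : ∀ w < 1024, Lv1 (k01 + 2 * k02 + 4 * k03 + 8 * k04 + 16 * k05 + 32 * k12 + 64 * k13 + 128 * k14 + 256 * k15 + 512 * k23 + 1024 * k24 + 2048 * k25 + 4096 * k34 + 8192 * k35 + 16384 * k45) w = true)
    (c01 : 1 ≤ k01 + (h012 + h013 + h014 + h015))
    (c02 : 1 ≤ k02 + (h012 + h023 + h024 + h025))
    (c03 : 1 ≤ k03 + (h013 + h023 + h034 + h035))
    (c04 : 1 ≤ k04 + (h014 + h024 + h034 + h045))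
    (c05 : 1 ≤ k05 + (h015 + h025 + h035 + h045))
    (c12 : 1 ≤ k12 + (h012 + h123 + h124 + h125))
    (c13 : 1 ≤ k13 + (h013 + h123 + h134 + h135))
    (c14 : 1 ≤ k14 + (h014 + h124 + h134 + h145))
    (c15 : 1 ≤ k15 + (h015 + h125 + h135 + h145))
    (c23 : 1 ≤ k23 + (h023 + h123 + h234 + h235))
    (c24 : 1 ≤ k24 + (h024 + h124 + h234 + h245))
    (c25 : 1 ≤ k25 + (h025 + h125 + h235 + h245))
    (c34 : 1 ≤ k34 + (h034 + h134 + h234 + h345))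
    (c35 : 1 ≤ k35 + (h035 + h135 + h235 + h345))
    (c45 : 1 ≤ k45 + (h045 + h145 + h245 + h345))
    (d0 : (h012 + h013 + h014 + h015 + h023 + h024 + h025 + h034 + h035 + h045) + (k01 + k02 + k03 + k04 + k05) ≤ k01 + k02 + k03 + k04 + k05 + k12 + k13 + k14 + k15 + k23 + k24 + k25 + k34 + k35 + k45)
    (d1 : (h012 + h013 + h014 + h015 + h123 + h124 + h125 + h134 + h135 + h145) + (k01 + k12 + k13 + k14 + k15) ≤ k01 + k02 + k03 + k04 + k05 + k12 + k13 + k14 + k15 + k23 + k24 + k25 + k34 + k35 + k45)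
    (d2 : (h012 + h023 + h024 + h025 + h123 + h124 + h125 + h234 + h235 + h245) + (k02 + k12 + k23 + k24 + k25) ≤ k01 + k02 + k03 + k04 + k05 + k12 + k13 + k14 + k15 + k23 + k24 + k25 + k34 + k35 + k45)
    (d3 : (h013 + h023 + h034 + h035 + h123 + h134 + h135 + h234 + h235 + h345) + (k03 + k13 + k23 + k34 + k35) ≤ k01 + k02 + k03 + k04 + k05 + k12 + k13 + k14 + k15 + k23 + k24 + k25 + k34 + k35 + k45)
    (d4 : (h014 + h024 + h034 + h045 + h124 + h134 + h145 + h234 + h245 + h345) + (k04 + k14 + k24 + k34 + k45) ≤ k01 + k02 + k03 + k04 + k05 + k12 + k13 + k14 + k15 + k23 + k24 + k25 + k34 + k35 + k45)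
    (d5 : (h015 + h025 + h035 + h045 + h125 + h135 + h145 + h235 + h245 + h345) + (k05 + k15 + k25 + k35 + k45) ≤ k01 + k02 + k03 + k04 + k05 + k12 + k13 + k14 + k15 + k23 + k24 + k25 + k34 + k35 + k45)
    : 0 ≤ LF k01 k02 k03 k04 k05 k12 k13 k14 k15 k23 k24 k25 k34 k35 k45 h012 h013 h014 h015 h023 h024 h025 h034 h035 h045 h123 h124 h125 h134 h135 h145 h234 h235 h245 h345 := by
  obtain ⟨t0, t1, t2, t3, t4, t5, t6, t7, t8, t9, t10, t11, t12, t13, t14⟩ := bitsK hk01 hk02 hk03 hk04 hk05 hk12 hk13 hk14 hk15 hk23 hk24 hk25 hk34 hk35 hk45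
  obtain ⟨f2, f3, f4, f5, g2, g3, g4, g5, n2, n3, n4, n5⟩ := fields hh012 hh013 hh014 hh015 hh023 hh024 hh025 hh034 hh035 hh045 hh123 hh124 hh125 hh134 hh135 hh145 hh234 hh235 hh245 hh345
  have hw := hL (cl h012 h013 h014 h015 h023 h024 h025 h034 h035 h045) (cl_lt hh012 hh013 hh014 hh015 hh023 hh024 hh025 hh034 hh035 hh045)
  generalize hKC : k01 + 2 * k02 + 4 * k03 + 8 * k04 + 16 * k05 + 32 * k12 + 64 * k13 + 128 * k14 + 256 * k15 + 512 * k23 + 1024 * k24 + 2048 * k25 + 4096 * k34 + 8192 * k35 + 16384 * k45 = KC at hw t0 t1 t2 t3 t4 t5 t6 t7 t8 t9 t10 t11 t12 t13 t14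
  have em0 : mk0 KC = (cm k01 k02 k03 k04 k05) := by unfold mk0; simp only [t0, t1, t2, t3, t4, t5, t6, t7, t8, t9, t10, t11, t12, t13, t14]
  have el0 : lk0 KC = (cl k12 k13 k14 k15 k23 k24 k25 k34 k35 k45) := by unfold lk0; simp only [t0, t1, t2, t3, t4, t5, t6, t7, t8, t9, t10, t11, t12, t13, t14]
  have em1 : mk1 KC = (cm k01 k12 k13 k14 k15) := by unfold mk1; simp only [t0, t1, t2, t3, t4, t5, t6, t7, t8, t9, t10, t11, t12, t13, t14]
  have el1 : lk1 KC = (cl k02 k03 k04 k05 k23 k24 k25 k34 k35 k45) := by unfold lk1; simp only [t0, t1, t2, t3, t4, t5, t6, t7, t8, t9, t10, t11, t12, t13, t14]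
  have em2 : mk2 KC = (cm k02 k12 k23 k24 k25) := by unfold mk2; simp only [t0, t1, t2, t3, t4, t5, t6, t7, t8, t9, t10, t11, t12, t13, t14]
  have el2 : lk2 KC = (cl k01 k03 k04 k05 k13 k14 k15 k34 k35 k45) := by unfold lk2; simp only [t0, t1, t2, t3, t4, t5, t6, t7, t8, t9, t10, t11, t12, t13, t14]
  have em3 : mk3 KC = (cm k03 k13 k23 k34 k35) := by unfold mk3; simp only [t0, t1, t2, t3, t4, t5, t6, t7, t8, t9, t10, t11, t12, t13, t14]
  have el3 : lk3 KC = (cl k01 k02 k04 k05 k12 k14 k15 k24 k25 k45) := by unfold lk3; simp only [t0, t1, t2, t3, t4, t5, t6, t7, t8, t9, t10, t11, t12, t13, t14]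
  have em4 : mk4 KC = (cm k04 k14 k24 k34 k45) := by unfold mk4; simp only [t0, t1, t2, t3, t4, t5, t6, t7, t8, t9, t10, t11, t12, t13, t14]
  have el4 : lk4 KC = (cl k01 k02 k03 k05 k12 k13 k15 k23 k25 k35) := by unfold lk4; simp only [t0, t1, t2, t3, t4, t5, t6, t7, t8, t9, t10, t11, t12, t13, t14]
  have em5 : mk5 KC = (cm k05 k15 k25 k35 k45) := by unfold mk5; simp only [t0, t1, t2, t3, t4, t5, t6, t7, t8, t9, t10, t11, t12, t13, t14]
  have el5 : lk5 KC = (cl k01 k02 k03 k04 k12 k13 k14 k23 k24 k34) := by unfold lk5; simp only [t0, t1, t2, t3, t4, t5, t6, t7, t8, t9, t10, t11, t12, t13, t14]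
  have eo : ones KC = k01 + k02 + k03 + k04 + k05 + k12 + k13 + k14 + k15 + k23 + k24 + k25 + k34 + k35 + k45 := by unfold ones; simp only [t0, t1, t2, t3, t4, t5, t6, t7, t8, t9, t10, t11, t12, t13, t14]
  unfold Lv1 at hw
  simp only [em0, em1, em2, em3, em4, em5, el0, el1, el2, el3, el4, el5] at hw
  have key := lv_sound _ _ _ _ _ _ _ _ _ _ _ _ _ _ _ _ _ _ (cl h012 h013 h014 h015 h023 h024 h025 h034 h035 h045) (h123 + 2 * h124 + 4 * h125 + 8 * h134 + 16 * h135 + 32 * h145) (h234 + 2 * h235 + 4 * h245) h345 (cl h012 h013 h014 h015 h123 h124 h125 h134 h135 h145) (cl h012 h023 h024 h025 h123 h124 h125 h234 h235 h245) (cl h013 h023 h034 h035 h123 h134 h135 h234 h235 h345) (cl h014 h024 h034 h045 h124 h134 h145 h234 h245 h345) (cl h015 h025 h035 h045 h125 h135 h145 h235 h245 h345) hw (wlt1 hh123 hh124 hh125 hh134 hh135 hh145) (wlt2 hh234 hh235 hh245) hh345 (hl1_bits hh012 hh013 hh014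 hh015 hh023 hh024 hh025 hh034 hh035 hh045 hh123 hh124 hh125 hh134 hh135 hh145)
    (cl_lt hh012 hh023 hh024 hh025 hh123 hh124 hh125 hh234 hh235 hh245) (cl_lt hh013 hh023 hh034 hh035 hh123 hh134 hh135 hh234 hh235 hh345) (cl_lt hh014 hh024 hh034 hh045 hh124 hh134 hh145 hh234 hh245 hh345) (cl_lt hh015 hh025 hh035 hh045 hh125 hh135 hh145 hh235 hh245 hh345) f2 f3 f4 f5 g2 g3 g4 g5 n2 n3 n4 n5
  have om0 : oneM (cm k01 k02 k03 k04 k05) = k01 + k02 + k03 + k04 + k05 := by unfold oneM; simp only [bt0_cm hk01 hk02 hk03 hk04 hk05, bt1_cm hk01 hk02 hk03 hk04 hk05, bt2_cm hk01 hk02 hk03 hk04 hk05, bt3_cm hk01 hk02 hk03 hk04 hk05, bt4_cm hk01 hk02 hk03 hk04 hk05]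
  have om1 : oneM (cm k01 k12 k13 k14 k15) = k01 + k12 + k13 + k14 + k15 := by unfold oneM; simp only [bt0_cm hk01 hk12 hk13 hk14 hk15, bt1_cm hk01 hk12 hk13 hk14 hk15, bt2_cm hk01 hk12 hk13 hk14 hk15, bt3_cm hk01 hk12 hk13 hk14 hk15, bt4_cm hk01 hk12 hk13 hk14 hk15]
  have om2 : oneM (cm k02 k12 k23 k24 k25) = k02 + k12 + k23 + k24 + k25 := by unfold oneM; simp only [bt0_cm hk02 hk12 hk23 hk24 hk25, bt1_cm hk02 hk12 hk23 hk24 hk25, bt2_cm hk02 hk12 hk23 hk24 hk25, bt3_cm hk02 hk12 hk23 hk24 hk25, bt4_cm hk02 hk12 hk23 hk24 hk25]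
  have om3 : oneM (cm k03 k13 k23 k34 k35) = k03 + k13 + k23 + k34 + k35 := by unfold oneM; simp only [bt0_cm hk03 hk13 hk23 hk34 hk35, bt1_cm hk03 hk13 hk23 hk34 hk35, bt2_cm hk03 hk13 hk23 hk34 hk35, bt3_cm hk03 hk13 hk23 hk34 hk35, bt4_cm hk03 hk13 hk23 hk34 hk35]
  have om4 : oneM (cm k04 k14 k24 k34 k45) = k04 + k14 + k24 + k34 + k45 := by unfold oneM; simp only [bt0_cm hk04 hk14 hk24 hk34 hk45, bt1_cm hk04 hk14 hk24 hk34 hk45, bt2_cm hk04 hk14 hk24 hk34 hk45, bt3_cm hk04 hk14 hk24 hk34 hk45, bt4_cm hk04 hk14 hk24 hk34 hk45]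
  have om5 : oneM (cm k05 k15 k25 k35 k45) = k05 + k15 + k25 + k35 + k45 := by unfold oneM; simp only [bt0_cm hk05 hk15 hk25 hk35 hk45, bt1_cm hk05 hk15 hk25 hk35 hk45, bt2_cm hk05 hk15 hk25 hk35 hk45, bt3_cm hk05 hk15 hk25 hk35 hk45, bt4_cm hk05 hk15 hk25 hk35 hk45]
  have q01 := amgm hDOT (cm_lt hh012 hh013 hh014 hh015 hk01) (cl_lt hh123 hh124 hh125 hk12 hh134 hh135 hk13 hh145 hk14 hk15) (cl_lt hh023 hh024 hh025 hk02 hh034 hh035 hk03 hh045 hk04 hk05)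
  have s01 := psi_sym hDOT (cm_lt hh012 hh013 hh014 hh015 hk01) (cl_lt hh123 hh124 hh125 hk12 hh134 hh135 hk13 hh145 hk14 hk15) (cl_lt hh023 hh024 hh025 hk02 hh034 hh035 hk03 hh045 hk04 hk05)
  have q02 := amgm hDOT (cm_lt hh012 hh023 hh024 hh025 hk02) (cl_lt hh123 hh124 hh125 hk12 hh234 hh235 hk23 hh245 hk24 hk25) (cl_lt hh013 hh014 hh015 hk01 hh034 hh035 hk03 hh045 hk04 hk05)
  have s02 := psi_sym hDOT (cm_lt hh012 hh023 hh024 hh025 hk02) (cl_lt hh123 hh124 hh125 hk12 hh234 hh235 hk23 hh245 hk24 hk25) (cl_lt hh013 hh014 hh015 hk01 hh034 hh035 hk03 hh045 hk04 hk05)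
  have q03 := amgm hDOT (cm_lt hh013 hh023 hh034 hh035 hk03) (cl_lt hh123 hh134 hh135 hk13 hh234 hh235 hk23 hh345 hk34 hk35) (cl_lt hh012 hh014 hh015 hk01 hh024 hh025 hk02 hh045 hk04 hk05)
  have s03 := psi_sym hDOT (cm_lt hh013 hh023 hh034 hh035 hk03) (cl_lt hh123 hh134 hh135 hk13 hh234 hh235 hk23 hh345 hk34 hk35) (cl_lt hh012 hh014 hh015 hk01 hh024 hh025 hk02 hh045 hk04 hk05)
  have q04 := amgm hDOT (cm_lt hh014 hh024 hh034 hh045 hk04) (cl_lt hh124 hh134 hh145 hk14 hh234 hh245 hk24 hh345 hk34 hk45) (cl_lt hh012 hh013 hh015 hk01 hh023 hh025 hk02 hh035 hk03 hk05)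
  have s04 := psi_sym hDOT (cm_lt hh014 hh024 hh034 hh045 hk04) (cl_lt hh124 hh134 hh145 hk14 hh234 hh245 hk24 hh345 hk34 hk45) (cl_lt hh012 hh013 hh015 hk01 hh023 hh025 hk02 hh035 hk03 hk05)
  have q05 := amgm hDOT (cm_lt hh015 hh025 hh035 hh045 hk05) (cl_lt hh125 hh135 hh145 hk15 hh235 hh245 hk25 hh345 hk35 hk45) (cl_lt hh012 hh013 hh014 hk01 hh023 hh024 hk02 hh034 hk03 hk04)
  have s05 := psi_sym hDOT (cm_lt hh015 hh025 hh035 hh045 hk05) (cl_lt hh125 hh135 hh145 hk15 hh235 hh245 hk25 hh345 hk35 hk45) (cl_lt hh012 hh013 hh014 hk01 hh023 hh024 hk02 hh034 hk03 hk04)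
  have q12 := amgm hDOT (cm_lt hh012 hh123 hh124 hh125 hk12) (cl_lt hh023 hh024 hh025 hk02 hh234 hh235 hk23 hh245 hk24 hk25) (cl_lt hh013 hh014 hh015 hk01 hh134 hh135 hk13 hh145 hk14 hk15)
  have s12 := psi_sym hDOT (cm_lt hh012 hh123 hh124 hh125 hk12) (cl_lt hh023 hh024 hh025 hk02 hh234 hh235 hk23 hh245 hk24 hk25) (cl_lt hh013 hh014 hh015 hk01 hh134 hh135 hk13 hh145 hk14 hk15)
  have q13 := amgm hDOT (cm_lt hh013 hh123 hh134 hh135 hk13) (cl_lt hh023 hh034 hh035 hk03 hh234 hh235 hk23 hh345 hk34 hk35) (cl_lt hh012 hh014 hh015 hk01 hh124 hh125 hk12 hh145 hk14 hk15)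
  have s13 := psi_sym hDOT (cm_lt hh013 hh123 hh134 hh135 hk13) (cl_lt hh023 hh034 hh035 hk03 hh234 hh235 hk23 hh345 hk34 hk35) (cl_lt hh012 hh014 hh015 hk01 hh124 hh125 hk12 hh145 hk14 hk15)
  have q14 := amgm hDOT (cm_lt hh014 hh124 hh134 hh145 hk14) (cl_lt hh024 hh034 hh045 hk04 hh234 hh245 hk24 hh345 hk34 hk45) (cl_lt hh012 hh013 hh015 hk01 hh123 hh125 hk12 hh135 hk13 hk15)
  have s14 := psi_sym hDOT (cm_lt hh014 hh124 hh134 hh145 hk14) (cl_lt hh024 hh034 hh045 hk04 hh234 hh245 hk24 hh345 hk34 hk45) (cl_lt hh012 hh013 hh015 hk01 hh123 hh125 hk12 hh135 hk13 hk15)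
  have q15 := amgm hDOT (cm_lt hh015 hh125 hh135 hh145 hk15) (cl_lt hh025 hh035 hh045 hk05 hh235 hh245 hk25 hh345 hk35 hk45) (cl_lt hh012 hh013 hh014 hk01 hh123 hh124 hk12 hh134 hk13 hk14)
  have s15 := psi_sym hDOT (cm_lt hh015 hh125 hh135 hh145 hk15) (cl_lt hh025 hh035 hh045 hk05 hh235 hh245 hk25 hh345 hk35 hk45) (cl_lt hh012 hh013 hh014 hk01 hh123 hh124 hk12 hh134 hk13 hk14)
  have q23 := amgm hDOT (cm_lt hh023 hh123 hh234 hh235 hk23) (cl_lt hh013 hh034 hh035 hk03 hh134 hh135 hk13 hh345 hk34 hk35) (cl_lt hh012 hh024 hh025 hk02 hh124 hh125 hk12 hh245 hk24 hk25)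
  have s23 := psi_sym hDOT (cm_lt hh023 hh123 hh234 hh235 hk23) (cl_lt hh013 hh034 hh035 hk03 hh134 hh135 hk13 hh345 hk34 hk35) (cl_lt hh012 hh024 hh025 hk02 hh124 hh125 hk12 hh245 hk24 hk25)
  have q24 := amgm hDOT (cm_lt hh024 hh124 hh234 hh245 hk24) (cl_lt hh014 hh034 hh045 hk04 hh134 hh145 hk14 hh345 hk34 hk45) (cl_lt hh012 hh023 hh025 hk02 hh123 hh125 hk12 hh235 hk23 hk25)
  have s24 := psi_sym hDOT (cm_lt hh024 hh124 hh234 hh245 hk24) (cl_lt hh014 hh034 hh045 hk04 hh134 hh145 hk14 hh345 hk34 hk45) (cl_lt hh012 hh023 hh025 hk02 hh123 hh125 hk12 hh235 hk23 hk25)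
  have q25 := amgm hDOT (cm_lt hh025 hh125 hh235 hh245 hk25) (cl_lt hh015 hh035 hh045 hk05 hh135 hh145 hk15 hh345 hk35 hk45) (cl_lt hh012 hh023 hh024 hk02 hh123 hh124 hk12 hh234 hk23 hk24)
  have s25 := psi_sym hDOT (cm_lt hh025 hh125 hh235 hh245 hk25) (cl_lt hh015 hh035 hh045 hk05 hh135 hh145 hk15 hh345 hk35 hk45) (cl_lt hh012 hh023 hh024 hk02 hh123 hh124 hk12 hh234 hk23 hk24)
  have q34 := amgm hDOT (cm_lt hh034 hh134 hh234 hh345 hk34) (cl_lt hh014 hh024 hh045 hk04 hh124 hh145 hk14 hh245 hk24 hk45) (cl_lt hh013 hh023 hh035 hk03 hh123 hh135 hk13 hh235 hk23 hk35)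
  have s34 := psi_sym hDOT (cm_lt hh034 hh134 hh234 hh345 hk34) (cl_lt hh014 hh024 hh045 hk04 hh124 hh145 hk14 hh245 hk24 hk45) (cl_lt hh013 hh023 hh035 hk03 hh123 hh135 hk13 hh235 hk23 hk35)
  have q35 := amgm hDOT (cm_lt hh035 hh135 hh235 hh345 hk35) (cl_lt hh015 hh025 hh045 hk05 hh125 hh145 hk15 hh245 hk25 hk45) (cl_lt hh013 hh023 hh034 hk03 hh123 hh134 hk13 hh234 hk23 hk34)
  have s35 := psi_sym hDOT (cm_lt hh035 hh135 hh235 hh345 hk35) (cl_lt hh015 hh025 hh045 hk05 hh125 hh145 hk15 hh245 hk25 hk45) (cl_lt hh013 hh023 hh034 hk03 hh123 hh134 hk13 hh234 hk23 hk34)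
  have q45 := amgm hDOT (cm_lt hh045 hh145 hh245 hh345 hk45) (cl_lt hh015 hh025 hh035 hk05 hh125 hh135 hk15 hh235 hk25 hk35) (cl_lt hh014 hh024 hh034 hk04 hh124 hh134 hk14 hh234 hk24 hk34)
  have s45 := psi_sym hDOT (cm_lt hh045 hh145 hh245 hh345 hk45) (cl_lt hh015 hh025 hh035 hk05 hh125 hh135 hk15 hh235 hk25 hk35) (cl_lt hh014 hh024 hh034 hk04 hh124 hh134 hk14 hh234 hk24 hk34)
  unfold LF
  rcases key with key | key
  · have hN := key.trans (Nat.add_le_add (Nat.add_le_add (Nat.add_le_add (Nat.add_le_add (Nat.add_le_add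
      (gK_le _ _ _ _ (cl_lt hh012 hh013 hh014 hh015 hh023 hh024 hh025 hh034 hh035 hh045)) (gK_le _ _ _ _ (cl_lt hh012 hh013 hh014 hh015 hh123 hh124 hh125 hh134 hh135 hh145))) (gK_le _ _ _ _ (cl_lt hh012 hh023 hh024 hh025 hh123 hh124 hh125 hh234 hh235 hh245)))
      (gK_le _ _ _ _ (cl_lt hh013 hh023 hh034 hh035 hh123 hh134 hh135 hh234 hh235 hh345))) (gK_le _ _ _ _ (cl_lt hh014 hh024 hh034 hh045 hh124 hh134 hh145 hh234 hh245 hh345))) (gK_le _ _ _ _ (cl_lt hh015 hh025 hh035 hh045 hh125 hh135 hh145 hh235 hh245 hh345)))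
    have hZ := Int.ofNat_le.mpr hN
    simp only [Nat.cast_add] at hZ
    rw [gv_bits (cl k12 k13 k14 k15 k23 k24 k25 k34 k35 k45) (ones KC - oneM (cm k01 k02 k03 k04 k05)) hk01 hk02 hk03 hk04 hk05 hh012 hh013 hh014 hh015 hh023 hh024 hh025 hh034 hh035 hh045 c01 c02 c03 c04 c05 (by rw [om0, eo]; exact Nat.le_sub_of_add_le d0)] at hZ
    rw [gv_bits (cl k02 k03 k04 k05 k23 k24 k25 k34 k35 k45) (ones KC - oneM (cm k01 k12 k13 k14 k15)) hk01 hk12 hk13 hk14 hk15 hh012 hh013 hh014 hh015 hh123 hh124 hh125 hh134 hh135 hh145 c01 c12 c13 c14 c15 (by rw [om1, eo]; exact Nat.le_sub_of_add_le d1)] at hZ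
    rw [gv_bits (cl k01 k03 k04 k05 k13 k14 k15 k34 k35 k45) (ones KC - oneM (cm k02 k12 k23 k24 k25)) hk02 hk12 hk23 hk24 hk25 hh012 hh023 hh024 hh025 hh123 hh124 hh125 hh234 hh235 hh245 c02 c12 c23 c24 c25 (by rw [om2, eo]; exact Nat.le_sub_of_add_le d2)] at hZ
    rw [gv_bits (cl k01 k02 k04 k05 k12 k14 k15 k24 k25 k45) (ones KC - oneM (cm k03 k13 k23 k34 k35)) hk03 hk13 hk23 hk34 hk35 hh013 hh023 hh034 hh035 hh123 hh134 hh135 hh234 hh235 hh345 c03 c13 c23 c34 c35 (by rw [om3, eo]; exact Nat.le_sub_of_add_le d3)] at hZ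
    rw [gv_bits (cl k01 k02 k03 k05 k12 k13 k15 k23 k25 k35) (ones KC - oneM (cm k04 k14 k24 k34 k45)) hk04 hk14 hk24 hk34 hk45 hh014 hh024 hh034 hh045 hh124 hh134 hh145 hh234 hh245 hh345 c04 c14 c24 c34 c45 (by rw [om4, eo]; exact Nat.le_sub_of_add_le d4)] at hZ
    rw [gv_bits (cl k01 k02 k03 k04 k12 k13 k14 k23 k24 k34) (ones KC - oneM (cm k05 k15 k25 k35 k45)) hk05 hk15 hk25 hk35 hk45 hh015 hh025 hh035 hh045 hh125 hh135 hh145 hh235 hh245 hh345 c05 c15 c25 c35 c45 (by rw [om5, eo]; exact Nat.le_sub_of_add_le d5)] at hZ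
    unfold S5 at hZ
    have e0 : ((3298534883328 : ℕ) : ℤ) = 3298534883328 := rfl
    rw [e0] at hZ
    linarith [q01, q02, q03, q04, q05, q12, q13, q14, q15, q23, q24, q25, q34, q35, q45]
  · have hZ := Int.ofNat_le.mpr key
    rw [full_bits hk01 hk02 hk03 hk04 hk05 hk12 hk13 hk14 hk15 hk23 hk24 hk25 hk34 hk35 hk45 hh012 hh013 hh014 hh015 hh023 hh024 hh025 hh034 hh035 hh045 hh123 hh124 hh125 hh134 hh135 hh145 hh234 hh235 hh245 hh345] at hZ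
    have e0 : ((1443109011456 : ℕ) : ℤ) = 1443109011456 := rfl
    rw [e0] at hZ
    rw [s01, s02, s03, s04, s05, s12, s13, s14, s15, s23, s24, s25, s34, s35, s45]
    linarith

end Pool.Agent.N465.L2
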