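import Pool.Agent.N465.L2.Stm

/-! Kernel friendly primitives. -/

set_option autoImplicit false

namespace Pool.Agent.N465.L2

/-- evaluation with the argument reduced first -/
def st {α : Type} (f : ℕ → α) (n : ℕ) : α := Nat.rec (f 0) (fun k _ => f (Nat.succ k)) n

theorem st_eq {α : Type} (f : ℕ → α) (n : ℕ) : st f n = f n := by cases n <;> rfl

/-- if-then-else on booleans -/
def cnd {α : Type} (c : Bool) (x y : α) : α := @Bool.rec (fun _ => α) y x c

theorem cnd_false {c x : Bool} (h : cnd c x false = true) : c = true ∧ x = true := by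
  cases c
  · exact absurd h (by simp [cnd])
  · exact ⟨rfl, h⟩

theorem cnd_true {c x : Bool} (h : cnd c true x = true) (hc : c = false) : x = true := by
  subst hc; exact h

/-- conjunction over `k < n` -/
def al (n : ℕ) (f : ℕ → Bool) : Bool := @Nat.rec (fun _ => Bool) true (fun k s => cnd (f k) s false) n

theorem al_true {n : ℕ} {f : ℕ → Bool} (h : al n f = true) : ∀ k < n, f k = true := by
  induction n with
  | zero => intro k hk; omega
  | succ n ih =>
    have h' : cnd (f n) (al n f) false = true := h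
    obtain ⟨h1, h2⟩ := cnd_false h'
    intro k hk
    rcases Nat.lt_succ_iff_lt_or_eq.mp hk with hk | rfl
    · exact ih h2 k hk
    · exact h1

/-- bit `k` of `c` -/
def bt (k c : ℕ) : ℕ := Nat.mod (Nat.shiftRight c k) 2

/-- entry `l` of a table of 44-bit numbers -/
def g44 (T l : ℕ) : ℕ := Nat.mod (Nat.shiftRight T (Nat.mul 44 l)) 17592186044416

/-- the table of `f 0, ..., f (n-1)` -/
def pk (n : ℕ) (f : ℕ → ℕ) : ℕ :=
  @Nat.rec (fun _ => ℕ) 0 (fun k s => Nat.add s (Nat.shiftLeft (Nat.mod (f k) 17592186044416) (Nat.mul 44 k))) n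

theorem pk_lt (n : ℕ) (f : ℕ → ℕ) : pk n f < 2 ^ (44 * n) := by
  induction n with
  | zero => simp [pk]
  | succ n ih =>
    have e : pk (n + 1) f = pk n f + (f n % 17592186044416) <<< (44 * n) := rfl
    rw [e, Nat.shiftLeft_eq]
    have h1 : f n % 17592186044416 < 17592186044416 := Nat.mod_lt _ (by norm_num)
    have h2 : (f n % 17592186044416) * 2 ^ (44 * n) ≤ (17592186044416 - 1) * 2 ^ (44 * n) :=
      Nat.mul_le_mul_right _ (by omega)
    have h3 : (2 : ℕ) ^ (44 * (n + 1)) = 17592186044416 * 2 ^ (44 * n) := by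
      rw [show 44 * (n + 1) = 44 + 44 * n by ring, pow_add]
      norm_num
    rw [h3]
    have h4 : (17592186044416 - 1) * 2 ^ (44 * n) + 2 ^ (44 * n) = 17592186044416 * 2 ^ (44 * n) := by ring
    omega

theorem g44_pk (n : ℕ) (f : ℕ → ℕ) : ∀ l < n, g44 (pk n f) l = f l % 17592186044416 := by
  induction n with
  | zero => intro l hl; omega
  | succ n ih =>
    intro l hl
    have e : pk (n + 1) f = pk n f + (f n % 17592186044416) * 2 ^ (44 * n) := by
      have : pk (n + 1) f = pk n f + (f n % 17592186044416) <<< (44 * n) := rfl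
      rw [this, Nat.shiftLeft_eq]
    have hg : ∀ T, g44 T l = T / 2 ^ (44 * l) % 17592186044416 := by
      intro T
      show T >>> (44 * l) % _ = _
      rw [Nat.shiftRight_eq_div_pow]
    rcases Nat.lt_succ_iff_lt_or_eq.mp hl with h | h
    · rw [← ih l h, hg, hg, e]
      have h3 : (2 : ℕ) ^ (44 * n) = 2 ^ (44 * l) * (17592186044416 * 2 ^ (44 * (n - l - 1))) := by
        have : (17592186044416 : ℕ) = 2 ^ 44 := by norm_num
        rw [this, ← pow_add, ← pow_add]
        congr 1
        omega
      rw [h3]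
      have h5 : pk n f + f n % 17592186044416 * (2 ^ (44 * l) * (17592186044416 * 2 ^ (44 * (n - l - 1))))
          = pk n f + 2 ^ (44 * l) * (17592186044416 * (f n % 17592186044416 * 2 ^ (44 * (n - l - 1)))) := by ring
      rw [h5, Nat.add_mul_div_left _ _ (by positivity), Nat.add_mul_mod_self_left]
    · subst h
      rw [hg, e, Nat.add_mul_div_right _ _ (by positivity), Nat.div_eq_of_lt (pk_lt l f), zero_add, Nat.mod_mod]

/-- minimum of the two halves -/
def hv (n T : ℕ) : ℕ := pk n (fun l => st (fun a => st (fun b => cnd (Nat.ble a b) a b) (g44 T (Nat.add l n))) (g44 T l))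

theorem cnd_min (a b : ℕ) : cnd (Nat.ble a b) a b ≤ a ∧ cnd (Nat.ble a b) a b ≤ b := by
  cases h : Nat.ble a b with
  | true =>
    have := Nat.le_of_ble_eq_true h
    exact ⟨le_refl _, this⟩
  | false =>
    have h2 : ¬ a ≤ b := by
      intro h3
      rw [Nat.ble_eq_true_of_le h3] at h
      exact absurd h (by simp)
    show b ≤ a ∧ b ≤ b
    omega

theorem g44_hv {n T l : ℕ} (hl : l < n) : g44 (hv n T) l ≤ g44 T l ∧ g44 (hv n T) l ≤ g44 T (l + n) := by
  unfold hv
  rw [g44_pk _ _ l hl]
  simp only [st_eq]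
  have h := cnd_min (g44 T l) (g44 T (l + n))
  exact ⟨(Nat.mod_le _ _).trans h.1, (Nat.mod_le _ _).trans h.2⟩

/-- the value for `l % n` is at most the value for `l`, `l < 2 n` -/
theorem g44_hv_mod {n T l : ℕ} (hl : l < n + n) : g44 (hv n T) (l % n) ≤ g44 T l := by
  rcases Nat.lt_or_ge l n with h | h
  · rw [Nat.mod_eq_of_lt h]
    exact (g44_hv h).1
  · have h1 : l - n < n := by omega
    have h2 : l % n = l - n := by
      rw [Nat.mod_eq_sub_mod h, Nat.mod_eq_of_lt h1]
    rw [h2]
    have h3 := (g44_hv (n := n) (T := T) h1).2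
    rwa [show l - n + n = l by omega] at h3

end Pool.Agent.N465.L2
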