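import Pool.Agent.N465.L2.Lv
import Pool.Agent.N465.L2.Ck0
import Pool.Agent.N465.L2.Ck1
import Pool.Agent.N465.L2.Ck2
import Pool.Agent.N465.L2.Ck3
import Pool.Agent.N465.L2.Ck4
import Pool.Agent.N465.L2.Ck5
import Pool.Agent.N465.L2.Ck6
import Pool.Agent.N465.L2.Ck7
import Pool.Agent.N465.L2.Ck8
import Pool.Agent.N465.L2.Ck9
import Pool.Agent.N465.L2.Ck10
import Pool.Agent.N465.L2.Ck11
import Pool.Agent.N465.L2.Ck12
import Pool.Agent.N465.L2.Ck13
import Pool.Agent.N465.L2.Ck14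
import Pool.Agent.N465.L2.Ck15
import Pool.Agent.N465.L2.Ck16
import Pool.Agent.N465.L2.Ck17
import Pool.Agent.N465.L2.Ck18
import Pool.Agent.N465.L2.Ck19

/-! All checks together. -/

set_option autoImplicit false
set_option maxRecDepth 100000

namespace Pool.Agent.N465.L2

theorem ck_one {K : ℕ} (h : chk K 0 1024 = true) : ∀ w < 1024, Lv1 K w = true := fun w hw =>
  chk_lv h w (Nat.zero_le w) (by omega)

theorem ck_top : ∀ w < 1024, Lv1 32767 w = true := by
  intro w hw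
  rcases Nat.lt_or_ge w 256 with h | h
  · exact chk_lv ck_32767_0 w (Nat.zero_le w) (by omega)
  rcases Nat.lt_or_ge w 512 with h' | h'
  · exact chk_lv ck_32767_256 w h (by omega)
  rcases Nat.lt_or_ge w 768 with h'' | h''
  · exact chk_lv ck_32767_512 w h' (by omega)
  · exact chk_lv ck_32767_768 w h'' (by omega)

theorem fmc {a : ℕ} {l : List ℕ} (h1 : ∀ w < 1024, Lv1 a w = true) (h2 : ∀ K ∈ l, ∀ w < 1024, Lv1 K w = true) :
    ∀ K ∈ a :: l, ∀ w < 1024, Lv1 K w = true := by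
  intro K hK
  rcases List.mem_cons.mp hK with rfl | h
  · exact h1
  · exact h2 K h

theorem reps_ok : ∀ K ∈ repsL, ∀ w < 1024, Lv1 K w = true := by
  unfold repsL
  refine fmc (ck_one ck_31_0) ?_
  refine fmc (ck_one ck_60_0) ?_
  refine fmc (ck_one ck_61_0) ?_
  refine fmc (ck_one ck_63_0) ?_
  refine fmc (ck_one ck_120_0) ?_
  refine fmc (ck_one ck_121_0) ?_
  refine fmc (ck_one ck_122_0) ?_
  refine fmc (ck_one ck_123_0) ?_
  refine fmc (ck_one ck_126_0) ?_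
  refine fmc (ck_one ck_127_0) ?_
  refine fmc (ck_one ck_246_0) ?_
  refine fmc (ck_one ck_247_0) ?_
  refine fmc (ck_one ck_254_0) ?_
  refine fmc (ck_one ck_255_0) ?_
  refine fmc (ck_one ck_510_0) ?_
  refine fmc (ck_one ck_511_0) ?_
  refine fmc (ck_one ck_632_0) ?_
  refine fmc (ck_one ck_633_0) ?_
  refine fmc (ck_one ck_635_0) ?_
  refine fmc (ck_one ck_639_0) ?_
  refine fmc (ck_one ck_656_0) ?_
  refine fmc (ck_one ck_657_0) ?_
  refine fmc (ck_one ck_659_0) ?_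
  refine fmc (ck_one ck_662_0) ?_
  refine fmc (ck_one ck_663_0) ?_
  refine fmc (ck_one ck_671_0) ?_
  refine fmc (ck_one ck_691_0) ?_
  refine fmc (ck_one ck_692_0) ?_
  refine fmc (ck_one ck_693_0) ?_
  refine fmc (ck_one ck_694_0) ?_
  refine fmc (ck_one ck_695_0) ?_
  refine fmc (ck_one ck_700_0) ?_
  refine fmc (ck_one ck_701_0) ?_
  refine fmc (ck_one ck_703_0) ?_
  refine fmc (ck_one ck_758_0) ?_
  refine fmc (ck_one ck_759_0) ?_
  refine fmc (ck_one ck_760_0) ?_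
  refine fmc (ck_one ck_761_0) ?_
  refine fmc (ck_one ck_762_0) ?_
  refine fmc (ck_one ck_763_0) ?_
  refine fmc (ck_one ck_766_0) ?_
  refine fmc (ck_one ck_767_0) ?_
  refine fmc (ck_one ck_920_0) ?_
  refine fmc (ck_one ck_921_0) ?_
  refine fmc (ck_one ck_922_0) ?_
  refine fmc (ck_one ck_923_0) ?_
  refine fmc (ck_one ck_926_0) ?_
  refine fmc (ck_one ck_927_0) ?_
  refine fmc (ck_one ck_954_0) ?_
  refine fmc (ck_one ck_955_0) ?_
  refine fmc (ck_one ck_956_0) ?_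
  refine fmc (ck_one ck_957_0) ?_
  refine fmc (ck_one ck_958_0) ?_
  refine fmc (ck_one ck_959_0) ?_
  refine fmc (ck_one ck_1022_0) ?_
  refine fmc (ck_one ck_1023_0) ?_
  refine fmc (ck_one ck_1749_0) ?_
  refine fmc (ck_one ck_1751_0) ?_
  refine fmc (ck_one ck_1759_0) ?_
  refine fmc (ck_one ck_1780_0) ?_
  refine fmc (ck_one ck_1781_0) ?_
  refine fmc (ck_one ck_1783_0) ?_
  refine fmc (ck_one ck_1788_0) ?_
  refine fmc (ck_one ck_1789_0) ?_
  refine fmc (ck_one ck_1791_0) ?_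
  refine fmc (ck_one ck_1880_0) ?_
  refine fmc (ck_one ck_1881_0) ?_
  refine fmc (ck_one ck_1883_0) ?_
  refine fmc (ck_one ck_1884_0) ?_
  refine fmc (ck_one ck_1885_0) ?_
  refine fmc (ck_one ck_1887_0) ?_
  refine fmc (ck_one ck_1915_0) ?_
  refine fmc (ck_one ck_1916_0) ?_
  refine fmc (ck_one ck_1917_0) ?_
  refine fmc (ck_one ck_1919_0) ?_
  refine fmc (ck_one ck_2012_0) ?_
  refine fmc (ck_one ck_2013_0) ?_
  refine fmc (ck_one ck_2014_0) ?_
  refine fmc (ck_one ck_2015_0) ?_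
  refine fmc (ck_one ck_2046_0) ?_
  refine fmc (ck_one ck_2047_0) ?_
  refine fmc (ck_one ck_4060_0) ?_
  refine fmc (ck_one ck_4061_0) ?_
  refine fmc (ck_one ck_4063_0) ?_
  refine fmc (ck_one ck_4095_0) ?_
  refine fmc (ck_one ck_5872_0) ?_
  refine fmc (ck_one ck_5873_0) ?_
  refine fmc (ck_one ck_5875_0) ?_
  refine fmc (ck_one ck_5879_0) ?_
  refine fmc (ck_one ck_5887_0) ?_
  refine fmc (ck_one ck_5905_0) ?_
  refine fmc (ck_one ck_5907_0) ?_
  refine fmc (ck_one ck_5911_0) ?_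
  refine fmc (ck_one ck_5919_0) ?_
  refine fmc (ck_one ck_5941_0) ?_
  refine fmc (ck_one ck_5943_0) ?_
  refine fmc (ck_one ck_5948_0) ?_
  refine fmc (ck_one ck_5949_0) ?_
  refine fmc (ck_one ck_5950_0) ?_
  refine fmc (ck_one ck_5951_0) ?_
  refine fmc (ck_one ck_6007_0) ?_
  refine fmc (ck_one ck_6010_0) ?_
  refine fmc (ck_one ck_6011_0) ?_
  refine fmc (ck_one ck_6014_0) ?_
  refine fmc (ck_one ck_6015_0) ?_
  refine fmc (ck_one ck_6142_0) ?_
  refine fmc (ck_one ck_6143_0) ?_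
  refine fmc (ck_one ck_6654_0) ?_
  refine fmc (ck_one ck_6655_0) ?_
  refine fmc (ck_one ck_7071_0) ?_
  refine fmc (ck_one ck_7100_0) ?_
  refine fmc (ck_one ck_7101_0) ?_
  refine fmc (ck_one ck_7103_0) ?_
  refine fmc (ck_one ck_7166_0) ?_
  refine fmc (ck_one ck_7167_0) ?_
  refine fmc (ck_one ck_8157_0) ?_
  refine fmc (ck_one ck_8159_0) ?_
  refine fmc (ck_one ck_8191_0) ?_
  refine fmc (ck_one ck_15870_0) ?_
  refine fmc (ck_one ck_15871_0) ?_
  refine fmc (ck_one ck_16383_0) ?_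
  refine fmc ck_top ?_
  intro K hK
  exact absurd hK (List.not_mem_nil)

end Pool.Agent.N465.L2
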