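import Pool.Agent.N465.L2.Fin

/-! Giraud's graphs attain both constants. -/

set_option autoImplicit false
set_option linter.unusedSectionVars false

open Finset Filter Topology

namespace Pool.Agent.N465.L2

open Pool.Agent.Helper27.E7.Low

section
variable {V W : Type} [Fintype V] [DecidableEq V] [Fintype W] [DecidableEq W]

/-- the image of a family under a bijection of the vertices -/
def mapG (e : V ≃ W) (H : Finset (Finset V)) : Finset (Finset W) := H.map (Finset.mapEmbedding e.toEmbedding).toEmbedding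

theorem mem_mapG (e : V ≃ W) (H : Finset (Finset V)) (s : Finset W) :
    s ∈ mapG e H ↔ s.map e.symm.toEmbedding ∈ H := by
  unfold mapG
  rw [Finset.mem_map]
  constructor
  · rintro ⟨t, ht, rfl⟩
    have : (Finset.map e.toEmbedding t).map e.symm.toEmbedding = t := by
      ext x; simp
    show (Finset.map e.toEmbedding t).map e.symm.toEmbedding ∈ H
    rw [this]
    exact ht
  · intro h
    refine ⟨_, h, ?_⟩
    show Finset.map e.toEmbedding (s.map e.symm.toEmbedding) = s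
    ext x; simp

theorem card_mapG (e : V ≃ W) (H : Finset (Finset V)) : (mapG e H).card = H.card := Finset.card_map _

theorem codeg_mapG (e : V ≃ W) (H : Finset (Finset V)) (T : Finset V) :
    ((mapG e H).filter (T.map e.toEmbedding ⊆ ·)).card = (H.filter (T ⊆ ·)).card := by
  unfold mapG
  rw [Finset.filter_map, Finset.card_map]
  congr 1
  refine Finset.filter_congr fun s _ => ?_
  show Finset.map e.toEmbedding T ⊆ Finset.map e.toEmbedding s ↔ T ⊆ s
  exact Finset.map_subset_map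

theorem sum_mapG (e : V ≃ W) (H : Finset (Finset V)) :
    ∑ P ∈ (univ : Finset W).powersetCard 3, ((mapG e H).filter (P ⊆ ·)).card ^ 2
      = ∑ T ∈ (univ : Finset V).powersetCard 3, (H.filter (T ⊆ ·)).card ^ 2 := by
  have h1 : (univ : Finset W).powersetCard 3
      = ((univ : Finset V).powersetCard 3).map (Finset.mapEmbedding e.toEmbedding).toEmbedding := by
    rw [← Finset.powersetCard_map]
    congr 1
    ext x; simp
  rw [h1, Finset.sum_map]
  exact Finset.sum_congr rfl fun T _ => by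
    rw [← codeg_mapG e H T]
    rfl

end

/-- Giraud's graph on `2^(k+1)` vertices -/
theorem exists_G (k : ℕ) : ∃ G' : Finset (Finset (Fin (2 ^ (k + 1)))), Sq.CliqueFree (2 ^ (k + 1)) G' ∧
    24 * (G'.card : ℤ) = ((2 : ℤ) ^ k) ^ 2 * ((2 : ℤ) ^ k - 1) * (11 * (2 : ℤ) ^ k - 16) ∧
    24 * (Sq.squareSum G' : ℤ) = 8 * ((2 : ℤ) ^ k) ^ 3 * ((2 : ℤ) ^ k - 1) * ((2 : ℤ) ^ k - 2)
      + 6 * ((2 : ℤ) ^ k) ^ 2 * ((2 : ℤ) ^ k - 1) * (3 * (2 : ℤ) ^ k - 4) ^ 2 := by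
  have hcard : Fintype.card (Vk k) = 2 ^ (k + 1) := by
    rw [Fintype.card_prod, Fintype.card_bool, card_W, pow_succ]
    ring
  let e : Vk k ≃ Fin (2 ^ (k + 1)) := Fintype.equivFinOfCardEq hcard
  have hE := even_G k
  refine ⟨mapG e (G k), ⟨?_, ?_⟩, ?_, ?_⟩
  · intro s hs
    rw [mem_mapG] at hs
    have := hE.1 _ hs
    rwa [Finset.card_map] at this
  · intro S hS
    have hS' : (S.map e.symm.toEmbedding).card = 5 := by rw [Finset.card_map, hS]
    have key : ∃ s ⊆ S.map e.symm.toEmbedding, s.card = 4 ∧ s ∉ G k := by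
      by_contra hc
      push Not at hc
      have h1 := hE.2 _ hS'
      have h2 : (G k).filter (fun t => t ⊆ S.map e.symm.toEmbedding) = (S.map e.symm.toEmbedding).powersetCard 4 := by
        ext t
        rw [mem_filter, mem_powersetCard]
        exact ⟨fun h => ⟨h.2, hE.1 t h.1⟩, fun h => ⟨hc t h.1 h.2, h.1⟩⟩
      rw [Pool.Agent.Helper27.E7.inside, h2, card_powersetCard, hS'] at h1
      revert h1
      decide
    obtain ⟨s, hs1, hs2, hs3⟩ := key
    refine ⟨s.map e.toEmbedding, ?_, by rw [Finset.card_map, hs2], ?_⟩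
    · intro x hx
      rw [Finset.mem_map] at hx
      obtain ⟨y, hy, rfl⟩ := hx
      have := hs1 hy
      rw [Finset.mem_map] at this
      obtain ⟨z, hz, hzy⟩ := this
      have : e y = z := by
        rw [← hzy]; simp
      show e y ∈ S
      rw [this]
      exact hz
    · rw [mem_mapG]
      have : (s.map e.toEmbedding).map e.symm.toEmbedding = s := by
        ext x; simp
      rw [this]
      exact hs3
  · rw [card_mapG]
    exact cardG
  · have h := sumC2 (k := k)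
    rw [← h]
    unfold Sq.squareSum Sq.codegree
    rw [sum_mapG]
    unfold Pool.Agent.Helper27.E7.codeg
    push_cast
    rfl

theorem dens_eq {k : ℕ} (hk : 1 ≤ k) {G' : Finset (Finset (Fin (2 ^ (k + 1))))}
    (h : 24 * (G'.card : ℤ) = ((2 : ℤ) ^ k) ^ 2 * ((2 : ℤ) ^ k - 1) * (11 * (2 : ℤ) ^ k - 16)) :
    Sq.density G' = (11 - 16 * (1 / 2 : ℝ) ^ k) / (4 * (2 - (1 / 2 : ℝ) ^ k) * (2 - 3 * (1 / 2 : ℝ) ^ k)) := by
  have h' : 24 * (G'.card : ℝ) = ((2 : ℝ) ^ k) ^ 2 * ((2 : ℝ) ^ k - 1) * (11 * (2 : ℝ) ^ k - 16) := by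
    exact_mod_cast h
  unfold Sq.density
  rw [choose4]
  have hn : ((2 ^ (k + 1) : ℕ) : ℝ) = 2 * (2 : ℝ) ^ k := by
    push_cast
    rw [pow_succ]
    ring
  rw [hn, one_div_pow]
  have hN : (2 : ℝ) ≤ (2 : ℝ) ^ k := by
    calc (2 : ℝ) = 2 ^ 1 := by norm_num
      _ ≤ 2 ^ k := pow_le_pow_right₀ one_le_two hk
  generalize (2 : ℝ) ^ k = N at h' hN ⊢
  have hc : (G'.card : ℝ) = N ^ 2 * (N - 1) * (11 * N - 16) / 24 := by linarith
  rw [hc]
  have h0 : N ≠ 0 := by linarith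
  have h1 : N - 1 ≠ 0 := by linarith
  have h2 : 2 * N - 1 ≠ 0 := by linarith
  have h3 : 2 * N - 3 ≠ 0 := by linarith
  have e1 : 2 - 1 / N = (2 * N - 1) / N := by field_simp
  have e2 : 2 - 3 * (1 / N) = (2 * N - 3) / N := by field_simp
  have e3 : 2 * N - 2 = 2 * (N - 1) := by ring
  rw [e1, e2, e3]
  field_simp
  ring

theorem sq_eq {k : ℕ} (hk : 1 ≤ k) {G' : Finset (Finset (Fin (2 ^ (k + 1))))}
    (h : 24 * (Sq.squareSum G' : ℤ) = 8 * ((2 : ℤ) ^ k) ^ 3 * ((2 : ℤ) ^ k - 1) * ((2 : ℤ) ^ k - 2)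
      + 6 * ((2 : ℤ) ^ k) ^ 2 * ((2 : ℤ) ^ k - 1) * (3 * (2 : ℤ) ^ k - 4) ^ 2) :
    (Sq.squareSum G' : ℝ) / (((2 ^ (k + 1) : ℕ).choose 3 : ℝ) * (((2 ^ (k + 1) : ℕ) : ℝ) - 3) ^ 2)
      = (8 * (1 - 2 * (1 / 2 : ℝ) ^ k) + 6 * (3 - 4 * (1 / 2 : ℝ) ^ k) ^ 2) /
        (16 * (2 - (1 / 2 : ℝ) ^ k) * (2 - 3 * (1 / 2 : ℝ) ^ k) ^ 2) := by
  have h' : 24 * (Sq.squareSum G' : ℝ) = 8 * ((2 : ℝ) ^ k) ^ 3 * ((2 : ℝ) ^ k - 1) * ((2 : ℝ) ^ k - 2)
      + 6 * ((2 : ℝ) ^ k) ^ 2 * ((2 : ℝ) ^ k - 1) * (3 * (2 : ℝ) ^ k - 4) ^ 2 := by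
    exact_mod_cast h
  rw [choose3]
  have hn : ((2 ^ (k + 1) : ℕ) : ℝ) = 2 * (2 : ℝ) ^ k := by
    push_cast
    rw [pow_succ]
    ring
  rw [hn, one_div_pow]
  have hN : (2 : ℝ) ≤ (2 : ℝ) ^ k := by
    calc (2 : ℝ) = 2 ^ 1 := by norm_num
      _ ≤ 2 ^ k := pow_le_pow_right₀ one_le_two hk
  generalize (2 : ℝ) ^ k = N at h' hN ⊢
  generalize (Sq.squareSum G' : ℝ) = S at h' ⊢
  have hc : S = (8 * N ^ 3 * (N - 1) * (N - 2) + 6 * N ^ 2 * (N - 1) * (3 * N - 4) ^ 2) / 24 := by linarith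
  rw [hc]
  have h0 : N ≠ 0 := by linarith
  have h1 : N - 1 ≠ 0 := by linarith
  have h2 : 2 * N - 1 ≠ 0 := by linarith
  have h3 : 2 * N - 3 ≠ 0 := by linarith
  have e1 : 2 - 1 / N = (2 * N - 1) / N := by field_simp
  have e2 : 2 - 3 * (1 / N) = (2 * N - 3) / N := by field_simp
  have e3 : 2 * N - 2 = 2 * (N - 1) := by ring
  rw [e1, e2, e3]
  field_simp
  ring

/-- part three -/
theorem part3 : ∃ G : (k : ℕ) → Finset (Finset (Fin (2 ^ (k + 1)))), (∀ k, Sq.CliqueFree (2 ^ (k + 1)) (G k)) ∧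
    Tendsto (fun k => Sq.density (G k)) atTop (𝓝 (11 / 16)) ∧
    Tendsto (fun k => Sq.variance (G k)) atTop (𝓝 (3 / 256)) := by
  choose G hG using exists_G
  have hx : Tendsto (fun k : ℕ => (1 / 2 : ℝ) ^ k) atTop (𝓝 0) :=
    tendsto_pow_atTop_nhds_zero_of_lt_one (by norm_num) (by norm_num)
  have h1 : Tendsto (fun k => Sq.density (G k)) atTop (𝓝 (11 / 16)) := by
    have hf : ContinuousAt (fun x : ℝ => (11 - 16 * x) / (4 * (2 - x) * (2 - 3 * x))) 0 := by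
      refine ContinuousAt.div (by fun_prop) (by fun_prop) (by norm_num)
    have h2 := (hf.tendsto).comp hx
    have h3 : ((11 - 16 * (0 : ℝ)) / (4 * (2 - 0) * (2 - 3 * 0))) = 11 / 16 := by norm_num
    rw [h3] at h2
    refine h2.congr' ?_
    filter_upwards [eventually_ge_atTop 1] with k hk
    exact (dens_eq hk (hG k).2.1).symm
  have h4 : Tendsto (fun k => (Sq.squareSum (G k) : ℝ) /
      (((2 ^ (k + 1) : ℕ).choose 3 : ℝ) * (((2 ^ (k + 1) : ℕ) : ℝ) - 3) ^ 2)) atTop (𝓝 (31 / 64)) := by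
    have hf : ContinuousAt (fun x : ℝ => (8 * (1 - 2 * x) + 6 * (3 - 4 * x) ^ 2) /
        (16 * (2 - x) * (2 - 3 * x) ^ 2)) 0 := by
      refine ContinuousAt.div (by fun_prop) (by fun_prop) (by norm_num)
    have h2 := (hf.tendsto).comp hx
    have h3 : ((8 * (1 - 2 * (0 : ℝ)) + 6 * (3 - 4 * 0) ^ 2) / (16 * (2 - 0) * (2 - 3 * 0) ^ 2)) = 31 / 64 := by
      norm_num
    rw [h3] at h2
    refine h2.congr' ?_
    filter_upwards [eventually_ge_atTop 1] with k hk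
    exact (sq_eq hk (hG k).2.2).symm
  refine ⟨G, fun k => (hG k).1, h1, ?_⟩
  have h5 := h4.sub (h1.pow 2)
  have h6 : (31 / 64 : ℝ) - (11 / 16) ^ 2 = 3 / 256 := by norm_num
  rw [h6] at h5
  refine h5.congr' ?_
  filter_upwards [eventually_ge_atTop 1] with k hk
  have h7 : 4 ≤ 2 ^ (k + 1) := by
    calc 4 = 2 ^ 2 := by norm_num
      _ ≤ 2 ^ (k + 1) := Nat.pow_le_pow_right (by norm_num) (by omega)
  have h8 := mean_sq h7 (hG k).1.1
  rw [← h8]
  ring

/-- part two, with a deviation of the variance allowed -/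
theorem part2' : ∃ C : ℝ, ∀ n : ℕ, 4 ≤ n → ∀ G : Finset (Finset (Fin n)), Sq.CliqueFree n G →
    Sq.density G ^ 2 + Sq.variance G ≤ 31 / 64 + C / n ∧
    ∀ δ : ℝ, 0 ≤ δ → 3 / 256 - δ ≤ Sq.variance G → Sq.density G ≤ 11 / 16 + δ + C / n := by
  obtain ⟨C, h0, hC⟩ := ex_le
  refine ⟨97 + 306 * C, fun n hn G hG => ?_⟩
  have h1 : Sq.density G ^ 2 + Sq.variance G ≤ 31 / 64 + (97 + 306 * C) / n := by
    rw [mean_sq hn hG.1]
    exact norm_bound h0 hn (hC n G hG)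
  refine ⟨h1, fun δ hδ hv => ?_⟩
  by_contra hlt
  push Not at hlt
  have hx : (0 : ℝ) ≤ (97 + 306 * C) / n := by positivity
  generalize (97 + 306 * C) / (n : ℝ) = x at h1 hlt hx
  have hy : 0 ≤ δ + x := by linarith
  have h2 : (11 / 16 + (δ + x)) ^ 2 < Sq.density G ^ 2 := by
    apply pow_lt_pow_left₀ (by linarith) (by linarith) (by norm_num)
  nlinarith [h1, hv, h2, hy, sq_nonneg (δ + x)]

end Pool.Agent.N465.L2
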