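import Mathlib

/-! Definitions for the codegree-squared Turan density of the complete 4-graph on five vertices. -/

set_option autoImplicit false

open Finset

namespace Pool.Agent.N465.L2.Sq

/-- `G` is a 4-graph on the vertex set `Fin n` in which no five vertices span a complete 4-graph `K_5^4` -/
def CliqueFree (n : ℕ) (G : Finset (Finset (Fin n))) : Prop :=
  (∀ s ∈ G, s.card = 4) ∧ ∀ S : Finset (Fin n), S.card = 5 → ∃ s ⊆ S, s.card = 4 ∧ s ∉ G

/-- the codegree of the triple `P`: the number of edges containing it -/
def codegree {n : ℕ} (G : Finset (Finset (Fin n))) (P : Finset (Fin n)) : ℕ := (G.filter (P ⊆ ·)).card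

/-- the sum of the squares of the codegrees of all triples -/
def squareSum {n : ℕ} (G : Finset (Finset (Fin n))) : ℕ :=
  ∑ P ∈ (univ : Finset (Fin n)).powersetCard 3, codegree G P ^ 2

open Classical in
/-- the largest codegree square sum of a `K_5^4`-free 4-graph on `n` vertices -/
noncomputable def exSquare (n : ℕ) : ℕ :=
  ((univ : Finset (Finset (Finset (Fin n)))).filter (CliqueFree n)).sup squareSum

/-- the edge density -/
noncomputable def density {n : ℕ} (G : Finset (Finset (Fin n))) : ℝ := (G.card : ℝ) / (n.choose 4 : ℝ)

/-- the variance of the relative codegree of a random triple (its mean is the edge density) -/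
noncomputable def variance {n : ℕ} (G : Finset (Finset (Fin n))) : ℝ :=
  (∑ P ∈ (univ : Finset (Fin n)).powersetCard 3, ((codegree G P : ℝ) / ((n : ℝ) - 3) - density G) ^ 2) /
    (n.choose 3 : ℝ)

end Pool.Agent.N465.L2.Sq
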