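import Pool.Agent.N465.L2.Stm

/-! # STAR: the inequality for odd structures, from the five-four inequality (as a hypothesis) -/

set_option autoImplicit false

open Finset

namespace Pool.Agent.N465.L2

namespace StarAux

/-- number of five-element subsets of `Fin n` that contain exactly `k` members of `F` -/
def fives {n : ℕ} (F : Finset (Finset (Fin n))) (k : ℕ) : ℕ :=
  ((powersetCard 5 (univ : Finset (Fin n))).filter (fun S => (F.filter (· ⊆ S)).card = k)).card

/-- the set of the vertices of a 5-tuple -/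
def St {n : ℕ} (t : Fin n × Fin n × Fin n × Fin n × Fin n) : Finset (Fin n) :=
  {t.1, t.2.1, t.2.2.1, t.2.2.2.1, t.2.2.2.2}

/-- every 5-set is the vertex set of 120 ordered 5-tuples -/
theorem fib {n : ℕ} (S : Finset (Fin n)) (hS : S.card = 5) :
    ((univ : Finset (Fin n × Fin n × Fin n × Fin n × Fin n)).filter fun t => St t = S).card = 120 := by
  classical
  let g : Fin 5 ≃ S := (S.equivFinOfCardEq hS).symm
  have h120 : (univ : Finset (Equiv.Perm (Fin 5))).card = 120 := by
    rw [card_univ, Fintype.card_perm, Fintype.card_fin]; rfl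
  rw [← h120]
  symm
  refine card_bij (fun σ _ => ((g (σ 0) : Fin n), (g (σ 1) : Fin n), (g (σ 2) : Fin n), (g (σ 3) : Fin n),
    (g (σ 4) : Fin n))) ?_ ?_ ?_
  · intro σ _
    rw [mem_filter]
    refine ⟨mem_univ _, ?_⟩
    unfold St
    ext x
    simp only [mem_insert, mem_singleton]
    constructor
    · rintro (h | h | h | h | h) <;> rw [h] <;> exact Subtype.prop _
    · intro hx
      obtain ⟨i, hi⟩ := g.surjective ⟨x, hx⟩
      obtain ⟨j, hj⟩ := σ.surjective i
      have hx' : x = (g (σ j) : Fin n) := by rw [hj, hi]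
      rw [hx']
      fin_cases j
      · exact Or.inl rfl
      · exact Or.inr (Or.inl rfl)
      · exact Or.inr (Or.inr (Or.inl rfl))
      · exact Or.inr (Or.inr (Or.inr (Or.inl rfl)))
      · exact Or.inr (Or.inr (Or.inr (Or.inr rfl)))
  · intro σ _ τ _ h
    simp only [Prod.mk.injEq] at h
    obtain ⟨h0, h1, h2, h3, h4⟩ := h
    have e : ∀ i j : Fin 5, (g i : Fin n) = g j → i = j := fun i j h => g.injective (Subtype.ext h)
    ext i
    fin_cases i
    · exact congrArg Fin.val (e _ _ h0)
    · exact congrArg Fin.val (e _ _ h1)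
    · exact congrArg Fin.val (e _ _ h2)
    · exact congrArg Fin.val (e _ _ h3)
    · exact congrArg Fin.val (e _ _ h4)
  · rintro ⟨a, b, c, d, e⟩ ht
    rw [mem_filter] at ht
    have hSt : ({a, b, c, d, e} : Finset (Fin n)) = S := ht.2
    have ha : a ∈ S := by rw [← hSt]; simp
    have hb : b ∈ S := by rw [← hSt]; simp
    have hc : c ∈ S := by rw [← hSt]; simp
    have hd : d ∈ S := by rw [← hSt]; simp
    have he : e ∈ S := by rw [← hSt]; simp
    let f : Fin 5 → Fin 5 := ![g.symm ⟨a, ha⟩, g.symm ⟨b, hb⟩, g.symm ⟨c, hc⟩, g.symm ⟨d, hd⟩, g.symm ⟨e, he⟩]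
    have hf : Function.Surjective f := by
      intro i
      have hi : (g i : Fin n) ∈ ({a, b, c, d, e} : Finset (Fin n)) := by rw [hSt]; exact Subtype.prop _
      simp only [mem_insert, mem_singleton] at hi
      rcases hi with h | h | h | h | h
      · exact ⟨0, by
          show g.symm ⟨a, ha⟩ = i
          rw [Equiv.symm_apply_eq]; exact Subtype.ext h.symm⟩
      · exact ⟨1, by
          show g.symm ⟨b, hb⟩ = i
          rw [Equiv.symm_apply_eq]; exact Subtype.ext h.symm⟩
      · exact ⟨2, by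
          show g.symm ⟨c, hc⟩ = i
          rw [Equiv.symm_apply_eq]; exact Subtype.ext h.symm⟩
      · exact ⟨3, by
          show g.symm ⟨d, hd⟩ = i
          rw [Equiv.symm_apply_eq]; exact Subtype.ext h.symm⟩
      · exact ⟨4, by
          show g.symm ⟨e, he⟩ = i
          rw [Equiv.symm_apply_eq]; exact Subtype.ext h.symm⟩
    refine ⟨Equiv.ofBijective f (Finite.injective_iff_surjective.mpr hf |> fun hi => ⟨hi, hf⟩), mem_univ _, ?_⟩
    simp only [Equiv.ofBijective_apply]
    have f0 : f 0 = g.symm ⟨a, ha⟩ := rfl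
    have f1 : f 1 = g.symm ⟨b, hb⟩ := rfl
    have f2 : f 2 = g.symm ⟨c, hc⟩ := rfl
    have f3 : f 3 = g.symm ⟨d, hd⟩ := rfl
    have f4 : f 4 = g.symm ⟨e, he⟩ := rfl
    rw [f0, f1, f2, f3, f4]
    simp only [Equiv.apply_symm_apply]

/-- the number of members of the complement inside a 5-set, as a sum over the omitted vertex -/
theorem inside {n : ℕ} (G : Finset (Finset (Fin n))) (S : Finset (Fin n)) (hS : S.card = 5) :
    (((powersetCard 4 (univ : Finset (Fin n))) \ G).filter (· ⊆ S)).card
      = ∑ x ∈ S, (if S.erase x ∈ G then 0 else 1) := by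
  classical
  have h1 : ∑ x ∈ S, (if S.erase x ∈ G then 0 else 1) = (S.filter fun x => S.erase x ∉ G).card := by
    rw [card_filter]
    refine sum_congr rfl fun x _ => ?_
    by_cases h : S.erase x ∈ G
    · rw [if_pos h, if_neg (not_not.mpr h)]
    · rw [if_neg h, if_pos h]
  rw [h1]
  symm
  refine card_bij (fun x _ => S.erase x) ?_ ?_ ?_
  · intro x hx
    rw [mem_filter] at hx
    rw [mem_filter, mem_sdiff, mem_powersetCard]
    refine ⟨⟨⟨subset_univ _, ?_⟩, hx.2⟩, erase_subset _ _⟩
    rw [card_erase_of_mem hx.1, hS]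
  · intro x hx y hy h
    rw [mem_filter] at hx hy
    exact erase_injOn S hx.1 hy.1 h
  · intro T hT
    rw [mem_filter, mem_sdiff, mem_powersetCard] at hT
    obtain ⟨⟨⟨_, hT4⟩, hTG⟩, hTS⟩ := hT
    have hc : (S \ T).card = 1 := by
      have := card_sdiff_add_card_eq_card hTS
      omega
    obtain ⟨x, hx⟩ := card_eq_one.mp hc
    have hxS : x ∈ S \ T := by rw [hx]; exact mem_singleton_self x
    have hE : S.erase x = T := by
      rw [← sdiff_singleton_eq_erase, ← hx, Finset.sdiff_sdiff_eq_self hTS]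
    refine ⟨x, ?_, hE⟩
    rw [mem_filter]
    refine ⟨(mem_sdiff.mp hxS).1, ?_⟩
    rw [hE]; exact hTG

/-- the number of non-edges of an ordered 5-tuple of distinct vertices -/
theorem kC5_eq {n : ℕ} (G : Finset (Finset (Fin n))) (t : Fin n × Fin n × Fin n × Fin n × Fin n)
    (ht : (St t).card = 5) :
    kC5 (non G) t.1 t.2.1 t.2.2.1 t.2.2.2.1 t.2.2.2.2
      = (((powersetCard 4 (univ : Finset (Fin n))) \ G).filter (· ⊆ St t)).card := by
  rw [inside G _ ht]
  obtain ⟨a, b, c, d, e⟩ := t
  unfold St at ht ⊢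
  simp only at ht ⊢
  have ha : a ∉ ({b, c, d, e} : Finset (Fin n)) := by
    intro h
    rw [insert_eq_of_mem h] at ht
    have := card_le_four (a := b) (b := c) (c := d) (d := e)
    omega
  have hb : b ∉ ({c, d, e} : Finset (Fin n)) := by
    intro h
    rw [insert_eq_of_mem h] at ht
    have := card_le_four (a := a) (b := c) (c := d) (d := e)
    omega
  have hc : c ∉ ({d, e} : Finset (Fin n)) := by
    intro h
    rw [insert_eq_of_mem h] at ht
    have := card_le_four (a := a) (b := b) (c := d) (d := e)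
    omega
  have hd : d ∉ ({e} : Finset (Fin n)) := by
    intro h
    rw [insert_eq_of_mem h] at ht
    have := card_le_four (a := a) (b := b) (c := c) (d := e)
    omega
  rw [sum_insert ha, sum_insert hb, sum_insert hc, sum_insert hd, sum_singleton]
  simp only [mem_insert, mem_singleton, not_or] at ha hb hc hd
  obtain ⟨hab, hac, had, hae⟩ := ha
  obtain ⟨hbc, hbd, hbe⟩ := hb
  obtain ⟨hcd, hce⟩ := hc
  have ea : ({a, b, c, d, e} : Finset (Fin n)).erase a = {b, c, d, e} := by
    ext x; simp only [mem_erase, mem_insert, mem_singleton]; constructor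
    · rintro ⟨h1, h2 | h2 | h2 | h2 | h2⟩ <;> simp_all
    · rintro (h2 | h2 | h2 | h2) <;> subst h2 <;> simp_all [eq_comm]
  have eb : ({a, b, c, d, e} : Finset (Fin n)).erase b = {a, c, d, e} := by
    ext x; simp only [mem_erase, mem_insert, mem_singleton]; constructor
    · rintro ⟨h1, h2 | h2 | h2 | h2 | h2⟩ <;> simp_all
    · rintro (h2 | h2 | h2 | h2) <;> subst h2 <;> simp_all [eq_comm]
  have ec : ({a, b, c, d, e} : Finset (Fin n)).erase c = {a, b, d, e} := by
    ext x; simp only [mem_erase, mem_insert, mem_singleton]; constructor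
    · rintro ⟨h1, h2 | h2 | h2 | h2 | h2⟩ <;> simp_all
    · rintro (h2 | h2 | h2 | h2) <;> subst h2 <;> simp_all [eq_comm]
  have ed : ({a, b, c, d, e} : Finset (Fin n)).erase d = {a, b, c, e} := by
    ext x; simp only [mem_erase, mem_insert, mem_singleton]; constructor
    · rintro ⟨h1, h2 | h2 | h2 | h2 | h2⟩ <;> simp_all
    · rintro (h2 | h2 | h2 | h2) <;> subst h2 <;> simp_all [eq_comm]
  have ee : ({a, b, c, d, e} : Finset (Fin n)).erase e = {a, b, c, d} := by
    ext x; simp only [mem_erase, mem_insert, mem_singleton]; constructor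
    · rintro ⟨h1, h2 | h2 | h2 | h2 | h2⟩ <;> simp_all
    · rintro (h2 | h2 | h2 | h2) <;> subst h2 <;> simp_all [eq_comm]
  rw [ea, eb, ec, ed, ee]
  unfold kC5 non
  ring

/-- ordered 5-tuples of distinct vertices with `k` non-edges -/
theorem count {n : ℕ} (G : Finset (Finset (Fin n))) (k : ℕ) :
    ((univ : Finset (Fin n × Fin n × Fin n × Fin n × Fin n)).filter fun t =>
      (St t).card = 5 ∧ kC5 (non G) t.1 t.2.1 t.2.2.1 t.2.2.2.1 t.2.2.2.2 = k).card
      = 120 * fives ((powersetCard 4 (univ : Finset (Fin n))) \ G) k := by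
  classical
  rw [card_eq_sum_card_fiberwise (f := St) (t := (powersetCard 5 (univ : Finset (Fin n))).filter (fun S =>
    (((powersetCard 4 (univ : Finset (Fin n))) \ G).filter (· ⊆ S)).card = k))]
  · unfold fives
    rw [mul_comm, ← smul_eq_mul, ← sum_const]
    refine sum_congr rfl fun S hS => ?_
    rw [mem_filter, mem_powersetCard] at hS
    rw [← fib S hS.1.2, filter_filter]
    congr 1
    refine filter_congr fun t _ => ?_
    constructor
    · exact fun h => h.2
    · intro h
      refine ⟨⟨by rw [h]; exact hS.1.2, ?_⟩, h⟩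
      rw [kC5_eq G t (by rw [h]; exact hS.1.2), h]
      exact hS.2
  · intro t ht
    rw [mem_coe, mem_filter] at ht
    rw [mem_coe, mem_filter, mem_powersetCard]
    refine ⟨⟨subset_univ _, ht.2.1⟩, ?_⟩
    rw [← kC5_eq G t ht.2.1]
    exact ht.2.2

/-- all ordered 5-tuples of distinct vertices -/
theorem countAll (n : ℕ) :
    ((univ : Finset (Fin n × Fin n × Fin n × Fin n × Fin n)).filter fun t => (St t).card = 5).card
      = 120 * n.choose 5 := by
  classical
  rw [card_eq_sum_card_fiberwise (f := St) (t := powersetCard 5 (univ : Finset (Fin n)))]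
  · have hc : (powersetCard 5 (univ : Finset (Fin n))).card = n.choose 5 := by
      rw [card_powersetCard, card_univ, Fintype.card_fin]
    rw [← hc, mul_comm, ← smul_eq_mul, ← sum_const]
    refine sum_congr rfl fun S hS => ?_
    rw [mem_powersetCard] at hS
    rw [← fib S hS.2, filter_filter]
    congr 1
    refine filter_congr fun t _ => ?_
    constructor
    · exact fun h => h.2
    · intro h
      exact ⟨by rw [h]; exact hS.2, h⟩
  · intro t ht
    rw [mem_coe, mem_filter] at ht
    rw [mem_coe, mem_powersetCard]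
    exact ⟨subset_univ _, ht.2⟩

theorem desc (n : ℕ) : n ^ 5 ≤ 120 * n.choose 5 + 10 * n ^ 4 := by
  have h : 120 * n.choose 5 = n.descFactorial 5 := by
    rw [Nat.descFactorial_eq_factorial_mul_choose]; rfl
  rw [h]
  rcases Nat.lt_or_ge n 5 with h5 | h5
  · interval_cases n <;> decide
  · obtain ⟨m, rfl⟩ := Nat.exists_eq_add_of_le h5
    simp only [Nat.descFactorial_succ, Nat.descFactorial_zero]
    have e1 : 5 + m - 4 = m + 1 := by omega
    have e2 : 5 + m - 3 = m + 2 := by omega
    have e3 : 5 + m - 2 = m + 3 := by omega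
    have e4 : 5 + m - 1 = m + 4 := by omega
    rw [e1, e2, e3, e4, Nat.sub_zero]
    nlinarith [sq_nonneg (m : ℤ), Nat.zero_le (m ^ 2), Nat.zero_le (m ^ 3), Nat.zero_le (m ^ 4), Nat.zero_le m]

theorem desc' (n : ℕ) : 120 * n.choose 5 ≤ n ^ 5 := by
  have h : 120 * n.choose 5 = n.descFactorial 5 := by
    rw [Nat.descFactorial_eq_factorial_mul_choose]; rfl
  rw [h]
  exact Nat.descFactorial_le_pow n 5

/-- all ordered 5-tuples in terms of 5-sets -/
theorem p5_eq {n : ℕ} (G : Finset (Finset (Fin n))) (k : ℕ) :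
    120 * fives ((powersetCard 4 (univ : Finset (Fin n))) \ G) k ≤ p5 (non G) k ∧
    p5 (non G) k ≤ 120 * fives ((powersetCard 4 (univ : Finset (Fin n))) \ G) k + 10 * n ^ 4 := by
  classical
  constructor
  · rw [← count]
    unfold p5
    refine card_le_card fun t ht => ?_
    rw [mem_filter] at ht ⊢
    exact ⟨ht.1, ht.2.2⟩
  · have h1 : p5 (non G) k ≤ ((univ : Finset (Fin n × Fin n × Fin n × Fin n × Fin n)).filter fun t =>
        (St t).card = 5 ∧ kC5 (non G) t.1 t.2.1 t.2.2.1 t.2.2.2.1 t.2.2.2.2 = k).card +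
        ((univ : Finset (Fin n × Fin n × Fin n × Fin n × Fin n)).filter fun t => ¬ (St t).card = 5).card := by
      unfold p5
      refine (card_le_card fun t ht => ?_).trans (card_union_le _ _)
      rw [mem_union, mem_filter, mem_filter]
      rw [mem_filter] at ht
      by_cases h : (St t).card = 5
      · exact Or.inl ⟨ht.1, h, ht.2⟩
      · exact Or.inr ⟨ht.1, h⟩
    have h2 := card_filter_add_card_filter_not (s := (univ : Finset (Fin n × Fin n × Fin n × Fin n × Fin n)))
      (fun t => (St t).card = 5)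
    rw [countAll] at h2
    have h3 : (univ : Finset (Fin n × Fin n × Fin n × Fin n × Fin n)).card = n ^ 5 := by
      rw [card_univ]
      simp only [Fintype.card_prod, Fintype.card_fin]
      ring
    rw [h3] at h2
    rw [count] at h1
    have h4 := desc n
    omega

/-- double counting -/
theorem dbl {n : ℕ} (F : Finset (Finset (Fin n))) (hF : F ⊆ powersetCard 4 univ) :
    ∑ S ∈ powersetCard 5 (univ : Finset (Fin n)), (F.filter (· ⊆ S)).card = F.card * (n - 4) := by
  classical
  have h1 : ∀ S : Finset (Fin n), (F.filter (· ⊆ S)).card = ∑ T ∈ F, if T ⊆ S then 1 else 0 := by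
    intro S; rw [card_filter]
  simp only [h1]
  rw [sum_comm, ← smul_eq_mul, ← sum_const]
  refine sum_congr rfl fun T hT => ?_
  rw [← card_filter]
  have hT4 : T.card = 4 := (mem_powersetCard.mp (hF hT)).2
  have hc : ((univ : Finset (Fin n)) \ T).card = n - 4 := by
    rw [card_sdiff_of_subset (subset_univ T), card_univ, Fintype.card_fin, hT4]
  rw [← hc]
  symm
  refine card_bij (fun x _ => insert x T) ?_ ?_ ?_
  · intro x hx
    rw [mem_sdiff] at hx
    rw [mem_filter, mem_powersetCard]
    refine ⟨⟨subset_univ _, ?_⟩, subset_insert _ _⟩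
    rw [card_insert_of_notMem hx.2, hT4]
  · intro x hx y hy h
    rw [mem_sdiff] at hx hy
    have : x ∈ insert y T := by rw [← h]; exact mem_insert_self x T
    rcases mem_insert.mp this with h' | h'
    · exact h'
    · exact absurd h' hx.2
  · intro S hS
    rw [mem_filter, mem_powersetCard] at hS
    obtain ⟨⟨_, hS5⟩, hTS⟩ := hS
    have h2 : (S \ T).card = 1 := by
      have := card_sdiff_add_card_eq_card hTS
      omega
    obtain ⟨x, hx⟩ := card_eq_one.mp h2
    have hxS : x ∈ S \ T := by rw [hx]; exact mem_singleton_self x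
    refine ⟨x, ?_, ?_⟩
    · rw [mem_sdiff]; exact ⟨mem_univ _, (mem_sdiff.mp hxS).2⟩
    · rw [insert_eq, ← hx, sdiff_union_of_subset hTS]

theorem inside_le {n : ℕ} (F : Finset (Finset (Fin n))) (hF : F ⊆ powersetCard 4 univ) (S : Finset (Fin n))
    (hS : S.card = 5) : (F.filter (· ⊆ S)).card < 6 := by
  have h : F.filter (· ⊆ S) ⊆ powersetCard 4 S := by
    intro T hT
    rw [mem_filter] at hT
    rw [mem_powersetCard]
    exact ⟨hT.2, (mem_powersetCard.mp (hF hT.1)).2⟩
  have := card_le_card h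
  rw [card_powersetCard, hS] at this
  have h5 : Nat.choose 5 4 = 5 := rfl
  omega

theorem sum_k {n : ℕ} (F : Finset (Finset (Fin n))) (hF : F ⊆ powersetCard 4 univ) :
    fives F 0 + fives F 1 + fives F 2 + fives F 3 + fives F 4 + fives F 5 = n.choose 5 ∧
    fives F 1 + 2 * fives F 2 + 3 * fives F 3 + 4 * fives F 4 + 5 * fives F 5 = F.card * (n - 4) := by
  classical
  have hmap : ∀ S ∈ powersetCard 5 (univ : Finset (Fin n)), (F.filter (· ⊆ S)).card ∈ range 6 := by
    intro S hS
    rw [mem_range]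
    exact inside_le F hF S (mem_powersetCard.mp hS).2
  constructor
  · have h1 : n.choose 5 = (powersetCard 5 (univ : Finset (Fin n))).card := by
      rw [card_powersetCard, card_univ, Fintype.card_fin]
    rw [h1, card_eq_sum_card_fiberwise (f := fun S => (F.filter (· ⊆ S)).card) (t := range 6) (by
      intro S hS; exact mem_coe.mpr (hmap S (mem_coe.mp hS)))]
    simp only [sum_range_succ, sum_range_zero, zero_add]
    rfl
  · rw [← dbl F hF, ← sum_fiberwise_of_maps_to (g := fun S => (F.filter (· ⊆ S)).card) (t := range 6) hmap]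
    have h2 : ∀ k ∈ range 6, ∑ S ∈ (powersetCard 5 (univ : Finset (Fin n))).filter (fun S =>
        (F.filter (· ⊆ S)).card = k), (F.filter (· ⊆ S)).card = k * fives F k := by
      intro k _
      unfold fives
      rw [mul_comm, ← smul_eq_mul, ← sum_const]
      refine sum_congr rfl fun S hS => ?_
      exact (mem_filter.mp hS).2
    rw [sum_congr rfl h2]
    simp only [sum_range_succ, sum_range_zero, zero_add, zero_mul]
    ring

end StarAux

open StarAux in
theorem star_of (h : ∀ (n : ℕ) (_ : 5 ≤ n) (F : Finset (Finset (Fin n))) (_ : F ⊆ powersetCard 4 univ),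
    5 / 16 - (StarAux.fives F 0 : ℝ) / (n.choose 5 : ℝ) - 1 / 5 * ((StarAux.fives F 2 : ℝ) / (n.choose 5 : ℝ))
      + 3 / 5 * ((StarAux.fives F 4 : ℝ) / (n.choose 5 : ℝ)) - 300 / n ≤ (F.card : ℝ) / (n.choose 4 : ℝ)) :
    Goal_STAR := by
  refine ⟨24180, fun n G hG hK => ?_⟩
  set F : Finset (Finset (Fin n)) := (powersetCard 4 (univ : Finset (Fin n))) \ G with hFdef
  have hF : F ⊆ powersetCard 4 univ := sdiff_subset
  -- no five-set without a member of `F`
  have h0 : fives F 0 = 0 := by
    unfold fives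
    rw [card_eq_zero, filter_eq_empty_iff]
    intro S hS h'
    obtain ⟨s, hs, hs4, hsG⟩ := hK S (mem_powersetCard.mp hS).2
    rw [card_eq_zero, filter_eq_empty_iff] at h'
    exact h' (mem_sdiff.mpr ⟨mem_powersetCard.mpr ⟨subset_univ _, hs4⟩, hsG⟩) hs
  obtain ⟨hs, hd⟩ := sum_k F hF
  -- the inequality for numbers of five-sets
  have key : 9 * (fives F 1 : ℝ) + 9 * (fives F 4 : ℝ) ≤
      23 * (fives F 2 : ℝ) + 23 * (fives F 3 : ℝ) + 55 * (fives F 5 : ℝ) + 200 * (n : ℝ) ^ 4 := by
    rcases Nat.lt_or_ge n 5 with h5 | h5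
    · have hz : n.choose 5 = 0 := Nat.choose_eq_zero_of_lt h5
      rw [hz] at hs
      have e1 : fives F 1 = 0 := by omega
      have e4 : fives F 4 = 0 := by omega
      rw [e1, e4]
      simp only [Nat.cast_zero, mul_zero, add_zero]
      positivity
    · have hh := h n h5 F hF
      rw [h0] at hh
      have hn : (0 : ℝ) < n := by
        have : 0 < n := by omega
        exact_mod_cast this
      have hN : (0 : ℝ) < (n.choose 5 : ℝ) := by
        have : 0 < n.choose 5 := Nat.choose_pos h5
        exact_mod_cast this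
      have hN4 : (0 : ℝ) < (n.choose 4 : ℝ) := by
        have : 0 < n.choose 4 := Nat.choose_pos (by omega)
        exact_mod_cast this
      have hch : (n.choose 5 : ℝ) * 5 = (n.choose 4 : ℝ) * ((n : ℝ) - 4) := by
        have h1 : n.choose 5 * 5 = n.choose 4 * (n - 4) := Nat.choose_succ_right_eq n 4
        have h2 : ((n - 4 : ℕ) : ℝ) = (n : ℝ) - 4 := by
          rw [Nat.cast_sub (by omega)]; norm_num
        rw [← h2]; exact_mod_cast h1
      have hs' : (n.choose 5 : ℝ) = fives F 1 + fives F 2 + fives F 3 + fives F 4 + fives F 5 := by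
        rw [← hs, h0]; push_cast; ring
      have hd' : (F.card : ℝ) * ((n : ℝ) - 4)
          = fives F 1 + 2 * fives F 2 + 3 * fives F 3 + 4 * fives F 4 + 5 * fives F 5 := by
        have h2 : ((n - 4 : ℕ) : ℝ) = (n : ℝ) - 4 := by
          rw [Nat.cast_sub (by omega)]; norm_num
        rw [← h2]; exact_mod_cast hd.symm
      have hFc : (F.card : ℝ) / (n.choose 4 : ℝ)
          = (fives F 1 + 2 * fives F 2 + 3 * fives F 3 + 4 * fives F 4 + 5 * fives F 5 : ℝ)
            / (5 * (n.choose 5 : ℝ)) := by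
        rw [div_eq_div_iff hN4.ne' (by positivity), ← hd']
        linear_combination (F.card : ℝ) * hch
      rw [hFc] at hh
      have hm := mul_le_mul_of_nonneg_right hh (show (0 : ℝ) ≤ 80 * (n.choose 5 : ℝ) by positivity)
      have hl : (5 / 16 - ((0 : ℕ) : ℝ) / (n.choose 5 : ℝ) - 1 / 5 * ((fives F 2 : ℝ) / (n.choose 5 : ℝ))
          + 3 / 5 * ((fives F 4 : ℝ) / (n.choose 5 : ℝ)) - 300 / n) * (80 * (n.choose 5 : ℝ))
          = 25 * (n.choose 5 : ℝ) - 16 * fives F 2 + 48 * fives F 4 - 24000 * ((n.choose 5 : ℝ) / n) := by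
        field_simp
        push_cast
        ring
      have hr : (fives F 1 + 2 * fives F 2 + 3 * fives F 3 + 4 * fives F 4 + 5 * fives F 5 : ℝ)
            / (5 * (n.choose 5 : ℝ)) * (80 * (n.choose 5 : ℝ))
          = 16 * (fives F 1 + 2 * fives F 2 + 3 * fives F 3 + 4 * fives F 4 + 5 * fives F 5 : ℝ) := by
        field_simp
        ring
      rw [hl, hr] at hm
      have hq : 24000 * ((n.choose 5 : ℝ) / n) ≤ 200 * (n : ℝ) ^ 4 := by
        have h1 : (120 : ℝ) * (n.choose 5 : ℝ) ≤ (n : ℝ) ^ 5 := by exact_mod_cast desc' n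
        rw [← mul_div_assoc, div_le_iff₀ hn]
        nlinarith [h1]
      nlinarith [hm, hq, hs']
  -- pass to ordered tuples
  have q1 := (p5_eq G 1).2
  have q4 := (p5_eq G 4).2
  have q2 := (p5_eq G 2).1
  have q3 := (p5_eq G 3).1
  have q5 := (p5_eq G 5).1
  rw [← hFdef] at q1 q2 q3 q4 q5
  have r1 : (p5 (non G) 1 : ℝ) ≤ 120 * (fives F 1 : ℝ) + 10 * (n : ℝ) ^ 4 := by exact_mod_cast q1
  have r4 : (p5 (non G) 4 : ℝ) ≤ 120 * (fives F 4 : ℝ) + 10 * (n : ℝ) ^ 4 := by exact_mod_cast q4
  have r2 : 120 * (fives F 2 : ℝ) ≤ (p5 (non G) 2 : ℝ) := by exact_mod_cast q2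
  have r3 : 120 * (fives F 3 : ℝ) ≤ (p5 (non G) 3 : ℝ) := by exact_mod_cast q3
  have r5 : 120 * (fives F 5 : ℝ) ≤ (p5 (non G) 5 : ℝ) := by exact_mod_cast q5
  linarith

end Pool.Agent.N465.L2
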