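import Mathlib

/-!
# The codegree-squared Turan density of the complete 4-graph on five vertices: statements

`E a b c d = 1` if the four vertices do not form an edge (in particular if two of them coincide) and
`0` if they form an edge.  `Cov E`: no five vertices span a complete 4-graph.
-/

set_option autoImplicit false

open Finset

namespace Pool.Agent.N465.L2

/-- symmetric 0/1-valued functions of four vertices -/
structure Sy4 {V : Type} (E : V → V → V → V → ℕ) : Prop where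
  b : ∀ a b c d, E a b c d = 0 ∨ E a b c d = 1
  s0 : ∀ a b c d, E b a c d = E a b c d
  s1 : ∀ a b c d, E a c b d = E a b c d
  s2 : ∀ a b c d, E a b d c = E a b c d

/-- every five vertices contain a non-edge -/
def Cov {V : Type} (E : V → V → V → V → ℕ) : Prop :=
  ∀ a b c d e, 1 ≤ E b c d e + E a c d e + E a b d e + E a b c e + E a b c d

/-- five bits -/
def cm (b0 b1 b2 b3 b4 : ℕ) : ℕ := b0 + 2 * b1 + 4 * b2 + 8 * b3 + 16 * b4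

/-- ten bits, indexed by the pairs of positions -/
def cl (e01 e02 e03 e04 e12 e13 e14 e23 e24 e34 : ℕ) : ℕ :=
  e01 + 2 * e02 + 4 * e03 + 8 * e04 + 16 * e12 + 32 * e13 + 64 * e14 + 128 * e23 + 256 * e24 + 512 * e34

/-- the code of the structure on the root `a b c d e`: bit `i` is the value on the root without its `i`-th vertex -/
def mC {V : Type} (E : V → V → V → V → ℕ) (a b c d e : V) : ℕ :=
  cm (E b c d e) (E a c d e) (E a b d e) (E a b c e) (E a b c d)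

/-- the number of non-edges inside the root -/
def kC5 {V : Type} (E : V → V → V → V → ℕ) (a b c d e : V) : ℕ :=
  E b c d e + E a c d e + E a b d e + E a b c e + E a b c d

/-- the code of the link of `x` on the root: bit `{i, j}` is the value on `x` and the root without its `i`-th and
`j`-th vertices -/
def lC {V : Type} (E : V → V → V → V → ℕ) (a b c d e x : V) : ℕ :=
  cl (E c d e x) (E b d e x) (E b c e x) (E b c d x) (E a d e x) (E a c e x) (E a c d x) (E a b e x) (E a b d x)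
    (E a b c x)

/-- the numbers `640 Φ(k)`, up to the factor `2000000` -/
def ck : ℕ → ℤ
  | 1 => -65
  | 2 => 95
  | 3 => 223
  | 4 => 319
  | 5 => 255
  | _ => 0

/-- What is used of the certificate `ψ m l l'` (`m` the code of the root, `l`, `l'` the codes of two links). -/
structure Cert (ψ : ℕ → ℕ → ℕ → ℤ) : Prop where
  sym : ∀ m l l', ψ m l l' = ψ m l' l
  inv0 : ∀ b0 b1 b2 b3 b4 e01 e02 e03 e04 e12 e13 e14 e23 e24 e34 f01 f02 f03 f04 f12 f13 f14 f23 f24 f34 : ℕ,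
    b0 < 2 → b1 < 2 → b2 < 2 → b3 < 2 → b4 < 2 →
    e01 < 2 → e02 < 2 → e03 < 2 → e04 < 2 → e12 < 2 → e13 < 2 → e14 < 2 → e23 < 2 → e24 < 2 → e34 < 2 →
    f01 < 2 → f02 < 2 → f03 < 2 → f04 < 2 → f12 < 2 → f13 < 2 → f14 < 2 → f23 < 2 → f24 < 2 → f34 < 2 →
    ψ (cm b1 b0 b2 b3 b4) (cl e01 e12 e13 e14 e02 e03 e04 e23 e24 e34) (cl f01 f12 f13 f14 f02 f03 f04 f23 f24 f34)
      = ψ (cm b0 b1 b2 b3 b4) (cl e01 e02 e03 e04 e12 e13 e14 e23 e24 e34) (cl f01 f02 f03 f04 f12 f13 f14 f23 f24 f34)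
  inv1 : ∀ b0 b1 b2 b3 b4 e01 e02 e03 e04 e12 e13 e14 e23 e24 e34 f01 f02 f03 f04 f12 f13 f14 f23 f24 f34 : ℕ,
    b0 < 2 → b1 < 2 → b2 < 2 → b3 < 2 → b4 < 2 →
    e01 < 2 → e02 < 2 → e03 < 2 → e04 < 2 → e12 < 2 → e13 < 2 → e14 < 2 → e23 < 2 → e24 < 2 → e34 < 2 →
    f01 < 2 → f02 < 2 → f03 < 2 → f04 < 2 → f12 < 2 → f13 < 2 → f14 < 2 → f23 < 2 → f24 < 2 → f34 < 2 →
    ψ (cm b0 b2 b1 b3 b4) (cl e02 e01 e03 e04 e12 e23 e24 e13 e14 e34) (cl f02 f01 f03 f04 f12 f23 f24 f13 f14 f34)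
      = ψ (cm b0 b1 b2 b3 b4) (cl e01 e02 e03 e04 e12 e13 e14 e23 e24 e34) (cl f01 f02 f03 f04 f12 f13 f14 f23 f24 f34)
  inv2 : ∀ b0 b1 b2 b3 b4 e01 e02 e03 e04 e12 e13 e14 e23 e24 e34 f01 f02 f03 f04 f12 f13 f14 f23 f24 f34 : ℕ,
    b0 < 2 → b1 < 2 → b2 < 2 → b3 < 2 → b4 < 2 →
    e01 < 2 → e02 < 2 → e03 < 2 → e04 < 2 → e12 < 2 → e13 < 2 → e14 < 2 → e23 < 2 → e24 < 2 → e34 < 2 →
    f01 < 2 → f02 < 2 → f03 < 2 → f04 < 2 → f12 < 2 → f13 < 2 → f14 < 2 → f23 < 2 → f24 < 2 → f34 < 2 →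
    ψ (cm b0 b1 b3 b2 b4) (cl e01 e03 e02 e04 e13 e12 e14 e23 e34 e24) (cl f01 f03 f02 f04 f13 f12 f14 f23 f34 f24)
      = ψ (cm b0 b1 b2 b3 b4) (cl e01 e02 e03 e04 e12 e13 e14 e23 e24 e34) (cl f01 f02 f03 f04 f12 f13 f14 f23 f24 f34)
  inv3 : ∀ b0 b1 b2 b3 b4 e01 e02 e03 e04 e12 e13 e14 e23 e24 e34 f01 f02 f03 f04 f12 f13 f14 f23 f24 f34 : ℕ,
    b0 < 2 → b1 < 2 → b2 < 2 → b3 < 2 → b4 < 2 →
    e01 < 2 → e02 < 2 → e03 < 2 → e04 < 2 → e12 < 2 → e13 < 2 → e14 < 2 → e23 < 2 → e24 < 2 → e34 < 2 →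
    f01 < 2 → f02 < 2 → f03 < 2 → f04 < 2 → f12 < 2 → f13 < 2 → f14 < 2 → f23 < 2 → f24 < 2 → f34 < 2 →
    ψ (cm b0 b1 b2 b4 b3) (cl e01 e02 e04 e03 e12 e14 e13 e24 e23 e34) (cl f01 f02 f04 f03 f12 f14 f13 f24 f23 f34)
      = ψ (cm b0 b1 b2 b3 b4) (cl e01 e02 e03 e04 e12 e13 e14 e23 e24 e34) (cl f01 f02 f03 f04 f12 f13 f14 f23 f24 f34)
  /-- the sum of squares estimate; `k` is the number of ones of `m` -/
  psd : ∀ b0 b1 b2 b3 b4 : ℕ, b0 < 2 → b1 < 2 → b2 < 2 → b3 < 2 → b4 < 2 →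
    ∀ (V : Type) [Fintype V] (l : V → ℕ), (∀ v, l v < 1024) →
      ∑ y, ∑ z, ψ (cm b0 b1 b2 b3 b4) (l y) (l z)
        ≤ 2000000 * ck (b0 + b1 + b2 + b3 + b4) * (Fintype.card V : ℤ) ^ 2

def Psi {V : Type} (E : V → V → V → V → ℕ) (ψ : ℕ → ℕ → ℕ → ℤ) (a b c d e y z : V) : ℤ :=
  ψ (mC E a b c d e) (lC E a b c d e y) (lC E a b c d e z)

/-- the sum over the 21 pairs of positions -/
def L7 {V : Type} (E : V → V → V → V → ℕ) (ψ : ℕ → ℕ → ℕ → ℤ) (x0 x1 x2 x3 x4 x5 x6 : V) : ℤ :=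
  Psi E ψ x2 x3 x4 x5 x6 x0 x1 +
    Psi E ψ x1 x3 x4 x5 x6 x0 x2 +
    Psi E ψ x1 x2 x4 x5 x6 x0 x3 +
    Psi E ψ x1 x2 x3 x5 x6 x0 x4 +
    Psi E ψ x1 x2 x3 x4 x6 x0 x5 +
    Psi E ψ x1 x2 x3 x4 x5 x0 x6 +
    Psi E ψ x0 x3 x4 x5 x6 x1 x2 +
    Psi E ψ x0 x2 x4 x5 x6 x1 x3 +
    Psi E ψ x0 x2 x3 x5 x6 x1 x4 +
    Psi E ψ x0 x2 x3 x4 x6 x1 x5 +
    Psi E ψ x0 x2 x3 x4 x5 x1 x6 +
    Psi E ψ x0 x1 x4 x5 x6 x2 x3 +
    Psi E ψ x0 x1 x3 x5 x6 x2 x4 +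
    Psi E ψ x0 x1 x3 x4 x6 x2 x5 +
    Psi E ψ x0 x1 x3 x4 x5 x2 x6 +
    Psi E ψ x0 x1 x2 x5 x6 x3 x4 +
    Psi E ψ x0 x1 x2 x4 x6 x3 x5 +
    Psi E ψ x0 x1 x2 x4 x5 x3 x6 +
    Psi E ψ x0 x1 x2 x3 x6 x4 x5 +
    Psi E ψ x0 x1 x2 x3 x5 x4 x6 +
    Psi E ψ x0 x1 x2 x3 x4 x5 x6

def L7f {V : Type} (E : V → V → V → V → ℕ) (ψ : ℕ → ℕ → ℕ → ℤ) (x : Fin 7 → V) : ℤ :=
  L7 E ψ (x 0) (x 1) (x 2) (x 3) (x 4) (x 5) (x 6)

/-- the number of non-edges inside six vertices -/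
def e6 {V : Type} (E : V → V → V → V → ℕ) (x0 x1 x2 x3 x4 x5 : V) : ℕ :=
  E x2 x3 x4 x5 + E x1 x3 x4 x5 + E x1 x2 x4 x5 + E x1 x2 x3 x5 + E x1 x2 x3 x4 + E x0 x3 x4 x5 + E x0 x2 x4 x5 + E x0 x2 x3 x5 + E x0 x2 x3 x4 + E x0 x1 x4 x5 + E x0 x1 x3 x5 + E x0 x1 x3 x4 + E x0 x1 x2 x5 + E x0 x1 x2 x4 + E x0 x1 x2 x3

/-- the code of the structure on six vertices, bit `{i, j}` for the four other vertices -/
def kC {V : Type} (E : V → V → V → V → ℕ) (x0 x1 x2 x3 x4 x5 : V) : ℕ :=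
  E x2 x3 x4 x5 + 2 * E x1 x3 x4 x5 + 4 * E x1 x2 x4 x5 + 8 * E x1 x2 x3 x5 + 16 * E x1 x2 x3 x4 + 32 * E x0 x3 x4 x5 + 64 * E x0 x2 x4 x5 + 128 * E x0 x2 x3 x5 + 256 * E x0 x2 x3 x4 + 512 * E x0 x1 x4 x5 + 1024 * E x0 x1 x3 x5 + 2048 * E x0 x1 x3 x4 + 4096 * E x0 x1 x2 x5 + 8192 * E x0 x1 x2 x4 + 16384 * E x0 x1 x2 x3

/-- the representatives of the graphs on six vertices without isolated vertices -/
def repsL : List ℕ := [31, 60, 61, 63, 120, 121, 122, 123, 126, 127, 246, 247, 254, 255, 510, 511, 632, 633, 635, 639, 656, 657, 659, 662, 663, 671, 691, 692, 693, 694, 695, 700, 701, 703, 758, 759, 760, 761, 762, 763, 766, 767, 920, 921, 922, 923, 926, 927, 954, 955, 956, 957, 958, 959, 1022, 1023, 1749, 1751, 1759, 1780, 1781, 1783, 1788, 1789, 1791, 1880, 1881, 1883, 1884, 1885, 1887, 1915, 1916, 1917, 1919, 2012, 2013, 2014, 2015, 2046, 2047, 4060,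 4061, 4063, 4095, 5872, 5873, 5875, 5879, 5887, 5905, 5907, 5911, 5919, 5941, 5943, 5948, 5949, 5950, 5951, 6007, 6010, 6011, 6014, 6015, 6142, 6143, 6654, 6655, 7071, 7100, 7101, 7103, 7166, 7167, 8157, 8159, 8191, 15870, 15871, 16383, 32767]

/-- omitting the last vertex leaves at least as many non-edges as omitting any other vertex -/
def MD {V : Type} (E : V → V → V → V → ℕ) (x : Fin 7 → V) : Prop :=
  e6 E (x 1) (x 2) (x 3) (x 4) (x 5) (x 6) ≤ e6 E (x 0) (x 1) (x 2) (x 3) (x 4) (x 5) ∧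
  e6 E (x 0) (x 2) (x 3) (x 4) (x 5) (x 6) ≤ e6 E (x 0) (x 1) (x 2) (x 3) (x 4) (x 5) ∧
  e6 E (x 0) (x 1) (x 3) (x 4) (x 5) (x 6) ≤ e6 E (x 0) (x 1) (x 2) (x 3) (x 4) (x 5) ∧
  e6 E (x 0) (x 1) (x 2) (x 4) (x 5) (x 6) ≤ e6 E (x 0) (x 1) (x 2) (x 3) (x 4) (x 5) ∧
  e6 E (x 0) (x 1) (x 2) (x 3) (x 5) (x 6) ≤ e6 E (x 0) (x 1) (x 2) (x 3) (x 4) (x 5) ∧
  e6 E (x 0) (x 1) (x 2) (x 3) (x 4) (x 6) ≤ e6 E (x 0) (x 1) (x 2) (x 3) (x 4) (x 5)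

/-- INV: invariance of the sum under permutations of the seven vertices -/
def Goal_INV : Prop := ∀ (ψ : ℕ → ℕ → ℕ → ℤ), Cert ψ → ∀ (V : Type) (E : V → V → V → V → ℕ), Sy4 E →
  ∀ (x : Fin 7 → V) (σ : Equiv.Perm (Fin 7)), L7f E ψ (fun i => x (σ i)) = L7f E ψ x

/-- RED: every seven vertices can be reordered so that the last vertex is extremal and the structure on the others is a
representative -/
def Goal_RED : Prop := ∀ (V : Type) (E : V → V → V → V → ℕ), Sy4 E → Cov E → ∀ x : Fin 7 → V,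
  ∃ σ : Equiv.Perm (Fin 7), MD E (fun i => x (σ i)) ∧
    kC E (x (σ 0)) (x (σ 1)) (x (σ 2)) (x (σ 3)) (x (σ 4)) (x (σ 5)) ∈ repsL

/-- the number of ordered 5-tuples with exactly `k` non-edges -/
def p5 {V : Type} [Fintype V] [DecidableEq V] (E : V → V → V → V → ℕ) (k : ℕ) : ℕ :=
  ((univ : Finset (V × V × V × V × V)).filter fun t => kC5 E t.1 t.2.1 t.2.2.1 t.2.2.2.1 t.2.2.2.2 = k).card

/-- AVG: averaging -/
def Goal_AVG : Prop := ∀ (ψ : ℕ → ℕ → ℕ → ℤ), Cert ψ → ∀ (V : Type) [Fintype V] [DecidableEq V]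
  (E : V → V → V → V → ℕ), Sy4 E → (∀ x : Fin 7 → V, 0 ≤ L7f E ψ x) →
  (65 : ℤ) * p5 E 1 ≤ 95 * p5 E 2 + 223 * p5 E 3 + 319 * p5 E 4 + 255 * p5 E 5

/-- the non-edge function of a family of 4-sets -/
def non {n : ℕ} (G : Finset (Finset (Fin n))) (a b c d : Fin n) : ℕ := if ({a, b, c, d} : Finset (Fin n)) ∈ G then 0 else 1

/-- no five vertices span all their 4-sets -/
def K54Free {n : ℕ} (G : Finset (Finset (Fin n))) : Prop :=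
  ∀ S : Finset (Fin n), S.card = 5 → ∃ s ⊆ S, s.card = 4 ∧ s ∉ G

/-- the codegree of `P` -/
def codeg {n : ℕ} (G : Finset (Finset (Fin n))) (P : Finset (Fin n)) : ℕ := (G.filter (P ⊆ ·)).card

/-- NON: the function of a `K_5^4`-free family is symmetric and covering -/
def Goal_NON : Prop := ∀ (n : ℕ) (G : Finset (Finset (Fin n))), (∀ s ∈ G, s.card = 4) → K54Free G →
  Sy4 (non G) ∧ Cov (non G)

/-- CDG: the codegree squares in terms of the numbers `p5` -/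
def Goal_CDG : Prop := ∀ (n : ℕ) (G : Finset (Finset (Fin n))), (∀ s ∈ G, s.card = 4) → K54Free G →
  60 * ∑ P ∈ (univ : Finset (Fin n)).powersetCard 3, (codeg G P) ^ 2
    = 6 * p5 (non G) 1 + 3 * p5 (non G) 2 + p5 (non G) 3 ∧
  p5 (non G) 1 + p5 (non G) 2 + p5 (non G) 3 + p5 (non G) 4 + p5 (non G) 5 = n ^ 5

/-- STAR: the inequality for odd structures (from `Results/MP_465f8a_co/FiveFourInequality`) -/
def Goal_STAR : Prop := ∃ C : ℝ, ∀ (n : ℕ) (G : Finset (Finset (Fin n))), (∀ s ∈ G, s.card = 4) → K54Free G →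
  9 * (p5 (non G) 1 : ℝ) + 9 * (p5 (non G) 4 : ℝ) ≤
    23 * (p5 (non G) 2 : ℝ) + 23 * (p5 (non G) 3 : ℝ) + 55 * (p5 (non G) 5 : ℝ) + C * (n : ℝ) ^ 4

/-- LOW: the lower bound (Giraud's construction) -/
def Goal_LOW : Prop := ∀ ε : ℝ, 0 < ε → ∃ N : ℕ, ∀ n : ℕ, N ≤ n → ∃ G : Finset (Finset (Fin n)),
  (∀ s ∈ G, s.card = 4) ∧ K54Free G ∧
  (31 / 384 - ε) * (n : ℝ) ^ 5 ≤ ∑ P ∈ (univ : Finset (Fin n)).powersetCard 3, (codeg G P : ℝ) ^ 2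

/-- UPP: the upper bound -/
def Goal_UPP : Prop := ∃ C : ℝ, ∀ (n : ℕ) (G : Finset (Finset (Fin n))), (∀ s ∈ G, s.card = 4) → K54Free G →
  ∑ P ∈ (univ : Finset (Fin n)).powersetCard 3, (codeg G P : ℝ) ^ 2 ≤ 31 / 384 * (n : ℝ) ^ 5 + C * (n : ℝ) ^ 4

end Pool.Agent.N465.L2
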