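import Pool.Agent.N465.L2.Def

/-! Kernel checks of the small tables. -/

set_option autoImplicit false
set_option maxRecDepth 100000

namespace Pool.Agent.N465.L2

def chP0 (w : ℕ) : Bool := Nat.beq (p0 w)
  ((bt 0 w + 2 * bt 4 w + 4 * bt 5 w + 8 * bt 6 w) + 1024 * (bt 1 w + 2 * bt 4 w + 4 * bt 7 w + 8 * bt 8 w) +
    1048576 * (bt 2 w + 2 * bt 5 w + 4 * bt 7 w + 8 * bt 9 w) +
    1073741824 * (bt 3 w + 2 * bt 6 w + 4 * bt 8 w + 8 * bt 9 w))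

theorem tabP0 : al 1024 chP0 = true := by decide +kernel

def chP1 (w : ℕ) : Bool := Nat.beq (p1 w)
  ((16 * bt 0 w + 32 * bt 1 w + 64 * bt 2 w) + 1024 * (16 * bt 0 w + 32 * bt 3 w + 64 * bt 4 w) +
    1048576 * (16 * bt 1 w + 32 * bt 3 w + 64 * bt 5 w) + 1073741824 * (16 * bt 2 w + 32 * bt 4 w + 64 * bt 5 w))

theorem tabP1 : al 64 chP1 = true := by decide +kernel

def chP2 (w : ℕ) : Bool := Nat.beq (p2 w)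
  ((128 * bt 0 w + 256 * bt 1 w + 512 * bt 2 w) + 1024 * (128 * bt 0 w + 256 * bt 1 w) +
    1048576 * (128 * bt 0 w + 256 * bt 2 w) + 1073741824 * (128 * bt 1 w + 256 * bt 2 w))

theorem tabP2 : al 8 chP2 = true := by decide +kernel

theorem tabP3 : pT3 = 1024 * 512 + 1048576 * 512 + 1073741824 * 512 := by decide +kernel

/-- the codes for position `x` as functions of the bits -/
def Q0 (b0 b1 b2 b3 b4 e01 e02 e03 e04 e12 e13 e14 e23 e24 e34 : ℕ) : ℕ :=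
  cm e01 e02 e03 e04 b0 + 32 * cl e12 e13 e14 b1 e23 e24 b2 e34 b3 b4
def Q1 (b0 b1 b2 b3 b4 e01 e02 e03 e04 e12 e13 e14 e23 e24 e34 : ℕ) : ℕ :=
  cm e01 e12 e13 e14 b1 + 32 * cl e02 e03 e04 b0 e23 e24 b2 e34 b3 b4
def Q2 (b0 b1 b2 b3 b4 e01 e02 e03 e04 e12 e13 e14 e23 e24 e34 : ℕ) : ℕ :=
  cm e02 e12 e23 e24 b2 + 32 * cl e01 e03 e04 b0 e13 e14 b1 e34 b3 b4
def Q3 (b0 b1 b2 b3 b4 e01 e02 e03 e04 e12 e13 e14 e23 e24 e34 : ℕ) : ℕ :=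
  cm e03 e13 e23 e34 b3 + 32 * cl e01 e02 e04 b0 e12 e14 b1 e24 b2 b4
def Q4 (b0 b1 b2 b3 b4 e01 e02 e03 e04 e12 e13 e14 e23 e24 e34 : ℕ) : ℕ :=
  cm e04 e14 e24 e34 b4 + 32 * cl e01 e02 e03 b0 e12 e13 b1 e23 b2 b3

def chQ (l : ℕ) : Bool :=
  cnd (Nat.beq (q0 l) (Q0 0 0 0 0 0 (bt 0 l) (bt 1 l) (bt 2 l) (bt 3 l) (bt 4 l) (bt 5 l) (bt 6 l) (bt 7 l) (bt 8 l) (bt 9 l)))
  (cnd (Nat.beq (q1 l) (Q1 0 0 0 0 0 (bt 0 l) (bt 1 l) (bt 2 l) (bt 3 l) (bt 4 l) (bt 5 l) (bt 6 l) (bt 7 l) (bt 8 l) (bt 9 l)))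
  (cnd (Nat.beq (q2 l) (Q2 0 0 0 0 0 (bt 0 l) (bt 1 l) (bt 2 l) (bt 3 l) (bt 4 l) (bt 5 l) (bt 6 l) (bt 7 l) (bt 8 l) (bt 9 l)))
  (cnd (Nat.beq (q3 l) (Q3 0 0 0 0 0 (bt 0 l) (bt 1 l) (bt 2 l) (bt 3 l) (bt 4 l) (bt 5 l) (bt 6 l) (bt 7 l) (bt 8 l) (bt 9 l)))
  (Nat.beq (q4 l) (Q4 0 0 0 0 0 (bt 0 l) (bt 1 l) (bt 2 l) (bt 3 l) (bt 4 l) (bt 5 l) (bt 6 l) (bt 7 l) (bt 8 l) (bt 9 l)))
  false) false) false) false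

theorem tabQ : al 1024 chQ = true := by decide +kernel

def chC5 (m : ℕ) : Bool :=
  cnd (Nat.beq (cs m 0) (Q0 (bt 0 m) (bt 1 m) (bt 2 m) (bt 3 m) (bt 4 m) 0 0 0 0 0 0 0 0 0 0))
  (cnd (Nat.beq (cs m 1) (Q1 (bt 0 m) (bt 1 m) (bt 2 m) (bt 3 m) (bt 4 m) 0 0 0 0 0 0 0 0 0 0))
  (cnd (Nat.beq (cs m 2) (Q2 (bt 0 m) (bt 1 m) (bt 2 m) (bt 3 m) (bt 4 m) 0 0 0 0 0 0 0 0 0 0))
  (cnd (Nat.beq (cs m 3) (Q3 (bt 0 m) (bt 1 m) (bt 2 m) (bt 3 m) (bt 4 m) 0 0 0 0 0 0 0 0 0 0))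
  (Nat.beq (cs m 4) (Q4 (bt 0 m) (bt 1 m) (bt 2 m) (bt 3 m) (bt 4 m) 0 0 0 0 0 0 0 0 0 0))
  false) false) false) false

theorem tabC : al 32 chC5 = true := by decide +kernel

/-- number of ones and the covering masks -/
def chL (l : ℕ) : Bool :=
  cnd (Nat.beq (pc l) (bt 0 l + bt 1 l + bt 2 l + bt 3 l + bt 4 l + bt 5 l + bt 6 l + bt 7 l + bt 8 l + bt 9 l))
  (cnd (Nat.ble (bt 0 l + bt 1 l + bt 2 l + bt 3 l) (4 * Nat.land l 15))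
  (cnd (Nat.ble (bt 0 l + bt 4 l + bt 5 l + bt 6 l) (4 * Nat.land l 113))
  (cnd (Nat.ble (bt 1 l + bt 4 l + bt 7 l + bt 8 l) (4 * Nat.land l 402))
  (cnd (Nat.ble (bt 2 l + bt 5 l + bt 7 l + bt 9 l) (4 * Nat.land l 676))
  (Nat.ble (bt 3 l + bt 6 l + bt 8 l + bt 9 l) (4 * Nat.land l 840))
  false) false) false) false) false

theorem tabL : al 1024 chL = true := by decide +kernel

end Pool.Agent.N465.L2
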